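import Pool.Agent.TSR.Defs

/-!
# From the scales to the embedding (module TSR_Assemble)

PROOF. `N 0 = m`, `N (j+1) = n j`, `F x = (u x, w x)` with `w x 0 = v x - v x₀`,
`w x (j+1) = h j x - h j x₀` (`x₀ : M` a base point, use `Memℓp`/the estimate below for membership in
`lp _ 2`). `dist (F x) (F y) = max (dist (u x) (u y)) ‖w x - w y‖` and
`‖w x - w y‖ ^ 2 = dist (v x) (v y) ^ 2 + ∑' j, dist (h j x) (h j y) ^ 2`.
UPPER BOUND (`x ≠ y`, `d = dist x y`): `a j → 0`. If `d ≤ a 0` choose `k` with `a (k+1) < d ≤ a k`.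
For `j + 2 ≤ k`: `d ≤ a (j+2)`, term `≤ 2 * 4^(-(j+1)) d^2 + 2 (q j)^2`; for `j ∈ {k-1, k, k+1}` term `≤ d^2`;
for `j ≥ k+2`: `a j ≤ 4^(-(j-k-1)) a (k+1) ≤ 4^(-(j-k-1)) d`, term `≤ 2 * 16^(-(j-k-1)) d^2 + 2 (q j)^2`.
If `d > a 0` then `a j ≤ 4^(-j) d` for all `j`. As `∑ q j ≤ 2 d` also `∑ (q j)^2 ≤ 4 d^2`. In total
`‖w x - w y‖^2 ≤ d^2 + 12 d^2`, so `‖w x - w y‖ ≤ 4 d`.
LOWER BOUND: `d ≥ a 0`: use `v`; otherwise `a (k+1) ≤ d ≤ a k` for some `k`: use the last hypothesis.
Each coordinate is bounded by the norm (`lp.norm_apply_le_norm`).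
-/

set_option autoImplicit false

namespace Pool.Agent.TSR

open MeasureTheory Filter Topology Finset

/-- the dimensions -/
private def dimN (m : ℕ) (n : ℕ → ℕ) : ℕ → ℕ
  | 0 => m
  | j + 1 => n j

/-- the coordinates -/
private def crd {M : Type} {m : ℕ} {n : ℕ → ℕ} (v : M → Fin m → ℝ)
    (h : ∀ j, M → Fin (n j) → ℝ) (x : M) : (j : ℕ) → Fin (dimN m n j) → ℝ
  | 0 => v x
  | j + 1 => h j x

private theorem tele (g : ℕ → ℝ) (J : ℕ) :
    ∑ j ∈ range J, (g j - g (j + 3)) = (g 0 + g 1 + g 2) - (g J + g (J + 1) + g (J + 2)) := by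
  induction J with
  | zero => simp
  | succ J ih => rw [sum_range_succ, ih]; ring

private theorem a_anti {a : ℕ → ℝ} (ha : ∀ j, 0 < a j) (ha4 : ∀ j, 4 * a (j + 1) ≤ a j) (j : ℕ) :
    a (j + 1) ≤ a j := by
  have := ha4 j
  have := ha (j + 1)
  linarith

private theorem sum_t {a q t : ℕ → ℝ} {d : ℝ} (hd : 0 ≤ d) (ha : ∀ j, 0 < a j)
    (ha4 : ∀ j, 4 * a (j + 1) ≤ a j) (hq : ∀ j, 0 ≤ q j)
    (hq2 : ∀ J, ∑ j ∈ range J, q j ≤ 2 * d) (h1 : ∀ j, t j ≤ d) (h2 : ∀ j, t j ≤ a j + q j)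
    (h3 : ∀ j, d ≤ a (j + 2) → t j ≤ (1 / 2) ^ (j + 1) * d + q j) (J : ℕ) :
    ∑ j ∈ range J, t j ≤ 7 * d := by
  have hg0 : ∀ j, 0 ≤ min d (a j) := fun j => le_min hd (ha j).le
  have hgd : ∀ j, min d (a j) ≤ d := fun j => min_le_left _ _
  have key : ∀ j, t j ≤ (1 / 2) ^ (j + 1) * d + 4 / 3 * (min d (a j) - min d (a (j + 3))) + q j := by
    intro j
    have e1 : a (j + 1) ≤ a j := a_anti ha ha4 j
    have e2 : a (j + 2) ≤ a (j + 1) := a_anti ha ha4 (j + 1)
    have e3 : a (j + 3) ≤ a (j + 2) := a_anti ha ha4 (j + 2)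
    by_cases hc : d ≤ a (j + 2)
    · have := h3 j hc
      have h4 : min d (a (j + 3)) ≤ min d (a j) :=
        min_le_min_left d (by linarith)
      linarith
    · push Not at hc
      have h5 : t j ≤ min d (a j) + q j := by
        rcases le_total d (a j) with h | h
        · rw [min_eq_left h]; linarith [h1 j, hq j]
        · rw [min_eq_right h]; exact h2 j
      have h6 : min d (a (j + 3)) ≤ min d (a j) / 4 := by
        have h7 : min d (a (j + 3)) ≤ a (j + 3) := min_le_right _ _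
        have h8 : 4 * a (j + 3) ≤ a (j + 2) := ha4 (j + 2)
        have h9 : a (j + 2) ≤ min d (a j) := le_min hc.le (by linarith)
        linarith
      have h10 : 0 ≤ (1 / 2 : ℝ) ^ (j + 1) * d := mul_nonneg (by positivity) hd
      linarith
  have hgeo : ∀ J : ℕ, ∑ j ∈ range J, (1 / 2 : ℝ) ^ (j + 1) * d = (1 - (1 / 2) ^ J) * d := by
    intro J
    induction J with
    | zero => simp
    | succ J ih => rw [sum_range_succ, ih]; ring
  calc ∑ j ∈ range J, t j
      ≤ ∑ j ∈ range J, ((1 / 2) ^ (j + 1) * d + 4 / 3 * (min d (a j) - min d (a (j + 3))) + q j) :=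
        sum_le_sum fun j _ => key j
    _ = (1 - (1 / 2) ^ J) * d + 4 / 3 * ((min d (a 0) + min d (a 1) + min d (a 2)) -
          (min d (a J) + min d (a (J + 1)) + min d (a (J + 2)))) + ∑ j ∈ range J, q j := by
        rw [sum_add_distrib, sum_add_distrib, hgeo, ← mul_sum, tele (fun j => min d (a j))]
    _ ≤ 7 * d := by
        have e1 : (1 - (1 / 2 : ℝ) ^ J) * d ≤ d := by
          have : 0 ≤ (1 / 2 : ℝ) ^ J * d := mul_nonneg (by positivity) hd
          linarith
        linarith [hq2 J, hgd 0, hgd 1, hgd 2, hg0 J, hg0 (J + 1), hg0 (J + 2)]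

private theorem sum_crd {M : Type} [MetricSpace M] {m : ℕ} {n : ℕ → ℕ} (v : M → Fin m → ℝ)
    (a : ℕ → ℝ) (h : ∀ j, M → Fin (n j) → ℝ) (q : ℕ → M → M → ℝ)
    (ha : ∀ j, 0 < a j) (ha4 : ∀ j, 4 * a (j + 1) ≤ a j)
    (hq : ∀ j x y, 0 ≤ q j x y) (hq2 : ∀ x y J, ∑ j ∈ range J, q j x y ≤ 2 * dist x y)
    (h1 : ∀ j x y, dist (h j x) (h j y) ≤ dist x y)
    (h2 : ∀ j x y, dist (h j x) (h j y) ≤ a j + q j x y)
    (h3 : ∀ j x y, dist x y ≤ a (j + 2) →
      dist (h j x) (h j y) ≤ (1 / 2) ^ (j + 1) * dist x y + q j x y)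
    (hv : ∀ x y, dist (v x) (v y) ≤ dist x y) (x y : M) (s : Finset ℕ) :
    ∑ j ∈ s, ‖crd v h x j - crd v h y j‖ ^ (2 : ENNReal).toReal ≤
      (3 * dist x y) ^ (2 : ENNReal).toReal := by
  have hd : 0 ≤ dist x y := dist_nonneg
  have e2 : (2 : ENNReal).toReal = ((2 : ℕ) : ℝ) := by norm_num
  rw [e2]
  simp only [Real.rpow_natCast]
  have hrange : ∀ J : ℕ, ∑ j ∈ range J, ‖crd v h x j - crd v h y j‖ ^ 2 ≤ 8 * dist x y ^ 2 := by
    intro J
    have hS := sum_t (a := a) (q := fun j => q j x y) (t := fun j => dist (h j x) (h j y)) hd ha ha4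
      (fun j => hq j x y) (fun J => hq2 x y J) (fun j => h1 j x y) (fun j => h2 j x y)
      (fun j hj => h3 j x y hj) J
    have hmono : ∑ j ∈ range J, ‖crd v h x j - crd v h y j‖ ^ 2 ≤
        ∑ j ∈ range (J + 1), ‖crd v h x j - crd v h y j‖ ^ 2 := by
      rw [sum_range_succ]
      have : 0 ≤ ‖crd v h x J - crd v h y J‖ ^ 2 := by positivity
      linarith
    refine hmono.trans ?_
    rw [sum_range_succ']
    have e0 : ‖crd v h x 0 - crd v h y 0‖ ^ 2 ≤ dist x y ^ 2 := by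
      have : ‖crd v h x 0 - crd v h y 0‖ ≤ dist x y := by
        have := hv x y
        rw [dist_eq_norm] at this
        exact this
      exact pow_le_pow_left₀ (norm_nonneg _) this 2
    have e3 : ∑ j ∈ range J, ‖crd v h x (j + 1) - crd v h y (j + 1)‖ ^ 2 ≤ 7 * dist x y ^ 2 := by
      calc ∑ j ∈ range J, ‖crd v h x (j + 1) - crd v h y (j + 1)‖ ^ 2
          ≤ ∑ j ∈ range J, dist (h j x) (h j y) * dist x y := by
            refine sum_le_sum fun j _ => ?_
            have e4 : ‖crd v h x (j + 1) - crd v h y (j + 1)‖ = dist (h j x) (h j y) := by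
              rw [dist_eq_norm]; rfl
            rw [e4, pow_two]
            exact mul_le_mul_of_nonneg_left (h1 j x y) dist_nonneg
        _ = (∑ j ∈ range J, dist (h j x) (h j y)) * dist x y := by rw [sum_mul]
        _ ≤ 7 * dist x y * dist x y := mul_le_mul_of_nonneg_right hS hd
        _ = 7 * dist x y ^ 2 := by ring
    linarith
  obtain ⟨J, hJ⟩ : ∃ J : ℕ, s ⊆ range J :=
    ⟨s.sup id + 1, fun i hi => mem_range.mpr (Nat.lt_succ_of_le (le_sup (f := id) hi))⟩
  have h5 : ∑ j ∈ s, ‖crd v h x j - crd v h y j‖ ^ 2 ≤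
      ∑ j ∈ range J, ‖crd v h x j - crd v h y j‖ ^ 2 :=
    sum_le_sum_of_subset_of_nonneg hJ fun _ _ _ => by positivity
  have h6 := hrange J
  have h7 : (3 * dist x y) ^ 2 = 9 * dist x y ^ 2 := by ring
  have h8 : 0 ≤ dist x y ^ 2 := by positivity
  linarith

theorem assemble {M E : Type} [MetricSpace M] [Nonempty M] [NormedAddCommGroup E]
    (u : M → E) (hu : ∀ x y, dist (u x) (u y) ≤ dist x y) {c : ℝ}
    (a : ℕ → ℝ) (n : ℕ → ℕ) (h : ∀ j, M → Fin (n j) → ℝ) (q : ℕ → M → M → ℝ)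
    (ha : ∀ j, 0 < a j) (ha4 : ∀ j, 4 * a (j + 1) ≤ a j)
    (hq : ∀ j x y, 0 ≤ q j x y) (hq2 : ∀ x y J, ∑ j ∈ range J, q j x y ≤ 2 * dist x y)
    (h1 : ∀ j x y, dist (h j x) (h j y) ≤ dist x y)
    (h2 : ∀ j x y, dist (h j x) (h j y) ≤ a j + q j x y)
    (h3 : ∀ j x y, dist x y ≤ a (j + 2) →
      dist (h j x) (h j y) ≤ (1 / 2) ^ (j + 1) * dist x y + q j x y)
    (h4 : ∀ j x y, a (j + 1) ≤ dist x y → dist x y ≤ a j →
      (c / 4) * dist x y ≤ dist (u x) (u y) ∨ (c / 4) * dist x y ≤ dist (h j x) (h j y))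
    (m : ℕ) (v : M → Fin m → ℝ) (hv : ∀ x y, dist (v x) (v y) ≤ dist x y)
    (hv2 : ∀ x y, a 0 ≤ dist x y → (c / 4) * dist x y ≤ dist (v x) (v y)) :
    ∃ (N : ℕ → ℕ) (F : M → E × lp (fun j : ℕ => (Fin (N j) → ℝ)) 2),
      ∀ x y, (c / 4) * dist x y ≤ dist (F x) (F y) ∧ dist (F x) (F y) ≤ 6 * dist x y := by
  classical
  obtain ⟨x₀⟩ := ‹Nonempty M›
  have hsum := sum_crd v a h q ha ha4 hq hq2 h1 h2 h3 hv
  have hmem : ∀ x : M, Memℓp (fun j => crd v h x j - crd v h x₀ j) 2 := fun x =>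
    memℓp_gen' (hsum x x₀)
  let w : M → lp (fun j : ℕ => (Fin (dimN m n j) → ℝ)) 2 := fun x =>
    ⟨fun j => crd v h x j - crd v h x₀ j, hmem x⟩
  have hw : ∀ x y j, (w x - w y) j = crd v h x j - crd v h y j := by
    intro x y j
    rw [lp.coeFn_sub, Pi.sub_apply]
    show (crd v h x j - crd v h x₀ j) - (crd v h y j - crd v h x₀ j) = _
    abel
  have hcoord : ∀ x y j, ‖crd v h x j - crd v h y j‖ ≤ dist (w x) (w y) := by
    intro x y j
    rw [dist_eq_norm, ← hw]
    exact lp.norm_apply_le_norm (by norm_num) _ _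
  refine ⟨dimN m n, fun x => (u x, w x), fun x y => ⟨?_, ?_⟩⟩
  · rw [Prod.dist_eq]
    by_cases h0 : a 0 ≤ dist x y
    · refine le_trans (hv2 x y h0) (le_max_of_le_right ?_)
      have := hcoord x y 0
      rw [dist_eq_norm (v x)]
      exact this
    · push Not at h0
      rcases eq_or_lt_of_le (dist_nonneg (x := x) (y := y)) with hd | hd
      · rw [← hd, mul_zero]
        exact le_max_of_le_left dist_nonneg
      · have hex : ∃ k, a (k + 1) ≤ dist x y := by
          have hb : ∀ k, a k ≤ a 0 * (1 / 4) ^ k := by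
            intro k
            induction k with
            | zero => simp
            | succ k ih =>
              have := ha4 k
              rw [pow_succ]
              linarith
          have ht : Tendsto (fun k : ℕ => a 0 * (1 / 4 : ℝ) ^ (k + 1)) atTop (𝓝 (a 0 * 0)) := by
            refine Tendsto.const_mul _ ?_
            exact (tendsto_pow_atTop_nhds_zero_of_lt_one (by norm_num) (by norm_num)).comp
              (tendsto_add_atTop_nat 1)
          rw [mul_zero] at ht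
          obtain ⟨k, hk⟩ := (ht.eventually (eventually_lt_nhds hd)).exists
          exact ⟨k, (hb (k + 1)).trans hk.le⟩
        have hk := Nat.find_spec hex
        have hk2 : dist x y ≤ a (Nat.find hex) := by
          rcases Nat.eq_zero_or_pos (Nat.find hex) with hz | hz
          · rw [hz]; exact h0.le
          · have := Nat.find_min hex (m := Nat.find hex - 1) (by omega)
            rw [Nat.sub_add_cancel hz] at this
            exact (not_le.mp this).le
        rcases h4 (Nat.find hex) x y hk hk2 with h5 | h5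
        · exact h5.trans (le_max_left _ _)
        · refine h5.trans (le_max_of_le_right ?_)
          have := hcoord x y (Nat.find hex + 1)
          rw [dist_eq_norm (h (Nat.find hex) x)]
          exact this
  · rw [Prod.dist_eq]
    refine max_le ?_ ?_
    · have := hu x y
      have := dist_nonneg (x := x) (y := y)
      simp only
      linarith
    · have h3d : 0 ≤ 3 * dist x y := by positivity
      have : dist (w x) (w y) ≤ 3 * dist x y := by
        rw [dist_eq_norm]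
        refine lp.norm_le_of_forall_sum_le (by norm_num) h3d fun s => ?_
        simp only [hw]
        exact hsum x y s
      have := dist_nonneg (x := x) (y := y)
      simp only
      linarith

end Pool.Agent.TSR
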