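import Mathlib

/-!
# Test spaces for reflexivity: definitions (MP_bbb702_an)
-/

set_option autoImplicit false

namespace Pool.Agent.TSR

open MeasureTheory Filter Topology

/-- The metric space `M` embeds into the normed space `X` with distortion at most `D`. -/
def Embeds (D : ℝ) (M X : Type) [MetricSpace M] [NormedAddCommGroup X] : Prop :=
  ∃ f : M → X, ∃ s : ℝ, 0 < s ∧
    ∀ x y : M, s * dist x y ≤ dist (f x) (f y) ∧ dist (f x) (f y) ≤ D * s * dist x y

/-- The Banach space `X` is reflexive: the canonical map into the bidual is onto. -/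
def IsReflexive (X : Type) [NormedAddCommGroup X] [NormedSpace ℝ X] : Prop :=
  Function.Surjective (NormedSpace.inclusionInDoubleDual ℝ X)

/-- `(M i)` is a family of test spaces for reflexivity: a separable real Banach space `X` is
reflexive if and only if the family does not embed into `X` with a common distortion bound. -/
def IsTestFamily {ι : Type} (M : ι → Type) [∀ i, MetricSpace (M i)] : Prop :=
  ∀ (X : Type) [NormedAddCommGroup X] [NormedSpace ℝ X] [CompleteSpace X]
    [TopologicalSpace.SeparableSpace X],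
    IsReflexive X ↔ ¬ ∃ D : ℝ, ∀ i : ι, Embeds D (M i) X

/-- `M` is purely 1-unrectifiable: it contains no bi-Lipschitz copy of a compact set of real
numbers of positive Lebesgue measure. -/
def PurelyUnrectifiable (M : Type) [MetricSpace M] : Prop :=
  ∀ (K : Set ℝ) (γ : ℝ → M) (c C : ℝ), IsCompact K → 0 < c →
    (∀ s ∈ K, ∀ t ∈ K, c * dist s t ≤ dist (γ s) (γ t) ∧ dist (γ s) (γ t) ≤ C * dist s t) →
    volume K = 0

/-- The four point condition: `M` is 0-hyperbolic, i.e. isometric to a subset of an R-tree. -/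
def FourPoint (M : Type) [MetricSpace M] : Prop :=
  ∀ x y z w : M, dist x y + dist z w ≤ max (dist x z + dist y w) (dist x w + dist y z)

/-- `Frag x y r`: there is a curve fragment from `x` to `y` (a 1-Lipschitz map defined on a compact
set `K` of real numbers with minimum `0` and maximum `L`) whose gaps have total length at
most `r`. -/
def Frag {M : Type} [MetricSpace M] (x y : M) (r : ℝ) : Prop :=
  ∃ (L : ℝ) (K : Set ℝ) (γ : ℝ → M), 0 ≤ L ∧ IsCompact K ∧ K ⊆ Set.Icc 0 L ∧
    (0 : ℝ) ∈ K ∧ L ∈ K ∧ γ 0 = x ∧ γ L = y ∧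
    (∀ s ∈ K, ∀ t ∈ K, dist (γ s) (γ t) ≤ dist s t) ∧
    volume (Set.Icc 0 L \ K) ≤ ENNReal.ofReal r

/-- The gap distance of `x` and `y`: the infimum of the total gap lengths of the curve fragments
from `x` to `y`. -/
noncomputable def gap {M : Type} [MetricSpace M] (x y : M) : ℝ :=
  sInf {r : ℝ | 0 ≤ r ∧ Frag x y r}

/-- The space `(⊕ ℓ_∞^n)_2`. -/
abbrev X0 : Type := lp (fun n : ℕ => (Fin n → ℝ)) 2

/-- The space `ℝ ⊕ (⊕_ℕ (E × X0))_2`. -/
abbrev XG (E : Type) [NormedAddCommGroup E] : Type := ℝ × lp (fun _ : ℕ => E × X0) 2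

/-- The cost of a step: steps shorter than `δ` only cost `ε` times their length. -/
noncomputable def step {M : Type} [MetricSpace M] (δ ε : ℝ) (a b : M) : ℝ :=
  if dist a b < δ then ε * dist a b else dist a b

/-- The cost of the chain `x 0, ..., x k`. -/
noncomputable def cost {M : Type} [MetricSpace M] (δ ε : ℝ) (x : ℕ → M) (k : ℕ) : ℝ :=
  ∑ i ∈ Finset.range k, step δ ε (x i) (x (i + 1))

end Pool.Agent.TSR
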