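import Pool.Agent.TSR.Defs

/-!
# Barycentric gluing (module TSR_Glue)
-/

set_option autoImplicit false

namespace Pool.Agent.TSR

open MeasureTheory Filter Topology

/-- The cut-off functions of the gluing: `glueTau n` lives on `(2 ^ n / 4, 2 ^ n)` (on `[0, 1)` for
`n = 0`). -/
noncomputable def glueTau (n : ℕ) (t : ℝ) : ℝ :=
  max 0 (min (if n = 0 then 1 else 4 * t / 2 ^ n - 1) (2 - 2 * t / 2 ^ n))

theorem glueTau_nonneg (n : ℕ) (t : ℝ) : 0 ≤ glueTau n t := le_max_left _ _

theorem glueTau_le_one (n : ℕ) (t : ℝ) : glueTau n t ≤ 1 := by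
  unfold glueTau
  refine max_le zero_le_one ?_
  split_ifs with h
  · exact min_le_left _ _
  · rcases le_total (2 * t / 2 ^ n) 1 with h1 | h1
    · refine (min_le_left _ _).trans ?_
      have h2 : 4 * t / 2 ^ n = 2 * (2 * t / 2 ^ n) := by ring
      linarith
    · exact (min_le_right _ _).trans (by linarith)

theorem glueTau_lip (n : ℕ) (t s : ℝ) :
    |glueTau n t - glueTau n s| ≤ 4 / 2 ^ n * |t - s| := by
  have hp : (0 : ℝ) < 2 ^ n := by positivity
  have h0 : 0 ≤ 4 / 2 ^ n * |t - s| := by positivity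
  unfold glueTau
  refine (abs_max_sub_max_le_max _ _ _ _).trans (max_le (by simp) ?_)
  refine (abs_min_sub_min_le_max _ _ _ _).trans (max_le ?_ ?_)
  · split_ifs with h
    · rw [sub_self, abs_zero]
      exact h0
    · have h1 : 4 * t / 2 ^ n - 1 - (4 * s / 2 ^ n - 1) = 4 / 2 ^ n * (t - s) := by ring
      rw [h1, abs_mul, abs_of_pos (by positivity : (0 : ℝ) < 4 / 2 ^ n)]
  · have h1 : 2 - 2 * t / 2 ^ n - (2 - 2 * s / 2 ^ n) = -(2 / 2 ^ n * (t - s)) := by ring
    rw [h1, abs_neg, abs_mul, abs_of_pos (by positivity : (0 : ℝ) < 2 / 2 ^ n)]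
    refine mul_le_mul_of_nonneg_right ?_ (abs_nonneg _)
    gcongr
    norm_num

theorem glueTau_ne_zero {n : ℕ} {t : ℝ} (h : glueTau n t ≠ 0) :
    t < 2 ^ n ∧ (n = 0 ∨ 2 ^ n < 4 * t) := by
  have hp : (0 : ℝ) < 2 ^ n := by positivity
  have h1 : 0 < min (if n = 0 then (1 : ℝ) else 4 * t / 2 ^ n - 1) (2 - 2 * t / 2 ^ n) := by
    by_contra hcon
    exact h (max_eq_left (not_lt.1 hcon))
  obtain ⟨h2, h3⟩ := lt_min_iff.1 h1
  refine ⟨?_, ?_⟩
  · have h4 : 2 * t / 2 ^ n < 2 := by linarith
    rw [div_lt_iff₀ hp] at h4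
    linarith
  · by_cases hn : n = 0
    · exact Or.inl hn
    · right
      rw [if_neg hn] at h2
      have h4 : 1 < 4 * t / 2 ^ n := by linarith
      rw [lt_div_iff₀ hp] at h4
      linarith

theorem glueTau_exists (t : ℝ) : ∃ n : ℕ, 1 / 2 ≤ glueTau n t := by
  classical
  have hex : ∃ n : ℕ, t ≤ 3 / 4 * 2 ^ n := by
    obtain ⟨n, hn⟩ := pow_unbounded_of_one_lt (4 / 3 * t) (by norm_num : (1 : ℝ) < 2)
    exact ⟨n, by linarith⟩
  refine ⟨Nat.find hex, ?_⟩
  have h1 : t ≤ 3 / 4 * 2 ^ Nat.find hex := Nat.find_spec hex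
  have hp : (0 : ℝ) < 2 ^ Nat.find hex := by positivity
  have h3 : 2 * t / 2 ^ Nat.find hex ≤ 3 / 2 := by
    rw [div_le_iff₀ hp]
    linarith
  unfold glueTau
  refine le_max_of_le_right (le_min ?_ (by linarith))
  split_ifs with h
  · norm_num
  · have h4 : ¬ t ≤ 3 / 4 * 2 ^ (Nat.find hex - 1) := Nat.find_min hex (by omega)
    have h5 : (2 : ℝ) ^ Nat.find hex = 2 * 2 ^ (Nat.find hex - 1) := by
      rw [← pow_succ']
      congr 1
      omega
    have h6 : 3 / 2 ≤ 4 * t / 2 ^ Nat.find hex := by
      rw [le_div_iff₀ hp, h5]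
      push Not at h4
      linarith
    linarith

/-- For every `t` at most two cut-off functions do not vanish at `t`. -/
theorem glueTau_card (t : ℝ) (s : Finset ℕ) (hs : ∀ n ∈ s, glueTau n t ≠ 0) : s.card ≤ 2 := by
  classical
  rcases s.eq_empty_or_nonempty with h | h
  · simp [h]
  · have hsub : s ⊆ {s.min' h, s.min' h + 1} := by
      intro m hm
      have h1 := glueTau_ne_zero (hs _ (s.min'_mem h))
      have h2 := glueTau_ne_zero (hs m hm)
      have h3 : s.min' h ≤ m := s.min'_le m hm
      have h4 : m < s.min' h + 2 := by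
        rcases h2.2 with h5 | h5
        · omega
        · have h6 : (2 : ℝ) ^ m < 2 ^ (s.min' h + 2) := by
            rw [pow_add]
            linarith [h1.1]
          exact (pow_lt_pow_iff_right₀ (by norm_num : (1 : ℝ) < 2)).1 h6
      simp only [Finset.mem_insert, Finset.mem_singleton]
      omega
    exact (Finset.card_le_card hsub).trans Finset.card_le_two

theorem glue {M Y : Type} [MetricSpace M] [NormedAddCommGroup Y] [NormedSpace ℝ Y] (x₀ : M)
    {α β : ℝ} (hα : 0 < α) (hαβ : α ≤ β) (F : ℕ → M → Y)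
    (hF : ∀ n x y, dist x x₀ ≤ 2 ^ n → dist y x₀ ≤ 2 ^ n →
      α * dist x y ≤ dist (F n x) (F n y) ∧ dist (F n x) (F n y) ≤ β * dist x y) :
    ∃ G : M → ℝ × lp (fun _ : ℕ => Y) 2, ∀ x y,
      (α / 4) * dist x y ≤ dist (G x) (G y) ∧ dist (G x) (G y) ≤ 10 * β * dist x y := by
  classical
  have hβ : 0 < β := hα.trans_le hαβ
  -- the components
  let f : M → ℕ → Y := fun x n => glueTau n (dist x x₀) • (F n x - F n x₀)
  have hf0 : ∀ x n, glueTau n (dist x x₀) = 0 → f x n = 0 := fun x n h => by simp [f, h]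
  have hfin : ∀ x, {n | f x n ≠ 0}.Finite := by
    intro x
    by_contra hcon
    obtain ⟨s, hs, hs3⟩ := Set.Infinite.exists_subset_card_eq hcon 3
    have h1 := glueTau_card (dist x x₀) s (fun n hn h0 => (hs hn) (hf0 x n h0))
    omega
  have hmem : ∀ x, Memℓp (f x) 2 := fun x => (memℓp_zero (hfin x)).of_exponent_ge zero_le
  -- Lipschitz estimates of the difference, one component
  have hball : ∀ n x, dist x x₀ ≤ 2 ^ n → ‖F n x - F n x₀‖ ≤ β * 2 ^ n := by
    intro n x hx
    have h1 := (hF n x x₀ hx (by rw [dist_self]; positivity)).2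
    rw [← dist_eq_norm]
    exact h1.trans (mul_le_mul_of_nonneg_left hx hβ.le)
  have hdd : ∀ x y : M, |dist x x₀ - dist y x₀| ≤ dist x y := fun x y => abs_dist_sub_le x y x₀
  have hcomp1 : ∀ n x y, dist y x₀ ≤ 2 ^ n → ‖f x n - f y n‖ ≤ 5 * β * dist x y := by
    intro n x y hy
    have hp : (0 : ℝ) < 2 ^ n := by positivity
    have hg := hball n y hy
    have hd : 0 ≤ dist x y := dist_nonneg
    have hτ : |glueTau n (dist x x₀) - glueTau n (dist y x₀)| ≤ 4 / 2 ^ n * dist x y :=
      (glueTau_lip n _ _).trans (mul_le_mul_of_nonneg_left (hdd x y) (by positivity))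
    have h2 : |glueTau n (dist x x₀) - glueTau n (dist y x₀)| * ‖F n y - F n x₀‖
        ≤ 4 * β * dist x y := by
      calc |glueTau n (dist x x₀) - glueTau n (dist y x₀)| * ‖F n y - F n x₀‖
          ≤ (4 / 2 ^ n * dist x y) * (β * 2 ^ n) :=
            mul_le_mul hτ hg (norm_nonneg _) (by positivity)
        _ = 4 * β * dist x y := by field_simp
    by_cases hx : dist x x₀ ≤ 2 ^ n
    · have h3 : f x n - f y n = glueTau n (dist x x₀) • (F n x - F n y) +
          (glueTau n (dist x x₀) - glueTau n (dist y x₀)) • (F n y - F n x₀) := by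
        simp only [f, smul_sub, sub_smul]
        abel
      have h4 : ‖glueTau n (dist x x₀) • (F n x - F n y)‖ ≤ β * dist x y := by
        rw [norm_smul, Real.norm_eq_abs, abs_of_nonneg (glueTau_nonneg _ _), ← dist_eq_norm]
        calc glueTau n (dist x x₀) * dist (F n x) (F n y) ≤ 1 * (β * dist x y) :=
              mul_le_mul (glueTau_le_one _ _) (hF n x y hx hy).2 dist_nonneg zero_le_one
          _ = β * dist x y := one_mul _
      rw [h3]
      refine (norm_add_le _ _).trans ?_
      rw [norm_smul (glueTau n (dist x x₀) - glueTau n (dist y x₀)), Real.norm_eq_abs]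
      linarith
    · have h3 : glueTau n (dist x x₀) = 0 := by
        by_contra h
        exact hx (glueTau_ne_zero h).1.le
      rw [hf0 x n h3, zero_sub, norm_neg]
      rw [h3] at h2
      have h4 : ‖f y n‖ = |0 - glueTau n (dist y x₀)| * ‖F n y - F n x₀‖ := by
        simp only [f]
        rw [norm_smul, Real.norm_eq_abs, zero_sub, abs_neg]
      rw [h4]
      have h5 : 0 ≤ β * dist x y := by positivity
      linarith
  have hcomp : ∀ n x y, ‖f x n - f y n‖ ≤ 5 * β * dist x y := by
    intro n x y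
    by_cases hy : dist y x₀ ≤ 2 ^ n
    · exact hcomp1 n x y hy
    · by_cases hx : dist x x₀ ≤ 2 ^ n
      · rw [norm_sub_rev, dist_comm]
        exact hcomp1 n y x hx
      · have h1 : glueTau n (dist x x₀) = 0 := by
          by_contra h
          exact hx (glueTau_ne_zero h).1.le
        have h2 : glueTau n (dist y x₀) = 0 := by
          by_contra h
          exact hy (glueTau_ne_zero h).1.le
        rw [hf0 x n h1, hf0 y n h2]
        simp only [sub_self, norm_zero]
        positivity
  refine ⟨fun x => (4 * β * dist x x₀, ⟨f x, hmem x⟩), fun x y => ⟨?_, ?_⟩⟩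
  · -- lower bound
    have key : ∀ x y, dist y x₀ ≤ dist x x₀ →
        (α / 4) * dist x y ≤ max |4 * β * dist x x₀ - 4 * β * dist y x₀|
          (dist (⟨f x, hmem x⟩ : lp (fun _ : ℕ => Y) 2) ⟨f y, hmem y⟩) := by
      intro x y hxy
      have hd : 0 ≤ dist x y := dist_nonneg
      by_cases h : α / (16 * β) * dist x y ≤ dist x x₀ - dist y x₀
      · refine le_max_of_le_left ?_
        rw [← mul_sub, abs_of_nonneg (mul_nonneg (by positivity) (by linarith))]
        calc α / 4 * dist x y = 4 * β * (α / (16 * β) * dist x y) := by field_simp; ring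
          _ ≤ 4 * β * (dist x x₀ - dist y x₀) := mul_le_mul_of_nonneg_left h (by positivity)
      · refine le_max_of_le_right ?_
        push Not at h
        obtain ⟨n, hn⟩ := glueTau_exists (dist x x₀)
        have hp : (0 : ℝ) < 2 ^ n := by positivity
        have hx : dist x x₀ ≤ 2 ^ n :=
          (glueTau_ne_zero (n := n) (t := dist x x₀) (by linarith [hn] : _ ≠ _)).1.le
        have hy : dist y x₀ ≤ 2 ^ n := hxy.trans hx
        have hg := hball n y hy
        have h3 : f x n - f y n = glueTau n (dist x x₀) • (F n x - F n y) +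
            (glueTau n (dist x x₀) - glueTau n (dist y x₀)) • (F n y - F n x₀) := by
          simp only [f, smul_sub, sub_smul]
          abel
        have h4 : α / 2 * dist x y ≤ ‖glueTau n (dist x x₀) • (F n x - F n y)‖ := by
          rw [norm_smul, Real.norm_eq_abs, abs_of_nonneg (glueTau_nonneg _ _), ← dist_eq_norm]
          calc α / 2 * dist x y = 1 / 2 * (α * dist x y) := by ring
            _ ≤ glueTau n (dist x x₀) * dist (F n x) (F n y) :=
              mul_le_mul hn (hF n x y hx hy).1 (by positivity) (glueTau_nonneg _ _)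
        have h5 : ‖(glueTau n (dist x x₀) - glueTau n (dist y x₀)) • (F n y - F n x₀)‖ ≤
            α / 4 * dist x y := by
          rw [norm_smul, Real.norm_eq_abs]
          have h6 : |glueTau n (dist x x₀) - glueTau n (dist y x₀)| ≤
              4 / 2 ^ n * (α / (16 * β) * dist x y) := by
            refine (glueTau_lip n _ _).trans (mul_le_mul_of_nonneg_left ?_ (by positivity))
            rw [abs_of_nonneg (by linarith)]
            exact h.le
          calc |glueTau n (dist x x₀) - glueTau n (dist y x₀)| * ‖F n y - F n x₀‖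
              ≤ (4 / 2 ^ n * (α / (16 * β) * dist x y)) * (β * 2 ^ n) :=
                mul_le_mul h6 hg (norm_nonneg _) (by positivity)
            _ = α / 4 * dist x y := by field_simp; ring
        have h7 : α / 4 * dist x y ≤ ‖f x n - f y n‖ := by
          rw [h3]
          have h8 := norm_sub_le_norm_add
            (glueTau n (dist x x₀) • (F n x - F n y))
            ((glueTau n (dist x x₀) - glueTau n (dist y x₀)) • (F n y - F n x₀))
          linarith
        rw [dist_eq_norm]
        exact h7.trans (lp.norm_apply_le_norm (by norm_num)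
          ((⟨f x, hmem x⟩ : lp (fun _ : ℕ => Y) 2) - ⟨f y, hmem y⟩) n)
    rw [Prod.dist_eq]
    simp only [Real.dist_eq]
    rcases le_total (dist y x₀) (dist x x₀) with h | h
    · exact key x y h
    · have h1 := key y x h
      rw [dist_comm y x, abs_sub_comm, dist_comm (⟨f y, hmem y⟩ : lp (fun _ : ℕ => Y) 2)] at h1
      exact h1
  · -- upper bound
    have hd : 0 ≤ dist x y := dist_nonneg
    rw [Prod.dist_eq]
    refine max_le ?_ ?_
    · simp only [Real.dist_eq]
      rw [← mul_sub, abs_mul, abs_of_pos (by positivity : (0 : ℝ) < 4 * β)]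
      have h1 := hdd x y
      calc 4 * β * |dist x x₀ - dist y x₀| ≤ 4 * β * dist x y :=
            mul_le_mul_of_nonneg_left h1 (by positivity)
        _ ≤ 10 * β * dist x y := by
            refine mul_le_mul_of_nonneg_right ?_ hd
            linarith
    · simp only
      rw [dist_eq_norm]
      refine lp.norm_le_of_forall_sum_le (by norm_num) (by positivity) fun s => ?_
      have e2 : (2 : ENNReal).toReal = ((2 : ℕ) : ℝ) := by norm_num
      rw [e2, Real.rpow_natCast]
      simp only [Real.rpow_natCast]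
      have h1 : ∀ i, ‖((⟨f x, hmem x⟩ : lp (fun _ : ℕ => Y) 2) - ⟨f y, hmem y⟩ :
          lp (fun _ : ℕ => Y) 2) i‖ = ‖f x i - f y i‖ := fun i => rfl
      simp only [h1]
      set A := s.filter fun n => glueTau n (dist x x₀) ≠ 0 with hA
      set B := s.filter fun n => glueTau n (dist y x₀) ≠ 0 with hB
      have hcA : A.card ≤ 2 := glueTau_card _ _ fun n hn => (Finset.mem_filter.1 hn).2
      have hcB : B.card ≤ 2 := glueTau_card _ _ fun n hn => (Finset.mem_filter.1 hn).2
      have hsub : A ∪ B ⊆ s :=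
        Finset.union_subset (Finset.filter_subset _ _) (Finset.filter_subset _ _)
      have h2 : ∑ i ∈ s, ‖f x i - f y i‖ ^ 2 = ∑ i ∈ A ∪ B, ‖f x i - f y i‖ ^ 2 := by
        refine (Finset.sum_subset hsub fun i hi hni => ?_).symm
        have h3 : glueTau i (dist x x₀) = 0 := by
          by_contra h
          exact hni (Finset.mem_union_left _ (Finset.mem_filter.2 ⟨hi, h⟩))
        have h4 : glueTau i (dist y x₀) = 0 := by
          by_contra h
          exact hni (Finset.mem_union_right _ (Finset.mem_filter.2 ⟨hi, h⟩))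
        rw [hf0 x i h3, hf0 y i h4]
        simp
      have hcard : ((A ∪ B).card : ℝ) ≤ 4 := by
        have h5 := Finset.card_union_le A B
        have h6 : (A ∪ B).card ≤ 4 := by omega
        exact_mod_cast h6
      rw [h2]
      calc ∑ i ∈ A ∪ B, ‖f x i - f y i‖ ^ 2 ≤ ∑ i ∈ A ∪ B, (5 * β * dist x y) ^ 2 :=
            Finset.sum_le_sum fun i _ => pow_le_pow_left₀ (norm_nonneg _) (hcomp i x y) 2
        _ = (A ∪ B).card * (5 * β * dist x y) ^ 2 := by rw [Finset.sum_const, nsmul_eq_mul]
        _ ≤ 4 * (5 * β * dist x y) ^ 2 := mul_le_mul_of_nonneg_right hcard (by positivity)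
        _ = (10 * β * dist x y) ^ 2 := by ring

end Pool.Agent.TSR
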