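import Pool.Agent.TSR.Rect

/-!
# In a purely 1-unrectifiable space the gap distance is the distance (module TSR_Pu)

PROOF of `frag_of_pu`. Given `L, K, γ`. `φ t := dist x (γ t)`: 1-Lipschitz on `K`, `φ 0 = 0`,
`φ L = dist x y`. If `volume (φ '' K) ≠ 0`, `exists_bilip_piece` gives a compact `K' ⊆ K`,
`volume K' ≠ 0`, `c * dist s t ≤ dist (φ s) (φ t) ≤ dist (γ s) (γ t) ≤ dist s t` on `K'`,
contradicting `hM`. So `volume (φ '' K) = 0`. Extend `φ|K` to a 1-Lipschitz `ψ : ℝ → ℝ`
(`LipschitzOnWith.extend_real`). By the intermediate value theorem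
`Icc 0 (dist x y) ⊆ ψ '' Icc 0 L ⊆ φ '' K ∪ ψ '' (Icc 0 L \ K)`, and 1-Lipschitz maps do not increase
Lebesgue (outer) measure (`LipschitzOnWith.hausdorffMeasure_image_le` with
`MeasureTheory.hausdorffMeasure_real`), so
`ofReal (dist x y) ≤ 0 + volume (Icc 0 L \ K) ≤ ofReal r`.

`gap` facts: `{r | 0 ≤ r ∧ Frag x y r}` contains `dist x y` (`L = dist x y`, `K = {0, L}`,
`γ t = if t ≤ 0 then x else y`; careful if `x = y`) and is bounded below by 0.
-/

set_option autoImplicit false

namespace Pool.Agent.TSR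

open MeasureTheory Filter Topology

theorem frag_of_pu {M : Type} [MetricSpace M] (hM : PurelyUnrectifiable M) {x y : M} {r : ℝ}
    (hr : 0 ≤ r) (h : Frag x y r) : dist x y ≤ r := by
  obtain ⟨L, K, γ, hL, hK, hKL, h0, hLK, hγ0, hγL, hγ, hvol⟩ := h
  have hφ : ∀ s ∈ K, ∀ t ∈ K, dist (dist x (γ s)) (dist x (γ t)) ≤ dist s t := by
    intro s hs t ht
    refine le_trans ?_ (hγ s hs t ht)
    rw [Real.dist_eq]
    have := abs_dist_sub_le (γ s) (γ t) x
    rwa [dist_comm (γ s) x, dist_comm (γ t) x] at this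
  have hnull : volume ((fun t => dist x (γ t)) '' K) = 0 := by
    by_contra hne
    obtain ⟨K', hK'K, hK'c, hK'v, c, hc, hbil⟩ :=
      exists_bilip_piece (fun t => dist x (γ t)) K hK hφ hne
    apply hK'v
    refine hM K' γ c 1 hK'c hc ?_
    intro s hs t ht
    refine ⟨le_trans (hbil s hs t ht) ?_, ?_⟩
    · rw [Real.dist_eq]
      have := abs_dist_sub_le (γ s) (γ t) x
      rwa [dist_comm (γ s) x, dist_comm (γ t) x] at this
    · rw [one_mul]
      exact hγ s (hK'K hs) t (hK'K ht)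
  have hLip : LipschitzOnWith 1 (fun t => dist x (γ t)) K := by
    refine LipschitzOnWith.of_dist_le_mul ?_
    intro s hs t ht
    simpa using hφ s hs t ht
  obtain ⟨ψ, hψ, hEq⟩ := hLip.extend_real
  have hψ0 : ψ 0 = 0 := by
    rw [← hEq h0]
    simp [hγ0]
  have hψL : ψ L = dist x y := by
    rw [← hEq hLK]
    simp [hγL]
  have hivt : Set.Icc (ψ 0) (ψ L) ⊆ ψ '' Set.Icc 0 L :=
    intermediate_value_Icc hL hψ.continuous.continuousOn
  have hsub : Set.Icc 0 (dist x y) ⊆
      ((fun t => dist x (γ t)) '' K) ∪ ψ '' (Set.Icc 0 L \ K) := by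
    intro z hz
    rw [hψ0, hψL] at hivt
    obtain ⟨t, ht, rfl⟩ := hivt hz
    by_cases htK : t ∈ K
    · left
      exact ⟨t, htK, hEq htK⟩
    · right
      exact ⟨t, ⟨ht, htK⟩, rfl⟩
  have himg : volume (ψ '' (Set.Icc 0 L \ K)) ≤ volume (Set.Icc 0 L \ K) := by
    have h1 := (hψ.lipschitzOnWith (s := Set.Icc 0 L \ K)).hausdorffMeasure_image_le
      (d := 1) zero_le_one
    rw [MeasureTheory.hausdorffMeasure_real] at h1
    simpa using h1
  have hfin : ENNReal.ofReal (dist x y) ≤ ENNReal.ofReal r := by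
    calc ENNReal.ofReal (dist x y) = volume (Set.Icc 0 (dist x y)) := by
          rw [Real.volume_Icc, sub_zero]
      _ ≤ volume (((fun t => dist x (γ t)) '' K) ∪ ψ '' (Set.Icc 0 L \ K)) :=
          measure_mono hsub
      _ ≤ volume ((fun t => dist x (γ t)) '' K) + volume (ψ '' (Set.Icc 0 L \ K)) :=
          measure_union_le _ _
      _ ≤ 0 + volume (Set.Icc 0 L \ K) := by
          rw [hnull]
          gcongr
      _ ≤ ENNReal.ofReal r := by rw [zero_add]; exact hvol
  exact (ENNReal.ofReal_le_ofReal_iff hr).1 hfin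

theorem frag_dist {M : Type} [MetricSpace M] (x y : M) : Frag x y (dist x y) := by
  classical
  refine ⟨dist x y, {0, dist x y}, fun t => if t ≤ 0 then x else y, dist_nonneg, ?_, ?_, ?_, ?_,
    ?_, ?_, ?_, ?_⟩
  · exact (Set.toFinite _).isCompact
  · rintro t ht
    rcases ht with rfl | rfl
    · exact ⟨le_refl _, dist_nonneg⟩
    · exact ⟨dist_nonneg, le_refl _⟩
  · simp
  · simp
  · simp
  · show (if dist x y ≤ 0 then x else y) = y
    split_ifs with h
    · exact dist_le_zero.1 h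
    · rfl
  · have hL : (if dist x y ≤ 0 then x else y) = y := by
      split_ifs with h
      · exact dist_le_zero.1 h
      · rfl
    have h0 : (if (0 : ℝ) ≤ 0 then x else y) = x := by simp
    rintro s hs t ht
    rcases hs with rfl | rfl <;> rcases ht with rfl | rfl
    · simp
    · show dist (if (0 : ℝ) ≤ 0 then x else y) (if dist x y ≤ 0 then x else y) ≤ _
      rw [hL, h0, Real.dist_eq, zero_sub, abs_neg, abs_of_nonneg dist_nonneg]
    · show dist (if dist x y ≤ 0 then x else y) (if (0 : ℝ) ≤ 0 then x else y) ≤ _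
      rw [hL, h0, Real.dist_eq, sub_zero, abs_of_nonneg dist_nonneg, dist_comm]
    · simp
  · calc volume (Set.Icc 0 (dist x y) \ {0, dist x y}) ≤ volume (Set.Icc 0 (dist x y)) :=
          measure_mono Set.sdiff_subset
      _ = ENNReal.ofReal (dist x y) := by rw [Real.volume_Icc, sub_zero]

theorem bddBelow_frag {M : Type} [MetricSpace M] (x y : M) :
    BddBelow {r : ℝ | 0 ≤ r ∧ Frag x y r} := ⟨0, fun _ hr => hr.1⟩

theorem gap_le_dist {M : Type} [MetricSpace M] (x y : M) : gap x y ≤ dist x y :=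
  csInf_le (bddBelow_frag x y) ⟨dist_nonneg, frag_dist x y⟩

theorem gap_of_pu {M : Type} [MetricSpace M] (hM : PurelyUnrectifiable M) (x y : M) :
    gap x y = dist x y := by
  refine le_antisymm (gap_le_dist x y) ?_
  exact le_csInf ⟨dist x y, dist_nonneg, frag_dist x y⟩ (fun r hr => frag_of_pu hM hr.1 hr.2)

/-- a lower bound for the gap distance, in terms of fragments -/
theorem le_of_gap {M : Type} [MetricSpace M] {x y : M} {s : ℝ} (h : s ≤ gap x y) :
    ∀ r : ℝ, 0 ≤ r → Frag x y r → s ≤ r := by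
  intro r hr hf
  exact h.trans (csInf_le (bddBelow_frag x y) ⟨hr, hf⟩)

/-- fragments in a subspace are fragments -/
theorem Frag.of_subtype {M : Type} [MetricSpace M] {S : Set M} {x y : S} {r : ℝ}
    (h : Frag x y r) : Frag (x : M) (y : M) r := by
  obtain ⟨L, K, γ, hL, hK, hKL, h0, hLK, hγ0, hγL, hγ, hvol⟩ := h
  refine ⟨L, K, fun t => (γ t : M), hL, hK, hKL, h0, hLK, ?_, ?_, ?_, hvol⟩
  · simp [hγ0]
  · simp [hγL]
  · intro s hs t ht
    exact hγ s hs t ht

theorem PurelyUnrectifiable.subtype {M : Type} [MetricSpace M] (hM : PurelyUnrectifiable M)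
    (S : Set M) : PurelyUnrectifiable S := by
  intro K γ c C hK hc h
  exact hM K (fun t => (γ t : M)) c C hK hc (fun s hs t ht => h s hs t ht)

end Pool.Agent.TSR
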