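import Pool.Agent.TSR.Defs

/-!
# Reflexivity of l2-sums (module TSR_Refl)

PROOF of `reflexive_lp`. Let `T ∈ (lp E 2)**`. For `i` let `e i ∈ E i` represent
`φ ↦ T (φ ∘ (evaluation at i))` (reflexivity of `E i`; evaluation `lp E 2 →L E i` has norm `≤ 1`).
(a) `∑ i ∈ s, ‖e i‖^2 ≤ ‖T‖^2` for every finite `s`: choose `φ i ∈ (E i)*`, `‖φ i‖ ≤ 1`,
`φ i (e i) = ‖e i‖` (`exists_dual_vector''`), `φ = ∑ i ∈ s, ‖e i‖ • (φ i ∘ ev i)` has norm
`≤ (∑ ‖e i‖^2)^(1/2)` by Cauchy-Schwarz and `T φ = ∑ ‖e i‖^2`. So `e ∈ lp E 2`.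
(b) `T φ = φ e` for `φ = φ i ∘ ev i`, hence for finite sums of those.
(c) For general `φ`, with `P s` the projection onto the coordinates of the finite set `s`:
`‖φ - φ ∘ P s‖ → 0` along `atTop`. Otherwise (the norms decrease in `s`) there are `η > 0` and
finitely supported unit vectors `x 1, x 2, ...` with disjoint supports and `φ (x k) ≥ η`; then
`φ (∑ k ≤ K, x k) ≥ K η` but `‖∑ k ≤ K, x k‖ = K^(1/2)`. (Or: `‖φ ∘ P s‖^2 + ‖φ ∘ (1 - P s)‖^2 ≤ ‖φ‖^2`
and the same for disjoint finite sets.)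
(d) `T φ = lim T (φ ∘ P s) = lim φ (P s e) = φ e`.

`separable_lp`: the finitely supported vectors with coordinates in countable dense subsets.
(`lp.hasSum_single` gives density of the finitely supported vectors.)
-/

set_option autoImplicit false

namespace Pool.Agent.TSR

open MeasureTheory Filter Topology

namespace ReflAux

variable {E : ℕ → Type} [∀ i, NormedAddCommGroup (E i)] [∀ i, NormedSpace ℝ (E i)]

omit [∀ i, NormedSpace ℝ (E i)] in
theorem sum_sq_le (x : lp E 2) (s : Finset ℕ) : ∑ i ∈ s, ‖x i‖ ^ 2 ≤ ‖x‖ ^ 2 := by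
  have h := lp.sum_rpow_le_norm_rpow (p := 2) (by simp) x s
  simpa using h

omit [∀ i, NormedSpace ℝ (E i)] in
theorem norm_sum_single_sq (f : ∀ i, E i) (s : Finset ℕ) :
    ‖∑ i ∈ s, lp.single 2 i (f i)‖ ^ 2 = ∑ i ∈ s, ‖f i‖ ^ 2 := by
  have h := lp.norm_sum_single (p := 2) (by simp) f s
  simpa using h

theorem summable_dual (φ : StrongDual ℝ (lp E 2)) :
    Summable fun i => ‖φ.comp (lp.singleContinuousLinearMap ℝ E 2 i)‖ ^ 2 := by
  set b : ℕ → ℝ := fun i => ‖φ.comp (lp.singleContinuousLinearMap ℝ E 2 i)‖ with hb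
  have hb0 : ∀ i, 0 ≤ b i := fun i => norm_nonneg _
  have hu : ∀ i, ∃ u : E i, ‖u‖ ≤ 1 ∧ b i / 2 ≤ φ (lp.single 2 i u) := by
    intro i
    rcases eq_or_lt_of_le (hb0 i) with h0 | h0
    · exact ⟨0, by simp, by simp [← h0]⟩
    · obtain ⟨u, hu1, hu2⟩ :=
        (φ.comp (lp.singleContinuousLinearMap ℝ E 2 i)).exists_lt_apply_of_lt_opNorm
          (show b i / 2 < b i by linarith)
      have hu3 : b i / 2 < |φ (lp.single 2 i u)| := by
        simpa using hu2
      rcases le_total 0 (φ (lp.single 2 i u)) with h | h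
      · rw [abs_of_nonneg h] at hu3
        exact ⟨u, hu1.le, hu3.le⟩
      · rw [abs_of_nonpos h] at hu3
        refine ⟨-u, by simpa using hu1.le, ?_⟩
        rw [lp.single_neg, map_neg]
        exact hu3.le
  choose u hu1 hu2 using hu
  refine summable_of_sum_le (c := 4 * ‖φ‖ ^ 2) (fun i => by positivity) ?_
  intro s
  set S := ∑ i ∈ s, b i ^ 2 with hS
  have hS0 : 0 ≤ S := Finset.sum_nonneg fun i _ => by positivity
  have h1 : S / 2 ≤ φ (∑ i ∈ s, lp.single 2 i (b i • u i)) := by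
    rw [map_sum, hS, Finset.sum_div]
    refine Finset.sum_le_sum fun i _ => ?_
    rw [lp.single_smul, map_smul, smul_eq_mul]
    have := mul_le_mul_of_nonneg_left (hu2 i) (hb0 i)
    nlinarith
  have h2 : φ (∑ i ∈ s, lp.single 2 i (b i • u i)) ≤
      ‖φ‖ * ‖∑ i ∈ s, lp.single 2 i (b i • u i)‖ := (le_abs_self _).trans (φ.le_opNorm _)
  have h3 : ‖∑ i ∈ s, lp.single 2 i (b i • u i)‖ ^ 2 ≤ S := by
    rw [norm_sum_single_sq]
    refine Finset.sum_le_sum fun i _ => ?_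
    rw [norm_smul, Real.norm_of_nonneg (hb0 i)]
    have : b i * ‖u i‖ ≤ b i := by
      have := mul_le_mul_of_nonneg_left (hu1 i) (hb0 i)
      simpa using this
    have h0 : 0 ≤ b i * ‖u i‖ := mul_nonneg (hb0 i) (norm_nonneg _)
    exact pow_le_pow_left₀ h0 this 2
  set N := ‖∑ i ∈ s, lp.single 2 i (b i • u i)‖ with hN
  have hN0 : 0 ≤ N := norm_nonneg _
  have hφ0 : 0 ≤ ‖φ‖ := norm_nonneg _
  by_contra hcon
  push Not at hcon
  have h4 : S / 2 ≤ ‖φ‖ * N := h1.trans h2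
  have h5 : (S / 2) ^ 2 ≤ (‖φ‖ * N) ^ 2 := pow_le_pow_left₀ (by positivity) h4 2
  have h6 : (‖φ‖ * N) ^ 2 ≤ ‖φ‖ ^ 2 * S := by
    rw [mul_pow]
    exact mul_le_mul_of_nonneg_left h3 (by positivity)
  have hSpos : 0 < S := lt_of_le_of_lt (by positivity) hcon
  nlinarith

omit [∀ i, NormedSpace ℝ (E i)] in
theorem abs_sum_le (b : ℕ → ℝ) (x : lp E 2) (s : Finset ℕ) :
    ∑ i ∈ s, b i * ‖x i‖ ≤ √(∑ i ∈ s, b i ^ 2) * ‖x‖ := by
  refine (Real.sum_mul_le_sqrt_mul_sqrt s b fun i => ‖x i‖).trans ?_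
  refine mul_le_mul_of_nonneg_left ?_ (Real.sqrt_nonneg _)
  rw [Real.sqrt_le_left (norm_nonneg _)]
  exact sum_sq_le x s

/-- The restriction of `φ` to the coordinates of `s`. -/
noncomputable def cut (φ : StrongDual ℝ (lp E 2)) (s : Finset ℕ) : StrongDual ℝ (lp E 2) :=
  ∑ i ∈ s, (φ.comp (lp.singleContinuousLinearMap ℝ E 2 i)).comp (lp.evalCLM ℝ E 2 i)

theorem cut_apply (φ : StrongDual ℝ (lp E 2)) (s : Finset ℕ) (x : lp E 2) :
    cut φ s x = ∑ i ∈ s, φ (lp.single 2 i (x i)) := by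
  unfold cut
  rw [_root_.sum_apply]
  rfl

theorem tendsto_cut (φ : StrongDual ℝ (lp E 2)) : Tendsto (cut φ) atTop (𝓝 φ) := by
  rw [Metric.tendsto_atTop]
  intro ε hε
  obtain ⟨s0, hs0⟩ := summable_iff_vanishing_norm.1 (summable_dual φ) ((ε / 2) ^ 2)
    (by positivity)
  refine ⟨s0, fun s hs => ?_⟩
  rw [dist_eq_norm]
  refine lt_of_le_of_lt (b := ε / 2) ?_ (by linarith)
  refine ContinuousLinearMap.opNorm_le_bound _ (by positivity) fun x => ?_
  have hlim : Tendsto (fun t : Finset ℕ => cut φ t x) atTop (𝓝 (φ x)) := by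
    have := (lp.hasSum_single (p := 2) (by simp) x).mapL φ
    refine this.congr fun t => ?_
    rw [cut_apply]
  have hlim2 : Tendsto (fun t : Finset ℕ => ‖cut φ s x - cut φ t x‖) atTop
      (𝓝 ‖cut φ s x - φ x‖) := (tendsto_const_nhds.sub hlim).norm
  rw [_root_.sub_apply]
  refine le_of_tendsto hlim2 ?_
  filter_upwards [eventually_ge_atTop s] with t ht
  have hst : cut φ s x - cut φ t x = - ∑ i ∈ t \ s, φ (lp.single 2 i (x i)) := by
    rw [cut_apply, cut_apply, ← Finset.sum_sdiff ht]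
    ring
  rw [hst, norm_neg]
  have h1 : ‖∑ i ∈ t \ s, φ (lp.single 2 i (x i))‖ ≤
      ∑ i ∈ t \ s, ‖φ.comp (lp.singleContinuousLinearMap ℝ E 2 i)‖ * ‖x i‖ := by
    refine (norm_sum_le _ _).trans (Finset.sum_le_sum fun i _ => ?_)
    exact (φ.comp (lp.singleContinuousLinearMap ℝ E 2 i)).le_opNorm (x i)
  refine h1.trans ((abs_sum_le _ x _).trans ?_)
  refine mul_le_mul_of_nonneg_right ?_ (norm_nonneg _)
  rw [Real.sqrt_le_left (by positivity)]
  have hd : Disjoint (t \ s) s0 :=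
    Finset.disjoint_of_subset_right hs Finset.sdiff_disjoint
  have := hs0 _ hd
  rw [Real.norm_eq_abs] at this
  exact (le_abs_self _).trans this.le

end ReflAux

open ReflAux in
theorem reflexive_lp (E : ℕ → Type) [∀ i, NormedAddCommGroup (E i)] [∀ i, NormedSpace ℝ (E i)]
    [∀ i, CompleteSpace (E i)] (h : ∀ i, IsReflexive (E i)) : IsReflexive (lp E 2) := by
  intro T
  have h1 : ∀ i, ∃ e : E i, ∀ φ : StrongDual ℝ (E i), φ e = T (φ.comp (lp.evalCLM ℝ E 2 i)) := by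
    intro i
    obtain ⟨e, he⟩ := h i (T.comp (ContinuousLinearMap.precomp ℝ (lp.evalCLM ℝ E 2 i)))
    refine ⟨e, fun φ => ?_⟩
    have := DFunLike.congr_fun he φ
    rw [NormedSpace.dual_def] at this
    exact this
  choose e he using h1
  have hmem : Memℓp e 2 := by
    refine memℓp_gen' (C := ‖T‖ ^ 2) ?_
    intro s
    have hφ : ∀ i, ∃ g : StrongDual ℝ (E i), ‖g‖ ≤ 1 ∧ g (e i) = ‖e i‖ :=
      fun i => exists_dual_vector'' ℝ (e i)
    choose g hg1 hg2 using hφ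
    have hgoal : ∑ i ∈ s, ‖e i‖ ^ 2 ≤ ‖T‖ ^ 2 := by
      set S := ∑ i ∈ s, ‖e i‖ ^ 2 with hS
      have hS0 : 0 ≤ S := Finset.sum_nonneg fun i _ => by positivity
      set ψ : StrongDual ℝ (lp E 2) := ∑ i ∈ s, (‖e i‖ • g i).comp (lp.evalCLM ℝ E 2 i) with hψd
      have hψ : ‖ψ‖ ≤ √S := by
        refine ContinuousLinearMap.opNorm_le_bound _ (Real.sqrt_nonneg _) fun x => ?_
        refine le_trans ?_ (abs_sum_le (fun i => ‖e i‖) x s)
        rw [hψd, _root_.sum_apply]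
        refine (norm_sum_le _ _).trans (Finset.sum_le_sum fun i _ => ?_)
        change ‖‖e i‖ • (g i (x i))‖ ≤ _
        rw [norm_smul, norm_norm]
        refine mul_le_mul_of_nonneg_left ?_ (norm_nonneg _)
        refine ((g i).le_opNorm (x i)).trans ?_
        have := mul_le_mul_of_nonneg_right (hg1 i) (norm_nonneg (x i))
        simpa using this
      have hTψ : T ψ = S := by
        rw [hψd, map_sum, hS]
        refine Finset.sum_congr rfl fun i _ => ?_
        rw [← he i (‖e i‖ • g i)]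
        change ‖e i‖ • (g i (e i)) = _
        rw [hg2 i, smul_eq_mul, sq]
      have h2 : S ≤ ‖T‖ * √S := by
        have h3 := (le_abs_self (T ψ)).trans (T.le_opNorm ψ)
        rw [hTψ] at h3
        exact h3.trans (mul_le_mul_of_nonneg_left hψ (norm_nonneg _))
      have h4 : √S * √S = S := Real.mul_self_sqrt hS0
      by_contra hcon
      push Not at hcon
      have hT0 : 0 ≤ ‖T‖ := T.opNorm_nonneg
      have h5 : ‖T‖ < √S := Real.lt_sqrt_of_sq_lt hcon
      nlinarith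
    simpa using hgoal
  refine ⟨⟨e, hmem⟩, ?_⟩
  ext φ
  rw [NormedSpace.dual_def]
  have hlim1 : Tendsto (fun s : Finset ℕ => ∑ i ∈ s, φ (lp.single 2 i (e i))) atTop
      (𝓝 (φ ⟨e, hmem⟩)) :=
    (lp.hasSum_single (p := 2) (by simp) (⟨e, hmem⟩ : lp E 2)).mapL φ
  have hlim2 : Tendsto (fun s : Finset ℕ => T (cut φ s)) atTop (𝓝 (T φ)) :=
    (T.continuous.tendsto φ).comp (tendsto_cut φ)
  have hcongr : (fun s : Finset ℕ => T (cut φ s)) =
      fun s : Finset ℕ => ∑ i ∈ s, φ (lp.single 2 i (e i)) := by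
    funext s
    unfold cut
    rw [map_sum]
    refine Finset.sum_congr rfl fun i _ => ?_
    rw [← he i (φ.comp (lp.singleContinuousLinearMap ℝ E 2 i))]
    rfl
  rw [hcongr] at hlim2
  exact tendsto_nhds_unique hlim1 hlim2

end Pool.Agent.TSR
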