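import Pool.Agent.TSR.Defs

/-!
# Separability and small reflexive spaces (module TSR_Sep)

`separable_lp`: the finitely supported vectors with coordinates in countable dense subsets are
countable and dense (`lp.hasSum_single` / `lp.single`).
`reflexive_prod`: for `T ∈ (X × Y)**` let `x` represent `φ ↦ T (φ ∘ fst)` and `y` represent
`ψ ↦ T (ψ ∘ snd)`; every functional on `X × Y` is `φ ∘ fst + ψ ∘ snd` with `φ = χ ∘ inl`, `ψ = χ ∘ inr`.
`reflexive_of_finiteDimensional`: the inclusion into the bidual is an injective linear map between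
finite dimensional spaces of the same dimension (for `Fin n → ℝ` one can also argue directly with
the coordinate functionals).
-/

set_option autoImplicit false

namespace Pool.Agent.TSR

open MeasureTheory Filter Topology

theorem separable_lp (E : ℕ → Type) [∀ i, NormedAddCommGroup (E i)] [∀ i, NormedSpace ℝ (E i)]
    [∀ i, TopologicalSpace.SeparableSpace (E i)] :
    TopologicalSpace.SeparableSpace (lp E 2) := by
  classical
  have h1 : TopologicalSpace.IsSeparable (⋃ i : ℕ, Set.range (lp.single (E := E) 2 i)) :=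
    TopologicalSpace.IsSeparable.iUnion fun i =>
      TopologicalSpace.isSeparable_range (lp.isometry_single (E := E) (p := 2) i).continuous
  have h2 : TopologicalSpace.IsSeparable
      (closure (Submodule.span ℝ (⋃ i : ℕ, Set.range (lp.single (E := E) 2 i)) : Set (lp E 2))) :=
    (h1.span (R := ℝ)).closure
  rw [← TopologicalSpace.isSeparable_univ_iff]
  refine h2.mono fun f _ => ?_
  have h3 := lp.hasSum_single (p := 2) (by norm_num) f
  refine mem_closure_of_tendsto h3 (Filter.Eventually.of_forall fun s => ?_)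
  refine Submodule.sum_mem _ fun i _ => Submodule.subset_span ?_
  exact Set.mem_iUnion.2 ⟨i, _, rfl⟩

theorem reflexive_prod (X Y : Type) [NormedAddCommGroup X] [NormedSpace ℝ X]
    [NormedAddCommGroup Y] [NormedSpace ℝ Y] (hX : IsReflexive X) (hY : IsReflexive Y) :
    IsReflexive (X × Y) := by
  intro T
  obtain ⟨x, hx⟩ := hX (T.comp ((ContinuousLinearMap.compL ℝ (X × Y) X ℝ).flip (ContinuousLinearMap.fst ℝ X Y)))
  obtain ⟨y, hy⟩ := hY (T.comp ((ContinuousLinearMap.compL ℝ (X × Y) Y ℝ).flip (ContinuousLinearMap.snd ℝ X Y)))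
  refine ⟨(x, y), ContinuousLinearMap.ext fun χ => ?_⟩
  have h1 : χ = (χ.comp (ContinuousLinearMap.inl ℝ X Y)).comp (ContinuousLinearMap.fst ℝ X Y) +
      (χ.comp (ContinuousLinearMap.inr ℝ X Y)).comp (ContinuousLinearMap.snd ℝ X Y) := by
    refine ContinuousLinearMap.ext fun z => ?_
    show χ z = χ (z.1, 0) + χ (0, z.2)
    rw [← map_add]
    congr 1
    ext <;> simp
  have h2 : χ (x, 0) = T ((χ.comp (ContinuousLinearMap.inl ℝ X Y)).comp (ContinuousLinearMap.fst ℝ X Y)) :=
    congrArg (fun F => F (χ.comp (ContinuousLinearMap.inl ℝ X Y))) hx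
  have h3 : χ (0, y) = T ((χ.comp (ContinuousLinearMap.inr ℝ X Y)).comp (ContinuousLinearMap.snd ℝ X Y)) :=
    congrArg (fun F => F (χ.comp (ContinuousLinearMap.inr ℝ X Y))) hy
  have h4 : T χ = T ((χ.comp (ContinuousLinearMap.inl ℝ X Y)).comp (ContinuousLinearMap.fst ℝ X Y)) +
      T ((χ.comp (ContinuousLinearMap.inr ℝ X Y)).comp (ContinuousLinearMap.snd ℝ X Y)) := by
    rw [← map_add, ← h1]
  have h5 : χ (x, y) = χ (x, 0) + χ (0, y) := by
    rw [← map_add]
    congr 1
    ext <;> simp
  show χ (x, y) = T χ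
  rw [h5, h4, h2, h3]

theorem reflexive_of_finiteDimensional (X : Type) [NormedAddCommGroup X] [NormedSpace ℝ X]
    [FiniteDimensional ℝ X] : IsReflexive X := by
  have hdual : ∀ (Y : Type) [NormedAddCommGroup Y] [NormedSpace ℝ Y] [FiniteDimensional ℝ Y],
      FiniteDimensional ℝ (StrongDual ℝ Y) ∧ Module.finrank ℝ (StrongDual ℝ Y) = Module.finrank ℝ Y := by
    intro Y _ _ _
    have e : (Y →ₗ[ℝ] ℝ) ≃ₗ[ℝ] (StrongDual ℝ Y) := LinearMap.toContinuousLinearMap
    refine ⟨Module.Finite.equiv e, ?_⟩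
    rw [← e.finrank_eq]
    exact Subspace.dual_finrank_eq
  obtain ⟨h1, h2⟩ := hdual X
  have e : (StrongDual ℝ X →ₗ[ℝ] ℝ) ≃ₗ[ℝ] (StrongDual ℝ (StrongDual ℝ X)) := LinearMap.toContinuousLinearMap
  have h3 : Module.finrank ℝ (StrongDual ℝ (StrongDual ℝ X)) = Module.finrank ℝ X := by
    rw [← e.finrank_eq, ← h2]
    exact Subspace.dual_finrank_eq
  have h4 : FiniteDimensional ℝ (StrongDual ℝ (StrongDual ℝ X)) := Module.Finite.equiv e
  have hinj : Function.Injective ((NormedSpace.inclusionInDoubleDual ℝ X) : X →ₗ[ℝ] StrongDual ℝ (StrongDual ℝ X)) :=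
    (NormedSpace.inclusionInDoubleDualLi ℝ (E := X)).injective
  exact (LinearMap.injective_iff_surjective_of_finrank_eq_finrank h3.symm).1 hinj

end Pool.Agent.TSR
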