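import Pool.Agent.TSR.Tree

/-!
# 0-hyperbolic compact spaces satisfy the hypothesis of `scales` (module TSR_TreeH)

PROOF. `f` from `tree_coords`, `u x := (f x i - f x₀ i)_i ∈ lp (fun _ : ℕ => ℝ) 2`
(`∑ |f x i - f x₀ i|^2 ≤ (∑ |f x i - f x₀ i|)^2 = dist x x₀ ^ 2`; if `M` is empty all is trivial), so
`dist (u x) (u y) = (∑ |f x i - f y i|^2)^(1/2) ≤ ∑ |f x i - f y i| = dist x y`. Given `l` take `a` from
`tree_coords`. If `∑ i < l, |f x i - f y i| ≥ (1/2) * dist x y`, at most two terms are nonzero, so one is
`≥ (1/4) * dist x y` and `dist (u x) (u y) ≥ (1/4) * dist x y` (`lp.norm_apply_le_norm`). Otherwise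
`∑ i ≥ l ... > (1/2) * dist x y`, so a finite partial sum over `Ico l n` is `≥ (1/4) * dist x y`.
-/

set_option autoImplicit false

namespace Pool.Agent.TSR

open MeasureTheory Filter Topology Finset

theorem tree_hyp {M : Type} [MetricSpace M] [CompactSpace M] (h4 : FourPoint M) :
    ∃ (u : M → lp (fun _ : ℕ => ℝ) 2) (f : M → ℕ → ℝ),
      (∀ x y, dist (u x) (u y) ≤ dist x y) ∧
      (∀ x y n, ∑ i ∈ range n, |f x i - f y i| ≤ dist x y) ∧
      (∀ l : ℕ, ∃ A : ℝ, 0 < A ∧ ∀ x y : M, dist x y ≤ A →
        (1 / 4) * dist x y ≤ dist (u x) (u y) ∨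
        (∃ n, (1 / 4) * dist x y ≤ ∑ i ∈ Ico l n, |f x i - f y i|)) := by
  obtain ⟨f, hpart, hsum, htwo⟩ := tree_coords h4
  rcases isEmpty_or_nonempty M with hM | hM
  · refine ⟨fun _ => 0, f, fun x => isEmptyElim x, hpart, fun l => ⟨1, one_pos, fun x => isEmptyElim x⟩⟩
  · obtain ⟨x₀⟩ := hM
    have hmem : ∀ x : M, Memℓp (fun i => f x i - f x₀ i) 2 := by
      intro x
      have h1 : Memℓp (fun i => f x i - f x₀ i) 1 := by
        apply memℓp_gen
        simpa using (hsum x x₀).summable
      exact h1.of_exponent_ge one_le_two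
    let u : M → lp (fun _ : ℕ => ℝ) 2 := fun x => ⟨fun i => f x i - f x₀ i, hmem x⟩
    have hu : ∀ x y i, (u x - u y) i = f x i - f y i := by
      intro x y i
      have h1 : (u x - u y) i = (u x) i - (u y) i := rfl
      have h2 : (u x) i = f x i - f x₀ i := rfl
      have h3 : (u y) i = f y i - f x₀ i := rfl
      rw [h1, h2, h3]
      ring
    refine ⟨u, f, ?_, hpart, ?_⟩
    · intro x y
      rw [dist_eq_norm]
      refine lp.norm_le_of_forall_sum_le (by norm_num) dist_nonneg ?_
      intro s
      have h2 : ((2 : ENNReal)).toReal = 2 := by norm_num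
      rw [h2]
      have h3 : ∑ i ∈ s, |f x i - f y i| ≤ dist x y :=
        sum_le_hasSum s (fun i _ => abs_nonneg _) (hsum x y)
      calc ∑ i ∈ s, ‖(u x - u y) i‖ ^ (2 : ℝ) = ∑ i ∈ s, |f x i - f y i| ^ 2 := by
            refine Finset.sum_congr rfl fun i _ => ?_
            rw [hu, Real.norm_eq_abs, Real.rpow_two]
        _ ≤ (∑ i ∈ s, |f x i - f y i|) ^ 2 :=
            Finset.sum_sq_le_sq_sum_of_nonneg (fun i _ => abs_nonneg _)
        _ ≤ (dist x y) ^ 2 := by
            gcongr
        _ = dist x y ^ (2 : ℝ) := by rw [Real.rpow_two]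
    · intro l
      obtain ⟨a, ha, h⟩ := htwo l
      refine ⟨a, ha, fun x y hxy => ?_⟩
      by_cases hc : (1 / 4) * dist x y ≤ dist (u x) (u y)
      · exact Or.inl hc
      · right
        push Not at hc
        have hpos : 0 < dist x y := by
          rcases (dist_nonneg (x := x) (y := y)).lt_or_eq with h0 | h0
          · exact h0
          · exfalso
            rw [← h0, mul_zero] at hc
            exact absurd hc (not_lt.2 dist_nonneg)
        have hi : ∀ i, |f x i - f y i| ≤ (1 / 4) * dist x y := by
          intro i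
          have h1 : ‖(u x - u y) i‖ ≤ ‖u x - u y‖ := lp.norm_apply_le_norm (by norm_num) _ i
          rw [hu, Real.norm_eq_abs, ← dist_eq_norm] at h1
          exact h1.trans hc.le
        have hl : ∑ i ∈ range l, |f x i - f y i| ≤ (1 / 2) * dist x y := by
          have h1 : ∑ i ∈ range l, |f x i - f y i|
              = ∑ i ∈ (range l).filter (fun i => f x i ≠ f y i), |f x i - f y i| := by
            symm
            apply Finset.sum_filter_of_ne
            intro i _ hne heq
            apply hne
            rw [heq, sub_self, abs_zero]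
          rw [h1]
          calc ∑ i ∈ (range l).filter (fun i => f x i ≠ f y i), |f x i - f y i|
              ≤ ((range l).filter (fun i => f x i ≠ f y i)).card • ((1 / 4) * dist x y) :=
                Finset.sum_le_card_nsmul _ _ _ (fun i _ => hi i)
            _ ≤ (2 : ℕ) • ((1 / 4) * dist x y) :=
                nsmul_le_nsmul_left (by positivity) (h x y hxy)
            _ = (1 / 2) * dist x y := by
                rw [nsmul_eq_mul]
                push_cast
                ring
        have ht := (hsum x y).tendsto_sum_nat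
        have hev : ∀ᶠ n in atTop, (3 / 4) * dist x y < ∑ i ∈ range n, |f x i - f y i| :=
          ht.eventually_const_lt (by linarith)
        obtain ⟨n, hn1, hn2⟩ := (hev.and (eventually_ge_atTop l)).exists
        refine ⟨n, ?_⟩
        have h1 : ∑ i ∈ range l, |f x i - f y i| + ∑ i ∈ Ico l n, |f x i - f y i|
            = ∑ i ∈ range n, |f x i - f y i| := Finset.sum_range_add_sum_Ico _ hn2
        linarith

end Pool.Agent.TSR
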