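import Pool.Agent.TSR.Defs

/-!
# `(⊕ ℓ_∞^(n j))_2` is contained in `X0` (module TSR_Univ)

PROOF. Choose `N : ℕ → ℕ` strictly increasing with `n j ≤ N j` (for example
`N j = ∑ i ∈ range (j+1), (n i + 1)`). For `v` let `w k = 0` if `k` is not of the form `N j` and
`w (N j) = (v j, 0, ..., 0)` (extension by zero from `Fin (n j)` to `Fin (N j)`, same sup norm).
`∑' k, ‖w k‖^2 = ∑' j, ‖v j‖^2` (`Function.Injective.tsum_eq` for the injective `N`), and the map is
additive, so distances are preserved.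
`frechet`: finite `b/8`-net `p` of `M`, `v x i = dist x (p i)`.
-/

set_option autoImplicit false

namespace Pool.Agent.TSR

open MeasureTheory Filter Topology

namespace UnivAux

variable (n : ℕ → ℕ)

/-- the positions -/
def N (j : ℕ) : ℕ := ∑ i ∈ Finset.range (j + 1), (n i + 1)

theorem N_strict : StrictMono (N n) := by
  refine strictMono_nat_of_lt_succ (fun j => ?_)
  unfold N
  rw [Finset.sum_range_succ _ (j + 1)]
  omega

theorem n_le (j : ℕ) : n j ≤ N n j := by
  unfold N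
  rw [Finset.sum_range_succ]
  omega

variable {n}

open scoped Classical in
/-- extension by zero -/
noncomputable def ext (u : ∀ j : ℕ, Fin (n j) → ℝ) (k : ℕ) (i : Fin k) : ℝ :=
  if h : ∃ j, N n j = k ∧ i.1 < n j then u h.choose ⟨i.1, h.choose_spec.2⟩ else 0

theorem ext_N (u : ∀ j : ℕ, Fin (n j) → ℝ) (j : ℕ) (i : Fin (N n j)) (hi : i.1 < n j) :
    ext u (N n j) i = u j ⟨i.1, hi⟩ := by
  have h : ∃ j', N n j' = N n j ∧ i.1 < n j' := ⟨j, rfl, hi⟩
  unfold ext
  rw [dif_pos h]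
  have hj : h.choose = j := (N_strict n).injective h.choose_spec.1
  have key : ∀ (a : ℕ) (ha : i.1 < n a), a = j → u a ⟨i.1, ha⟩ = u j ⟨i.1, hi⟩ := by
    rintro a ha rfl
    rfl
  exact key _ _ hj

theorem ext_N_zero (u : ∀ j : ℕ, Fin (n j) → ℝ) (j : ℕ) (i : Fin (N n j)) (hi : ¬ i.1 < n j) :
    ext u (N n j) i = 0 := by
  unfold ext
  rw [dif_neg]
  rintro ⟨j', h1, h2⟩
  have := (N_strict n).injective h1
  subst this
  exact hi h2

theorem ext_off (u : ∀ j : ℕ, Fin (n j) → ℝ) {k : ℕ} (hk : k ∉ Set.range (N n)) :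
    ext u k = 0 := by
  funext i
  unfold ext
  rw [dif_neg]
  · rfl
  · rintro ⟨j', h1, -⟩
    exact hk ⟨j', h1⟩

theorem ext_sub (u u' : ∀ j : ℕ, Fin (n j) → ℝ) (k : ℕ) :
    ext u k - ext u' k = ext (fun j => u j - u' j) k := by
  funext i
  rw [Pi.sub_apply]
  unfold ext
  by_cases h : ∃ j, N n j = k ∧ i.1 < n j
  · rw [dif_pos h, dif_pos h, dif_pos h]
    rfl
  · rw [dif_neg h, dif_neg h, dif_neg h, sub_zero]

theorem norm_ext (u : ∀ j : ℕ, Fin (n j) → ℝ) (j : ℕ) : ‖ext u (N n j)‖ = ‖u j‖ := by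
  apply le_antisymm
  · rw [pi_norm_le_iff_of_nonneg (norm_nonneg _)]
    intro i
    by_cases hi : i.1 < n j
    · rw [ext_N u j i hi]
      exact norm_le_pi_norm (u j) _
    · rw [ext_N_zero u j i hi, norm_zero]
      exact norm_nonneg _
  · rw [pi_norm_le_iff_of_nonneg (norm_nonneg _)]
    intro i
    have h := ext_N u j ⟨i.1, lt_of_lt_of_le i.2 (n_le n j)⟩ i.2
    have h2 : u j i = u j ⟨i.1, i.2⟩ := rfl
    rw [h2, ← h]
    exact norm_le_pi_norm (ext u (N n j)) _

theorem two_toReal : (2 : ENNReal).toReal = 2 := by norm_num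

theorem summable_ext {u : ∀ j : ℕ, Fin (n j) → ℝ} (hu : Memℓp u 2) : Memℓp (ext u) 2 := by
  have h0 : 0 < (2 : ENNReal).toReal := by rw [two_toReal]; norm_num
  have h1 := (memℓp_gen_iff h0).1 hu
  rw [memℓp_gen_iff h0]
  rw [← (N_strict n).injective.summable_iff (f := fun k => ‖ext u k‖ ^ (2 : ENNReal).toReal)]
  · refine h1.congr (fun j => ?_)
    show ‖u j‖ ^ (2 : ENNReal).toReal = ‖ext u (N n j)‖ ^ (2 : ENNReal).toReal
    rw [norm_ext]
  · intro k hk
    rw [ext_off u hk, norm_zero]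
    exact Real.zero_rpow h0.ne'

theorem tsum_ext (u : ∀ j : ℕ, Fin (n j) → ℝ) :
    ∑' k, ‖ext u k‖ ^ (2 : ENNReal).toReal = ∑' j, ‖u j‖ ^ (2 : ENNReal).toReal := by
  have h0 : 0 < (2 : ENNReal).toReal := by rw [two_toReal]; norm_num
  rw [← (N_strict n).injective.tsum_eq (f := fun k => ‖ext u k‖ ^ (2 : ENNReal).toReal)]
  · refine tsum_congr (fun j => ?_)
    rw [norm_ext]
  · intro k hk
    by_contra hcon
    apply hk
    show ‖ext u k‖ ^ (2 : ENNReal).toReal = 0
    rw [ext_off u hcon, norm_zero]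
    exact Real.zero_rpow h0.ne'

end UnivAux

open UnivAux in
theorem exists_isometry_X0 (n : ℕ → ℕ) :
    ∃ g : lp (fun j : ℕ => (Fin (n j) → ℝ)) 2 → X0, ∀ v w, dist (g v) (g w) = dist v w := by
  have h0 : 0 < (2 : ENNReal).toReal := by rw [two_toReal]; norm_num
  refine ⟨fun v => ⟨ext v, summable_ext (lp.memℓp v)⟩, fun v w => ?_⟩
  rw [dist_eq_norm, dist_eq_norm, lp.norm_eq_tsum_rpow h0, lp.norm_eq_tsum_rpow h0]
  congr 1
  rw [← tsum_ext (fun j => (v - w : lp (fun j : ℕ => (Fin (n j) → ℝ)) 2) j)]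
  refine tsum_congr (fun k => ?_)
  congr 2
  show ext v k - ext w k = _
  rw [ext_sub]
  rfl

theorem frechet (M : Type) [MetricSpace M] [CompactSpace M] {b : ℝ} (hb : 0 < b) :
    ∃ (m : ℕ) (v : M → Fin m → ℝ), (∀ x y, dist (v x) (v y) ≤ dist x y) ∧
      ∀ x y, b ≤ dist x y → (1 / 2) * dist x y ≤ dist (v x) (v y) := by
  obtain ⟨t, -, htf, hcov⟩ := (isCompact_univ (X := M)).finite_cover_balls (e := b / 8) (by positivity)
  have : Fintype t := htf.fintype
  let p : Fin (Fintype.card t) → M := fun i => ((Fintype.equivFin t).symm i).1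
  refine ⟨Fintype.card t, fun x i => dist x (p i), ?_, ?_⟩
  · intro x y
    rw [dist_pi_le_iff dist_nonneg]
    intro i
    rw [Real.dist_eq]
    exact abs_dist_sub_le x y (p i)
  · intro x y hxy
    obtain ⟨q, hq, hxq⟩ := Set.mem_iUnion₂.1 (hcov (Set.mem_univ x))
    rw [Metric.mem_ball] at hxq
    have h1 : p (Fintype.equivFin t ⟨q, hq⟩) = q := by
      show ((Fintype.equivFin t).symm (Fintype.equivFin t ⟨q, hq⟩)).1 = q
      rw [Equiv.symm_apply_apply]
    have h2 := dist_le_pi_dist (fun i => dist x (p i)) (fun i => dist y (p i))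
      (Fintype.equivFin t ⟨q, hq⟩)
    rw [h1, Real.dist_eq] at h2
    refine le_trans ?_ h2
    have h3 := neg_abs_le (dist x q - dist y q)
    have h4 : dist x y ≤ dist x q + dist y q := by
      rw [dist_comm y q]
      exact dist_triangle x q y
    linarith

end Pool.Agent.TSR
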