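import Pool.Agent.TSR.Scales
import Pool.Agent.TSR.Assemble
import Pool.Agent.TSR.Refl
import Pool.Agent.TSR.Sep
import Pool.Agent.TSR.Univ
import Pool.Agent.TSR.Glue
import Pool.Agent.TSR.TreeH
import Pool.Agent.TSR.Pu

/-!
# Assembly
-/

set_option autoImplicit false

namespace Pool.Agent.TSR

open MeasureTheory Filter Topology Finset

/-! ### The target spaces -/

theorem reflexive_X0 : IsReflexive X0 :=
  reflexive_lp _ fun _ => reflexive_of_finiteDimensional _

theorem separable_X0 : TopologicalSpace.SeparableSpace X0 := separable_lp _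

theorem reflexive_XG (E : Type) [NormedAddCommGroup E] [NormedSpace ℝ E] [CompleteSpace E]
    (hE : IsReflexive E) : IsReflexive (XG E) :=
  reflexive_prod _ _ (reflexive_of_finiteDimensional ℝ)
    (reflexive_lp _ fun _ => reflexive_prod _ _ hE reflexive_X0)

theorem separable_XG (E : Type) [NormedAddCommGroup E] [NormedSpace ℝ E]
    [TopologicalSpace.SeparableSpace E] : TopologicalSpace.SeparableSpace (XG E) := by
  have := separable_X0
  have : TopologicalSpace.SeparableSpace (lp (fun _ : ℕ => E × X0) 2) := separable_lp _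
  infer_instance

/-! ### Compact spaces -/

theorem compact_embed {M E : Type} [MetricSpace M] [CompactSpace M] [NormedAddCommGroup E]
    (u : M → E) (hu : ∀ x y, dist (u x) (u y) ≤ dist x y)
    (f : M → ℕ → ℝ) (hf : ∀ x y n, ∑ i ∈ range n, |f x i - f y i| ≤ dist x y)
    {c : ℝ} (hc : 0 < c) (hc1 : c ≤ 1)
    (H : ∀ l : ℕ, ∃ A : ℝ, 0 < A ∧ ∀ x y : M, dist x y ≤ A →
      c * dist x y ≤ dist (u x) (u y) ∨ (∃ n, c * dist x y ≤ ∑ i ∈ Ico l n, |f x i - f y i|) ∨
      ∀ r : ℝ, 0 ≤ r → Frag x y r → c * dist x y ≤ r) :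
    ∃ F : M → E × X0, ∀ x y,
      (c / 4) * dist x y ≤ dist (F x) (F y) ∧ dist (F x) (F y) ≤ 6 * dist x y := by
  rcases isEmpty_or_nonempty M with hM | hM
  · exact ⟨fun x => hM.elim x, fun x => hM.elim x⟩
  obtain ⟨a, n, h, q, ha, ha4, hq, hq2, h1, h2, h3, h4⟩ := scales u hu f hf hc hc1 H
  obtain ⟨m, v, hv, hv2⟩ := frechet M (ha 0)
  obtain ⟨N, F, hF⟩ := assemble u hu a n h q ha ha4 hq hq2 h1 h2 h3 h4 m v hv (fun x y hxy => by
    have := hv2 x y hxy
    have hd : 0 ≤ dist x y := dist_nonneg
    nlinarith)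
  obtain ⟨g, hg⟩ := exists_isometry_X0 N
  refine ⟨fun x => ((F x).1, g (F x).2), fun x y => ?_⟩
  have : dist ((F x).1, g (F x).2) ((F y).1, g (F y).2) = dist (F x) (F y) := by
    rw [Prod.dist_eq, Prod.dist_eq, hg]
  rw [this]
  exact hF x y

/-! ### Proper spaces -/

theorem proper_embed {M Y : Type} [MetricSpace M] [NormedAddCommGroup Y] [NormedSpace ℝ Y]
    {α β : ℝ} (hα : 0 < α) (hαβ : α ≤ β)
    (h : ∀ S : Set M, IsCompact S → ∃ F : S → Y, ∀ x y,
      α * dist x y ≤ dist (F x) (F y) ∧ dist (F x) (F y) ≤ β * dist x y)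
    [ProperSpace M] :
    Embeds (40 * β / α) M (ℝ × lp (fun _ : ℕ => Y) 2) := by
  rcases isEmpty_or_nonempty M with hM | hM
  · exact ⟨fun x => hM.elim x, 1, one_pos, fun x => hM.elim x⟩
  obtain ⟨x₀⟩ := hM
  choose F hF using fun n : ℕ => h (Metric.closedBall x₀ (2 ^ n)) (isCompact_closedBall _ _)
  classical
  obtain ⟨G, hG⟩ := glue x₀ hα hαβ
    (fun n x => if hx : x ∈ Metric.closedBall x₀ ((2 : ℝ) ^ n) then F n ⟨x, hx⟩ else 0)
    (fun n x y hx hy => by
      have hx' : x ∈ Metric.closedBall x₀ ((2 : ℝ) ^ n) := hx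
      have hy' : y ∈ Metric.closedBall x₀ ((2 : ℝ) ^ n) := hy
      simp only [hx', hy', dif_pos]
      exact hF n ⟨x, hx'⟩ ⟨y, hy'⟩)
  refine ⟨G, α / 4, by positivity, fun x y => ⟨(hG x y).1, ?_⟩⟩
  have e : 40 * β / α * (α / 4) * dist x y = 10 * β * dist x y := by
    field_simp
    ring
  rw [e]
  exact (hG x y).2

theorem FourPoint.subtype {M : Type} [MetricSpace M] (h : FourPoint M) (S : Set M) :
    FourPoint S := fun x y z w => h x y z w

/-- Hilbert space -/
abbrev H2 : Type := lp (fun _ : ℕ => ℝ) 2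

theorem tree_embed {M : Type} [MetricSpace M] [ProperSpace M] (h4 : FourPoint M) :
    Embeds 3840 M (XG H2) := by
  have := proper_embed (M := M) (Y := H2 × X0) (α := 1 / 16) (β := 6) (by norm_num) (by norm_num)
    (fun S hS => by
      have : CompactSpace S := isCompact_iff_compactSpace.1 hS
      obtain ⟨u, f, hu, hf, H⟩ := tree_hyp (h4.subtype S)
      obtain ⟨F, hF⟩ := compact_embed u hu f hf (c := 1 / 4) (by norm_num) (by norm_num)
        (fun l => by
          obtain ⟨A, hA, hA2⟩ := H l
          refine ⟨A, hA, fun x y hxy => ?_⟩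
          rcases hA2 x y hxy with h | h
          · exact Or.inl h
          · exact Or.inr (Or.inl h))
      refine ⟨F, fun x y => ⟨?_, (hF x y).2⟩⟩
      have := (hF x y).1
      norm_num at this ⊢
      exact this)
  norm_num at this
  exact this

theorem gap_embed {M E : Type} [MetricSpace M] [ProperSpace M] [NormedAddCommGroup E]
    [NormedSpace ℝ E] (u : M → E) (hu : ∀ x y, dist (u x) (u y) ≤ dist x y)
    {c : ℝ} (hc : 0 < c) (hc1 : c ≤ 1)
    (H : ∀ x y : M, c * dist x y ≤ max (dist (u x) (u y)) (gap x y)) :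
    Embeds (960 / c) M (XG E) := by
  have := proper_embed (M := M) (Y := E × X0) (α := c / 4) (β := 6) (by positivity) (by linarith)
    (fun S hS => by
      have : CompactSpace S := isCompact_iff_compactSpace.1 hS
      exact compact_embed (fun x : S => u x) (fun x y => hu x y) (fun _ _ => 0)
        (fun x y n => by simp) hc hc1
        (fun l => ⟨1, one_pos, fun x y _ => by
          rcases le_max_iff.1 (H x y) with h | h
          · exact Or.inl h
          · exact Or.inr (Or.inr fun r hr hr2 => le_of_gap h r hr hr2.of_subtype)⟩))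
  have e : 40 * 6 / (c / 4) = 960 / c := by
    field_simp
    norm_num
  rw [e] at this
  exact this

/-! ### Families -/

/-- one reflexive separable space that contains all proper spaces that are purely
1-unrectifiable or 0-hyperbolic, with a universal distortion -/
theorem universal : ∃ (X : Type) (_ : NormedAddCommGroup X) (_ : NormedSpace ℝ X)
    (_ : CompleteSpace X) (_ : TopologicalSpace.SeparableSpace X) (D : ℝ), IsReflexive X ∧
    ∀ (M : Type) [MetricSpace M] [ProperSpace M], PurelyUnrectifiable M ∨ FourPoint M →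
      Embeds D M X := by
  have : TopologicalSpace.SeparableSpace H2 := separable_lp _
  refine ⟨XG H2, inferInstance, inferInstance, inferInstance, separable_XG _, 3840,
    reflexive_XG _ (reflexive_lp _ fun _ => reflexive_of_finiteDimensional ℝ), ?_⟩
  intro M _ _ h
  rcases h with h | h
  · have := gap_embed (M := M) (E := H2) (fun _ => 0) (fun x y => by simp) one_pos le_rfl
      (fun x y => by
        rw [gap_of_pu h, one_mul]
        exact le_max_right _ _)
    obtain ⟨f, s, hs, hf⟩ := this
    refine ⟨f, s, hs, fun x y => ⟨(hf x y).1, (hf x y).2.trans ?_⟩⟩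
    have : 0 ≤ s * dist x y := by positivity
    nlinarith
  · exact tree_embed h

/-- an embedding with distortion `D` can be normalised to be 1-Lipschitz -/
theorem Embeds.normalise {D : ℝ} (hD : 0 < D) {M X : Type} [MetricSpace M] [NormedAddCommGroup X]
    [NormedSpace ℝ X] (h : Embeds D M X) :
    ∃ f : M → X, ∀ x y, dist (f x) (f y) ≤ dist x y ∧ dist x y ≤ D * dist (f x) (f y) := by
  obtain ⟨g, s, hs, hg⟩ := h
  have key : ∀ x y : M, dist ((1 / (D * s)) • g x) ((1 / (D * s)) • g y) =
      (1 / (D * s)) * dist (g x) (g y) := by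
    intro x y
    rw [dist_smul₀, Real.norm_of_nonneg (by positivity)]
  refine ⟨fun x => (1 / (D * s)) • g x, fun x y => ⟨?_, ?_⟩⟩
  · rw [key, one_div, inv_mul_le_iff₀ (by positivity)]
    exact (hg _ _).2
  · rw [key]
    have h2 := (hg x y).1
    have h3 : D * (1 / (D * s) * dist (g x) (g y)) = dist (g x) (g y) / s := by
      field_simp
    rw [h3, le_div_iff₀ hs]
    linarith

theorem main (E : Type) [NormedAddCommGroup E] [NormedSpace ℝ E] [CompleteSpace E]
    [TopologicalSpace.SeparableSpace E] (hE : IsReflexive E) {c : ℝ} (hc : 0 < c) {ι : Type}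
    (M T P : ι → Type) [∀ i, MetricSpace (M i)] [∀ i, ProperSpace (M i)]
    [∀ i, MetricSpace (T i)] [∀ i, ProperSpace (T i)]
    [∀ i, MetricSpace (P i)] [∀ i, ProperSpace (P i)]
    (hT : ∀ i, FourPoint (T i)) (hP : ∀ i, PurelyUnrectifiable (P i))
    (u : ∀ i, M i → E) (t : ∀ i, M i → T i) (p : ∀ i, M i → P i)
    (hu : ∀ i x y, dist (u i x) (u i y) ≤ dist x y)
    (ht : ∀ i x y, dist (t i x) (t i y) ≤ dist x y)
    (hp : ∀ i x y, dist (p i x) (p i y) ≤ dist x y)
    (H : ∀ i, ∀ x y : M i, c * dist x y ≤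
      max (max (dist (u i x) (u i y)) (dist (t i x) (t i y)))
        (max (dist (p i x) (p i y)) (gap x y))) :
    ¬ IsTestFamily M := by
  intro hM
  obtain ⟨X, i1, i2, i3, i4, D, hX, hD⟩ := universal
  obtain ⟨D', hD', hDD'⟩ : ∃ D' : ℝ, 1 ≤ D' ∧ D ≤ D' := ⟨max 1 D, le_max_left _ _, le_max_right _ _⟩
  have hD2 : ∀ (A : Type) [MetricSpace A] [ProperSpace A], PurelyUnrectifiable A ∨ FourPoint A →
      Embeds D' A X := by
    intro A _ _ hA
    obtain ⟨f, s, hs, hf⟩ := hD A hA
    refine ⟨f, s, hs, fun x y => ⟨(hf x y).1, (hf x y).2.trans ?_⟩⟩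
    have : 0 ≤ s * dist x y := by positivity
    nlinarith
  have : TopologicalSpace.SeparableSpace (XG (E × (X × X))) := separable_XG _
  have hr : IsReflexive (XG (E × (X × X))) :=
    reflexive_XG _ (reflexive_prod _ _ hE (reflexive_prod _ _ hX hX))
  refine (hM (XG (E × (X × X)))).1 hr ⟨960 / (min c 1 / D'), fun i => ?_⟩
  obtain ⟨g, hg⟩ := (hD2 (T i) (Or.inr (hT i))).normalise (by linarith)
  obtain ⟨k, hk⟩ := (hD2 (P i) (Or.inl (hP i))).normalise (by linarith)
  have h0 : 0 < min c 1 := lt_min hc one_pos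
  have h1 : min c 1 ≤ 1 := min_le_right _ _
  have hD0 : 0 < D' := by linarith
  refine gap_embed (E := E × (X × X)) (fun x => (u i x, (g (t i x), k (p i x)))) ?_
    (by positivity) ?_ ?_
  · intro x y
    rw [Prod.dist_eq, Prod.dist_eq]
    exact max_le (hu i x y) (max_le ((hg _ _).1.trans (ht i x y)) ((hk _ _).1.trans (hp i x y)))
  · rw [div_le_one hD0]
    linarith
  · intro x y
    rw [Prod.dist_eq, Prod.dist_eq]
    simp only
    have hd : 0 ≤ dist x y := dist_nonneg
    have e1 : min c 1 / D' * dist x y ≤ c * dist x y / D' := by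
      have := mul_le_mul_of_nonneg_right (min_le_left c 1) hd
      rw [div_mul_eq_mul_div]
      gcongr
    have e2 : c * dist x y / D' ≤ c * dist x y :=
      div_le_self (by positivity) hD'
    rcases le_max_iff.1 (H i x y) with h | h
    · rcases le_max_iff.1 h with h | h
      · exact le_max_of_le_left (le_max_of_le_left (by linarith))
      · refine le_max_of_le_left (le_max_of_le_right (le_max_of_le_left ?_))
        refine e1.trans ?_
        rw [div_le_iff₀ hD0]
        have := (hg (t i x) (t i y)).2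
        linarith
    · rcases le_max_iff.1 h with h | h
      · refine le_max_of_le_left (le_max_of_le_right (le_max_of_le_right ?_))
        refine e1.trans ?_
        rw [div_le_iff₀ hD0]
        have := (hk (p i x) (p i y)).2
        linarith
      · exact le_max_of_le_right (by linarith)

theorem family {ι : Type} (M : ι → Type) [∀ i, MetricSpace (M i)] [∀ i, ProperSpace (M i)]
    (h : ∀ i, PurelyUnrectifiable (M i) ∨ FourPoint (M i)) : ¬ IsTestFamily M := by
  intro hM
  obtain ⟨X, i1, i2, i3, i4, D, hX, hD⟩ := universal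
  exact (hM X).1 hX ⟨D, fun i => hD (M i) (h i)⟩

end Pool.Agent.TSR
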