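import Pool.Agent.TSR.Defs

/-!
# Limits of chains are curve fragments (module TSR_FragLimit)

PROOF. `step δ ε a b ≥ ε * dist a b` (as `ε ≤ 1`), so the total lengths
`L n = ∑ i < k n, dist (X n i) (X n (i+1))` satisfy `ε * L n ≤ cost ≤ r n`, hence they are bounded.
Let `T n i = ∑ j < i, dist (X n j) (X n (j+1))` (monotone in `i`, `T n 0 = 0`, `T n (k n) = L n`,
`dist (X n i) (X n j) ≤ |T n i - T n j|`). Fix an ultrafilter `U ≤ atTop` on `ℕ` (or `hyperfilter`).
`L := U-lim L n`. For `t : ℝ` let `I n t ≤ k n` be an index minimising `|T n i - t|`,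
`D n t := |T n (I n t) - t|` (1-Lipschitz in `t`, because it is a minimum of finitely many
1-Lipschitz functions), `D t := U-lim D n t` (1-Lipschitz), `γ t := U-lim X n (I n t)` (`M` compact).
`K := {t ∈ Icc 0 L | D t = 0}`, closed. `0, L ∈ K`, `γ 0 = x`, `γ L = y`, and for `s, t ∈ K`
`dist (γ s) (γ t) = lim dist (X n (I n s)) (X n (I n t)) ≤ lim |T n (I n s) - T n (I n t)| = |s - t|`.

MEASURE. `Icc 0 L \ K = {t ∈ Ioo 0 L | 0 < D t}` is open; by `IsOpen.measure_eq_iSup_isCompact`
(inner regularity) it is enough to bound `volume Q` for `Q` compact in it. `D ≥ 2 η` on `Q` for some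
`η > 0`. By compactness (finite `η/4`-net and the Lipschitz property) for `U`-many `n`:
`D n t ≥ η` for all `t ∈ Q`, `|L n - L| < η`, `δ n < η`. For such `n` and `t ∈ Q`: `t ≤ L - D t < L n`
(as `D L = 0` and `D` is 1-Lipschitz) and `0 < t`, so `T n i < t < T n (i+1)` for some `i < k n`,
and this gap has length `dist (X n i) (X n (i+1)) ≥ 2 η > δ n`, so its step costs its full length.
Hence `Q ⊆ ⋃ (i < k n, dist ≥ δ n) Ioo (T n i) (T n (i+1))` and
`volume Q ≤ ofReal (cost ...) ≤ ofReal (r n)`; pass to the `U`-limit.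
-/

set_option autoImplicit false

namespace Pool.Agent.TSR

open MeasureTheory Filter Topology

namespace FragLimitAux

theorem exists_lim {M : Type} [TopologicalSpace M] [CompactSpace M] (U : Ultrafilter ℕ)
    (f : ℕ → M) : ∃ x, Tendsto f U (𝓝 x) := by
  obtain ⟨x, -, hx⟩ := isCompact_univ.ultrafilter_le_nhds (U.map f) (by simp)
  exact ⟨x, hx⟩

theorem exists_lim_real (U : Ultrafilter ℕ) (f : ℕ → ℝ) {a b : ℝ} (h : ∀ n, f n ∈ Set.Icc a b) :
    ∃ x ∈ Set.Icc a b, Tendsto f U (𝓝 x) := by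
  obtain ⟨x, hx1, hx⟩ := (isCompact_Icc (a := a) (b := b)).ultrafilter_le_nhds (U.map f) (by
    rw [le_principal_iff]
    show Set.Icc a b ∈ Filter.map f U
    rw [Filter.mem_map]
    exact Filter.univ_mem' h)
  exact ⟨x, hx1, hx⟩

/-- partial lengths of a chain -/
noncomputable def T {M : Type} [MetricSpace M] (x : ℕ → M) (i : ℕ) : ℝ :=
  ∑ j ∈ Finset.range i, dist (x j) (x (j + 1))

theorem T_zero {M : Type} [MetricSpace M] (x : ℕ → M) : T x 0 = 0 := by
  simp [T]

theorem T_succ {M : Type} [MetricSpace M] (x : ℕ → M) (i : ℕ) :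
    T x (i + 1) = T x i + dist (x i) (x (i + 1)) := by
  unfold T
  rw [Finset.sum_range_succ]

theorem T_nonneg {M : Type} [MetricSpace M] (x : ℕ → M) (i : ℕ) : 0 ≤ T x i :=
  Finset.sum_nonneg fun _ _ => dist_nonneg

theorem dist_le_T {M : Type} [MetricSpace M] (x : ℕ → M) {i j : ℕ} (h : i ≤ j) :
    dist (x i) (x j) ≤ T x j - T x i := by
  refine (dist_le_Ico_sum_dist x h).trans (le_of_eq ?_)
  rw [Finset.sum_Ico_eq_sub _ h]
  rfl

theorem dist_le_abs {M : Type} [MetricSpace M] (x : ℕ → M) (i j : ℕ) :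
    dist (x i) (x j) ≤ |T x i - T x j| := by
  rcases le_total i j with h | h
  · have h1 := dist_le_T x h
    rw [abs_sub_comm]
    exact h1.trans (le_abs_self _)
  · have h1 := dist_le_T x h
    rw [dist_comm]
    exact h1.trans (le_abs_self _)

theorem step_ge {M : Type} [MetricSpace M] {δ ε : ℝ} (hε1 : ε ≤ 1) (a b : M) :
    ε * dist a b ≤ step δ ε a b := by
  unfold step
  split_ifs
  · exact le_refl _
  · have := dist_nonneg (x := a) (y := b)
    nlinarith

theorem T_le_cost {M : Type} [MetricSpace M] {δ ε : ℝ} (hε1 : ε ≤ 1) (x : ℕ → M) (k : ℕ) :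
    ε * T x k ≤ cost δ ε x k := by
  unfold T cost
  rw [Finset.mul_sum]
  exact Finset.sum_le_sum fun i _ => step_ge hε1 _ _

/-- the long steps cost their full length -/
theorem long_le_cost {M : Type} [MetricSpace M] {δ ε : ℝ} (hε : 0 < ε) (x : ℕ → M) (k : ℕ) :
    ∑ i ∈ (Finset.range k).filter (fun i => δ ≤ dist (x i) (x (i + 1))),
      dist (x i) (x (i + 1)) ≤ cost δ ε x k := by
  unfold cost
  rw [Finset.sum_filter]
  refine Finset.sum_le_sum fun i _ => ?_
  unfold step
  have := dist_nonneg (x := x i) (y := x (i + 1))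
  split_ifs with h1 h2
  · exact absurd h1 (not_le.2 h2)
  · exact le_refl _
  · positivity
  · positivity

/-- the measure of a set of times which are far from all partial lengths -/
theorem measure_far {M : Type} [MetricSpace M] {δ ε η L : ℝ} (hε : 0 < ε) (_hη : 0 < η)
    (x : ℕ → M) (k : ℕ) (hδ : δ < η) (hL : |T x k - L| < η) (Q : Set ℝ)
    (hQ : Q ⊆ Set.Icc 0 L) (hfar : ∀ t ∈ Q, ∀ i ≤ k, η ≤ |T x i - t|) :
    volume Q ≤ ENNReal.ofReal (cost δ ε x k) := by
  have hsub : Q ⊆ ⋃ i ∈ (Finset.range k).filter (fun i => δ ≤ dist (x i) (x (i + 1))),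
      Set.Icc (T x i) (T x (i + 1)) := by
    intro t ht
    obtain ⟨ht0, htL⟩ := hQ ht
    have h0 := hfar t ht 0 (Nat.zero_le _)
    have hk := hfar t ht k le_rfl
    have htk : t < T x k := by
      by_contra hcon
      push Not at hcon
      rw [abs_of_nonpos (by linarith)] at hk
      have := abs_lt.1 hL
      linarith
    have hex : ∃ j, t < T x j := ⟨k, htk⟩
    classical
    have hj := Nat.find_spec hex
    obtain ⟨j, hjdef⟩ : ∃ j, j = Nat.find hex := ⟨_, rfl⟩
    rw [← hjdef] at hj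
    have hjk : j ≤ k := by
      rw [hjdef]
      exact Nat.find_min' hex htk
    have hj0 : j ≠ 0 := by
      rintro rfl
      rw [T_zero] at hj
      linarith
    obtain ⟨i, rfl⟩ := Nat.exists_eq_succ_of_ne_zero hj0
    have hi : T x i ≤ t := by
      by_contra hcon
      push Not at hcon
      have := Nat.find_min' hex hcon
      rw [← hjdef] at this
      omega
    have h1 := hfar t ht i (by omega)
    have h2 := hfar t ht (i + 1) hjk
    rw [abs_of_nonpos (by linarith)] at h1
    rw [abs_of_nonneg (by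
      have : t < T x (i + 1) := hj
      linarith)] at h2
    have h3 := T_succ x i
    rw [Set.mem_iUnion₂]
    refine ⟨i, ?_, hi, le_of_lt hj⟩
    rw [Finset.mem_filter, Finset.mem_range]
    exact ⟨by omega, by linarith⟩
  calc volume Q ≤ volume (⋃ i ∈ (Finset.range k).filter
        (fun i => δ ≤ dist (x i) (x (i + 1))), Set.Icc (T x i) (T x (i + 1))) :=
        measure_mono hsub
    _ ≤ ∑ i ∈ (Finset.range k).filter (fun i => δ ≤ dist (x i) (x (i + 1))),
        volume (Set.Icc (T x i) (T x (i + 1))) := measure_biUnion_finset_le _ _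
    _ = ∑ i ∈ (Finset.range k).filter (fun i => δ ≤ dist (x i) (x (i + 1))),
        ENNReal.ofReal (dist (x i) (x (i + 1))) := by
        refine Finset.sum_congr rfl fun i _ => ?_
        rw [Real.volume_Icc, T_succ]
        congr 1
        ring
    _ = ENNReal.ofReal (∑ i ∈ (Finset.range k).filter (fun i => δ ≤ dist (x i) (x (i + 1))),
        dist (x i) (x (i + 1))) := (ENNReal.ofReal_sum_of_nonneg fun _ _ => dist_nonneg).symm
    _ ≤ ENNReal.ofReal (cost δ ε x k) := ENNReal.ofReal_le_ofReal (long_le_cost hε x k)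

end FragLimitAux

open FragLimitAux

theorem frag_limit {M : Type} [MetricSpace M] [CompactSpace M] {ε : ℝ} (hε : 0 < ε) (hε1 : ε ≤ 1)
    (δ : ℕ → ℝ) (hδ : Tendsto δ atTop (𝓝 0)) (X : ℕ → ℕ → M) (k : ℕ → ℕ) (r : ℕ → ℝ)
    (hc : ∀ n, cost (δ n) ε (X n) (k n) ≤ r n) (r₀ : ℝ) (hr : Tendsto r atTop (𝓝 r₀)) (x y : M)
    (hx : Tendsto (fun n => X n 0) atTop (𝓝 x))
    (hy : Tendsto (fun n => X n (k n)) atTop (𝓝 y)) :
    Frag x y r₀ := by
  obtain ⟨U, hU⟩ : ∃ U : Ultrafilter ℕ, (U : Filter ℕ) ≤ atTop :=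
    ⟨Filter.hyperfilter ℕ, Nat.hyperfilter_le_atTop⟩
  -- the lengths are bounded
  obtain ⟨R, hR⟩ := hr.bddAbove_range
  have hTk : ∀ n, T (X n) (k n) ≤ R / ε := by
    intro n
    rw [le_div_iff₀ hε, mul_comm]
    exact ((T_le_cost hε1 (X n) (k n)).trans (hc n)).trans (hR ⟨n, rfl⟩)
  obtain ⟨L, hL1, hL⟩ := exists_lim_real U (fun n => T (X n) (k n)) (a := 0) (b := R / ε)
    (fun n => ⟨T_nonneg _ _, hTk n⟩)
  have hL0 : 0 ≤ L := hL1.1
  -- nearest partial lengths
  have hI : ∀ n (t : ℝ), ∃ i ≤ k n, ∀ j ≤ k n, |T (X n) i - t| ≤ |T (X n) j - t| := by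
    intro n t
    obtain ⟨i, hi, hmin⟩ := Finset.exists_min_image (Finset.range (k n + 1))
      (fun i => |T (X n) i - t|) ⟨0, by simp⟩
    refine ⟨i, by have := Finset.mem_range.1 hi; omega, fun j hj => ?_⟩
    exact hmin j (Finset.mem_range.2 (by omega))
  choose I hI1 hI2 using hI
  have hDex : ∀ t : ℝ, ∃ d ∈ Set.Icc (0 : ℝ) |t|,
      Tendsto (fun n => |T (X n) (I n t) - t|) U (𝓝 d) := by
    intro t
    refine exists_lim_real U _ fun n => ⟨abs_nonneg _, ?_⟩
    have h1 := hI2 n t 0 (Nat.zero_le _)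
    rw [T_zero] at h1
    simpa using h1
  choose D hD1 hD using hDex
  have hDn : ∀ n s t, |T (X n) (I n s) - s| ≤ |T (X n) (I n t) - t| + |s - t| := by
    intro n s t
    have h1 := hI2 n s (I n t) (hI1 n t)
    have h2 : |T (X n) (I n t) - s| ≤ |T (X n) (I n t) - t| + |t - s| := by
      have := abs_add_le (T (X n) (I n t) - t) (t - s)
      have e : T (X n) (I n t) - t + (t - s) = T (X n) (I n t) - s := by ring
      rwa [e] at this
    rw [abs_sub_comm s t]
    exact h1.trans h2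
  have hDlip : ∀ s t, D s ≤ D t + |s - t| := by
    intro s t
    exact le_of_tendsto_of_tendsto' (hD s) ((hD t).add_const _) (fun n => hDn n s t)
  have hDcont : Continuous D := by
    have : LipschitzWith 1 D := by
      refine LipschitzWith.of_dist_le_mul fun s t => ?_
      rw [Real.dist_eq, Real.dist_eq, NNReal.coe_one, one_mul, abs_le]
      have h1 := hDlip s t
      have h2 := hDlip t s
      rw [abs_sub_comm t s] at h2
      constructor <;> linarith
    exact this.continuous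
  have hD0 : ∀ t, 0 ≤ D t := fun t => (hD1 t).1
  have hDz : D 0 = 0 := by
    have h1 := (hD1 0).2
    rw [abs_zero] at h1
    exact le_antisymm h1 (hD0 0)
  have hDL : D L = 0 := by
    refine le_antisymm ?_ (hD0 L)
    have h1 : Tendsto (fun n => |T (X n) (k n) - L|) U (𝓝 0) := by
      have h2 := (hL.sub_const L).abs
      simpa using h2
    exact le_of_tendsto_of_tendsto' (hD L) h1 (fun n => hI2 n L (k n) le_rfl)
  -- the curve
  have hγex : ∀ t : ℝ, ∃ p, Tendsto (fun n => X n (I n t)) U (𝓝 p) := fun t => exists_lim U _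
  choose γ hγ using hγex
  have hγ0 : γ 0 = x := by
    have h1 : Tendsto (fun n => dist (X n (I n 0)) (X n 0)) U (𝓝 (dist (γ 0) x)) :=
      (hγ 0).dist (hx.mono_left hU)
    have h2 : Tendsto (fun n => |T (X n) (I n 0) - 0|) U (𝓝 0) := by
      have := hD 0
      rwa [hDz] at this
    have h3 : dist (γ 0) x ≤ 0 := by
      refine le_of_tendsto_of_tendsto' h1 h2 fun n => ?_
      have := dist_le_abs (X n) (I n 0) 0
      rwa [T_zero] at this
    exact dist_le_zero.1 h3
  have hγL : γ L = y := by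
    have h1 : Tendsto (fun n => dist (X n (I n L)) (X n (k n))) U (𝓝 (dist (γ L) y)) :=
      (hγ L).dist (hy.mono_left hU)
    have h2 : Tendsto (fun n => |T (X n) (I n L) - L| + |T (X n) (k n) - L|) U (𝓝 0) := by
      have h3 := (hL.sub_const L).abs
      have h4 := (hD L).add h3
      rw [hDL] at h4
      simpa using h4
    have h3 : dist (γ L) y ≤ 0 := by
      refine le_of_tendsto_of_tendsto' h1 h2 fun n => ?_
      refine (dist_le_abs (X n) (I n L) (k n)).trans ?_
      have h5 := abs_sub_le (T (X n) (I n L)) L (T (X n) (k n))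
      rw [abs_sub_comm L] at h5
      exact h5
    exact dist_le_zero.1 h3
  have hlip : ∀ s t, D s = 0 → D t = 0 → dist (γ s) (γ t) ≤ dist s t := by
    intro s t hs ht
    have h1 : Tendsto (fun n => dist (X n (I n s)) (X n (I n t))) U (𝓝 (dist (γ s) (γ t))) :=
      (hγ s).dist (hγ t)
    have h2 : Tendsto (fun n => |T (X n) (I n s) - s| + |s - t| + |T (X n) (I n t) - t|) U
        (𝓝 |s - t|) := by
      have h3 := ((hD s).add_const |s - t|).add (hD t)
      rw [hs, ht] at h3
      simpa using h3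
    rw [Real.dist_eq]
    refine le_of_tendsto_of_tendsto' h1 h2 fun n => ?_
    refine (dist_le_abs (X n) (I n s) (I n t)).trans ?_
    have h5 := abs_sub_le (T (X n) (I n s)) s (T (X n) (I n t))
    have h6 := abs_sub_le s t (T (X n) (I n t))
    rw [abs_sub_comm t] at h6
    linarith
  -- the measure of the gaps
  have hQ : ∀ η : ℝ, 0 < η → volume {t : ℝ | t ∈ Set.Icc 0 L ∧ 2 * η ≤ D t} ≤
      ENNReal.ofReal r₀ := by
    intro η hη
    obtain ⟨F, hF, hcov⟩ := Metric.totallyBounded_iff.1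
      (isCompact_Icc (a := (0 : ℝ)) (b := L)).totallyBounded (η / 4) (by positivity)
    have hev1 : ∀ᶠ n in (U : Filter ℕ), ∀ t ∈ F, |(|T (X n) (I n t) - t|) - D t| < η / 4 := by
      rw [Filter.eventually_all_finite hF]
      intro t _
      have := Metric.tendsto_nhds.1 (hD t) (η / 4) (by positivity)
      simpa [Real.dist_eq] using this
    have hev2 : ∀ᶠ n in (U : Filter ℕ), |T (X n) (k n) - L| < η := by
      have := Metric.tendsto_nhds.1 hL η hη
      simpa [Real.dist_eq] using this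
    have hev3 : ∀ᶠ n in (U : Filter ℕ), δ n < η :=
      (hδ.mono_left hU).eventually_lt_const hη
    have hlim : Tendsto (fun n => ENNReal.ofReal (r n)) U (𝓝 (ENNReal.ofReal r₀)) :=
      ENNReal.tendsto_ofReal (hr.mono_left hU)
    refine ge_of_tendsto hlim ?_
    filter_upwards [hev1, hev2, hev3] with n h1 h2 h3
    refine (measure_far (ε := ε) hε hη (X n) (k n) h3 h2 _ (fun t ht => ht.1) ?_).trans
      (ENNReal.ofReal_le_ofReal (hc n))
    rintro t ⟨ht, hDt⟩ i hi
    refine le_trans ?_ (hI2 n t i hi)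
    obtain ⟨t', ht'⟩ := Set.mem_iUnion.1 (hcov ht)
    obtain ⟨ht'F, htt'⟩ := Set.mem_iUnion.1 ht'
    rw [Metric.mem_ball, Real.dist_eq] at htt'
    have h4 := abs_lt.1 (h1 t' ht'F)
    have h5 := hDn n t' t
    have h6 := hDlip t t'
    rw [abs_sub_comm t' t] at h5
    linarith
  -- conclusion
  refine ⟨L, {t | t ∈ Set.Icc 0 L ∧ D t = 0}, γ, hL0, ?_, fun t ht => ht.1, ⟨⟨le_rfl, hL0⟩, hDz⟩,
    ⟨⟨hL0, le_rfl⟩, hDL⟩, hγ0, hγL, fun s hs t ht => hlip s t hs.2 ht.2, ?_⟩
  · have h1 : {t | t ∈ Set.Icc 0 L ∧ D t = 0} = Set.Icc 0 L ∩ D ⁻¹' {0} := by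
      ext t
      simp
    rw [h1]
    exact isCompact_Icc.inter_right (isClosed_singleton.preimage hDcont)
  · have h1 : Set.Icc 0 L \ {t | t ∈ Set.Icc 0 L ∧ D t = 0} ⊆
        ⋃ m : ℕ, {t : ℝ | t ∈ Set.Icc 0 L ∧ 2 * (1 / (2 * ((m : ℝ) + 1))) ≤ D t} := by
      rintro t ⟨ht, ht2⟩
      have h2 : D t ≠ 0 := fun h => ht2 ⟨ht, h⟩
      have h3 : 0 < D t := lt_of_le_of_ne (hD0 t) (Ne.symm h2)
      obtain ⟨m, hm⟩ := exists_nat_one_div_lt h3
      rw [Set.mem_iUnion]
      refine ⟨m, ht, ?_⟩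
      have e : 2 * (1 / (2 * ((m : ℝ) + 1))) = 1 / ((m : ℝ) + 1) := by
        field_simp
      rw [e]
      exact hm.le
    have hmono : Monotone (fun m : ℕ =>
        {t : ℝ | t ∈ Set.Icc 0 L ∧ 2 * (1 / (2 * ((m : ℝ) + 1))) ≤ D t}) := by
      intro m m' hmm t ht
      refine ⟨ht.1, le_trans ?_ ht.2⟩
      have h2 : (m : ℝ) ≤ m' := by exact_mod_cast hmm
      have h3 : 1 / (2 * ((m' : ℝ) + 1)) ≤ 1 / (2 * ((m : ℝ) + 1)) := by
        apply one_div_le_one_div_of_le
        · positivity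
        · linarith
      linarith
    refine (measure_mono h1).trans ?_
    rw [hmono.measure_iUnion]
    refine iSup_le fun m => ?_
    exact hQ _ (by positivity)

end Pool.Agent.TSR
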