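import Pool.Agent.TSR.FragLimit

/-!
# One scale: finitely many locally flat functions (module TSR_Level)

PROOF. (1) Scale lemma: there is `δ > 0` such that for `(x, y) ∈ P` with `a ≤ dist x y ≤ b` every
chain `z` with `z 0 = x`, `z k = y` has `cost δ ε z k ≥ (c/2) * dist x y`. Otherwise there are
`δ n = 1/(n+1)` and pairs `(x n, y n) ∈ P` with chains of cost `≤ r n := (c/2) * dist (x n) (y n)`;
pass to a subsequence with `x n → x`, `y n → y` (compactness); `(x, y) ∈ P`, `a ≤ dist x y ≤ b`;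
`frag_limit` gives `Frag x y ((c/2) * dist x y)`, so `c * dist x y ≤ (c/2) * dist x y` by `H`:
contradiction with `dist x y ≥ a > 0`.
(2) `ρ p x :=` infimum of `cost δ ε z k` over all chains from `p` to `x` (`z 0 = p`, `z k = x`;
nonempty: `k = 1`; bounded below by 0). Appending a point to a chain gives
`ρ p y ≤ ρ p x + step δ ε x y`, and concatenation/reversal gives the triangle inequality
`ρ x y ≤ ρ p x + ρ p y` (only needed in the form: a chain `x → p` of one step followed by a chain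
`p → y`: `ρ x y ≤ step δ ε x p + ρ p y`). By (1) `(c/2) * dist x y ≤ ρ x y` for the pairs in `P`.
(3) Let `p 1, ..., p n` be a finite `c*a/16`-net of `M` and `h x i := min (ρ (p i) x) b`.
1-Lipschitz since `step δ ε x y ≤ dist x y` (`ε ≤ 1`); values in `[0, b]`; flat since
`step δ ε x y = ε * dist x y` when `dist x y < δ`. For `(x, y) ∈ P`, `a ≤ dist x y ≤ b` take `p i` with
`dist (p i) x ≤ c*a/16`: `h x i ≤ c*a/16` and
`h y i ≥ min (ρ x y - c*a/16) b ≥ (c/2) dist x y - (c/16) dist x y`.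
-/

set_option autoImplicit false

namespace Pool.Agent.TSR

open MeasureTheory Filter Topology

theorem Level_step_nonneg {M : Type} [MetricSpace M] {δ ε : ℝ} (hε : 0 < ε) (x y : M) :
    0 ≤ step δ ε x y := by
  unfold step
  split_ifs
  · exact mul_nonneg hε.le dist_nonneg
  · exact dist_nonneg

theorem Level_step_le {M : Type} [MetricSpace M] {δ ε : ℝ} (hε1 : ε ≤ 1) (x y : M) :
    step δ ε x y ≤ dist x y := by
  unfold step
  split_ifs
  · have := mul_le_mul_of_nonneg_right hε1 (dist_nonneg (x := x) (y := y))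
    linarith
  · exact le_refl _

theorem Level_step_comm {M : Type} [MetricSpace M] (δ ε : ℝ) (x y : M) :
    step δ ε x y = step δ ε y x := by
  unfold step
  rw [dist_comm x y]

theorem Level_cost_nonneg {M : Type} [MetricSpace M] {δ ε : ℝ} (hε : 0 < ε) (z : ℕ → M) (k : ℕ) :
    0 ≤ cost δ ε z k :=
  Finset.sum_nonneg fun _ _ => Level_step_nonneg hε _ _

/-- costs of the chains from `p` to `x` -/
def Level_C {M : Type} [MetricSpace M] (δ ε : ℝ) (p x : M) : Set ℝ :=
  {r : ℝ | ∃ (z : ℕ → M) (k : ℕ), z 0 = p ∧ z k = x ∧ cost δ ε z k = r}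

/-- the chain metric -/
noncomputable def Level_rho {M : Type} [MetricSpace M] (δ ε : ℝ) (p x : M) : ℝ :=
  sInf (Level_C δ ε p x)

theorem Level_bdd {M : Type} [MetricSpace M] {δ ε : ℝ} (hε : 0 < ε) (p x : M) :
    BddBelow (Level_C δ ε p x) := by
  refine ⟨0, ?_⟩
  rintro r ⟨z, k, -, -, rfl⟩
  exact Level_cost_nonneg hε z k

theorem Level_one {M : Type} [MetricSpace M] (δ ε : ℝ) (p x : M) :
    step δ ε p x ∈ Level_C δ ε p x := by
  refine ⟨fun n => if n = 0 then p else x, 1, by simp, by simp, ?_⟩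
  simp [cost]

theorem Level_nonempty {M : Type} [MetricSpace M] (δ ε : ℝ) (p x : M) :
    (Level_C δ ε p x).Nonempty := ⟨_, Level_one δ ε p x⟩

theorem Level_rho_nonneg {M : Type} [MetricSpace M] {δ ε : ℝ} (hε : 0 < ε) (p x : M) :
    0 ≤ Level_rho δ ε p x := by
  refine le_csInf (Level_nonempty δ ε p x) ?_
  rintro r ⟨z, k, -, -, rfl⟩
  exact Level_cost_nonneg hε z k

theorem Level_rho_le_step {M : Type} [MetricSpace M] {δ ε : ℝ} (hε : 0 < ε) (p x : M) :
    Level_rho δ ε p x ≤ step δ ε p x :=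
  csInf_le (Level_bdd hε p x) (Level_one δ ε p x)

theorem Level_append {M : Type} [MetricSpace M] {δ ε : ℝ} (hε : 0 < ε) (p x y : M) :
    Level_rho δ ε p y ≤ Level_rho δ ε p x + step δ ε x y := by
  rw [← sub_le_iff_le_add]
  refine le_csInf (Level_nonempty δ ε p x) ?_
  rintro r ⟨z, k, hz, hk, rfl⟩
  rw [sub_le_iff_le_add]
  refine csInf_le (Level_bdd hε p y) ?_
  refine ⟨fun n => if n ≤ k then z n else y, k + 1, by simp [hz], by simp, ?_⟩
  unfold cost
  rw [Finset.sum_range_succ]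
  congr 1
  · refine Finset.sum_congr rfl fun i hi => ?_
    have hi' : i < k := Finset.mem_range.1 hi
    have h1 : i ≤ k := hi'.le
    have h2 : i + 1 ≤ k := hi'
    simp only [h1, h2, if_true]
  · simp [hk]

theorem Level_prepend {M : Type} [MetricSpace M] {δ ε : ℝ} (hε : 0 < ε) (x p y : M) :
    Level_rho δ ε x y ≤ step δ ε x p + Level_rho δ ε p y := by
  rw [← sub_le_iff_le_add']
  refine le_csInf (Level_nonempty δ ε p y) ?_
  rintro r ⟨z, k, hz, hk, rfl⟩
  rw [sub_le_iff_le_add']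
  refine csInf_le (Level_bdd hε x y) ?_
  refine ⟨fun n => match n with
    | 0 => x
    | n + 1 => z n, k + 1, rfl, hk, ?_⟩
  unfold cost
  rw [Finset.sum_range_succ']
  simp only [hz]
  ring

theorem Level_rho_lip {M : Type} [MetricSpace M] {δ ε : ℝ} (hε : 0 < ε) (p x y : M) :
    |Level_rho δ ε p x - Level_rho δ ε p y| ≤ step δ ε x y := by
  have h1 := Level_append (δ := δ) hε p x y
  have h2 := Level_append (δ := δ) hε p y x
  rw [Level_step_comm δ ε y x] at h2
  rw [abs_le]
  constructor <;> linarith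

theorem Level_min_lip (s t b : ℝ) : |min s b - min t b| ≤ |s - t| := by
  rcases le_total s b with h1 | h1 <;> rcases le_total t b with h2 | h2
  · rw [min_eq_left h1, min_eq_left h2]
  · rw [min_eq_left h1, min_eq_right h2, abs_sub_comm s b, abs_sub_comm s t,
      abs_of_nonneg (by linarith), abs_of_nonneg (by linarith)]
    linarith
  · rw [min_eq_right h1, min_eq_left h2, abs_of_nonneg (by linarith), abs_of_nonneg (by linarith)]
    linarith
  · rw [min_eq_right h1, min_eq_right h2]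
    simp

theorem Level_scale {M : Type} [MetricSpace M] [CompactSpace M] (P : Set (M × M)) (hP : IsClosed P)
    {c ε a b : ℝ} (hc : 0 < c) (hε : 0 < ε) (hε1 : ε ≤ 1) (ha : 0 < a)
    (H : ∀ x y : M, (x, y) ∈ P → a ≤ dist x y → dist x y ≤ b →
      ∀ r : ℝ, 0 ≤ r → Frag x y r → c * dist x y ≤ r) :
    ∃ δ : ℝ, 0 < δ ∧ ∀ x y : M, (x, y) ∈ P → a ≤ dist x y → dist x y ≤ b →
      ∀ (z : ℕ → M) (k : ℕ), z 0 = x → z k = y → (c / 2) * dist x y ≤ cost δ ε z k := by
  by_contra hcon
  push Not at hcon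
  have hcon' : ∀ n : ℕ, ∃ x y : M, (x, y) ∈ P ∧ a ≤ dist x y ∧ dist x y ≤ b ∧
      ∃ (z : ℕ → M) (k : ℕ), z 0 = x ∧ z k = y ∧
        cost (1 / ((n : ℝ) + 1)) ε z k < (c / 2) * dist x y := by
    intro n
    obtain ⟨x, y, h1, h2, h3, z, k, h4, h5, h6⟩ := hcon (1 / ((n : ℝ) + 1)) (by positivity)
    exact ⟨x, y, h1, h2, h3, z, k, h4, h5, h6⟩
  choose x y h1 h2 h3 z k h4 h5 h6 using hcon'
  obtain ⟨⟨x₀, y₀⟩, φ, hφ, hlim⟩ := CompactSpace.tendsto_subseq (fun n => (x n, y n))
  have hx : Tendsto (fun n => x (φ n)) atTop (𝓝 x₀) := by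
    have := (continuous_fst.tendsto (x₀, y₀)).comp hlim
    exact this
  have hy : Tendsto (fun n => y (φ n)) atTop (𝓝 y₀) := by
    have := (continuous_snd.tendsto (x₀, y₀)).comp hlim
    exact this
  have hd : Tendsto (fun n => dist (x (φ n)) (y (φ n))) atTop (𝓝 (dist x₀ y₀)) := hx.dist hy
  have hmem : (x₀, y₀) ∈ P := hP.mem_of_tendsto hlim (Eventually.of_forall fun n => h1 (φ n))
  have hge : a ≤ dist x₀ y₀ := ge_of_tendsto' hd fun n => h2 (φ n)
  have hle : dist x₀ y₀ ≤ b := le_of_tendsto' hd fun n => h3 (φ n)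
  have hδ : Tendsto (fun n => 1 / ((φ n : ℝ) + 1)) atTop (𝓝 0) :=
    tendsto_one_div_add_atTop_nhds_zero_nat.comp hφ.tendsto_atTop
  have hfr : Frag x₀ y₀ ((c / 2) * dist x₀ y₀) := by
    refine frag_limit hε hε1 (fun n => 1 / ((φ n : ℝ) + 1)) hδ (fun n => z (φ n))
      (fun n => k (φ n)) (fun n => (c / 2) * dist (x (φ n)) (y (φ n)))
      (fun n => (h6 (φ n)).le) _ (hd.const_mul _) x₀ y₀ ?_ ?_
    · simpa only [h4] using hx
    · simpa only [h5] using hy
  have hfin := H x₀ y₀ hmem hge hle _ (by positivity) hfr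
  have hpos : 0 < dist x₀ y₀ := lt_of_lt_of_le ha hge
  nlinarith [mul_pos hc hpos]

theorem level {M : Type} [MetricSpace M] [CompactSpace M] (P : Set (M × M)) (hP : IsClosed P)
    {c ε a b : ℝ} (hc : 0 < c) (hc1 : c ≤ 1) (hε : 0 < ε) (hε1 : ε ≤ 1) (ha : 0 < a) (hb : 0 < b)
    (H : ∀ x y : M, (x, y) ∈ P → a ≤ dist x y → dist x y ≤ b →
      ∀ r : ℝ, 0 ≤ r → Frag x y r → c * dist x y ≤ r) :
    ∃ δ : ℝ, 0 < δ ∧ ∃ (n : ℕ) (h : M → Fin n → ℝ),
      (∀ x y, dist (h x) (h y) ≤ dist x y) ∧ (∀ x y, dist (h x) (h y) ≤ b) ∧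
      (∀ x y, dist x y < δ → dist (h x) (h y) ≤ ε * dist x y) ∧
      (∀ x y, (x, y) ∈ P → a ≤ dist x y → dist x y ≤ b →
        (c / 4) * dist x y ≤ dist (h x) (h y)) := by
  obtain ⟨δ, hδ, hsc⟩ := Level_scale P hP hc hε hε1 ha H
  refine ⟨δ, hδ, ?_⟩
  have hη : 0 < c * a / 16 := by positivity
  obtain ⟨t, -, htf, hcov⟩ := (isCompact_univ (X := M)).finite_cover_balls hη
  have : Finite t := htf
  obtain ⟨n, ⟨e⟩⟩ := Finite.exists_equiv_fin t
  have hlip : ∀ (x y : M) (i : Fin n),
      dist (min (Level_rho δ ε (e.symm i : M) x) b) (min (Level_rho δ ε (e.symm i : M) y) b) ≤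
        step δ ε x y := by
    intro x y i
    rw [Real.dist_eq]
    exact (Level_min_lip _ _ _).trans (Level_rho_lip hε _ x y)
  refine ⟨n, fun x i => min (Level_rho δ ε (e.symm i : M) x) b, ?_, ?_, ?_, ?_⟩
  · intro x y
    rw [dist_pi_le_iff dist_nonneg]
    intro i
    exact (hlip x y i).trans (Level_step_le hε1 x y)
  · intro x y
    rw [dist_pi_le_iff hb.le]
    intro i
    rw [Real.dist_eq, abs_le]
    have h1 := Level_rho_nonneg (δ := δ) hε (e.symm i : M) x
    have h2 := Level_rho_nonneg (δ := δ) hε (e.symm i : M) y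
    have h3 : 0 ≤ min (Level_rho δ ε (e.symm i : M) x) b := le_min h1 hb.le
    have h4 : 0 ≤ min (Level_rho δ ε (e.symm i : M) y) b := le_min h2 hb.le
    have h5 : min (Level_rho δ ε (e.symm i : M) x) b ≤ b := min_le_right _ _
    have h6 : min (Level_rho δ ε (e.symm i : M) y) b ≤ b := min_le_right _ _
    constructor <;> linarith
  · intro x y hxy
    rw [dist_pi_le_iff (mul_nonneg hε.le dist_nonneg)]
    intro i
    refine (hlip x y i).trans (le_of_eq ?_)
    unfold step
    rw [if_pos hxy]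
  · intro x y hmem h1 h2
    obtain ⟨p, hp, hxp⟩ := Set.mem_iUnion₂.1 (hcov (Set.mem_univ x))
    rw [Metric.mem_ball] at hxp
    set i : Fin n := e ⟨p, hp⟩ with hi
    have hpi : (e.symm i : M) = p := by rw [hi, Equiv.symm_apply_apply]
    refine le_trans ?_ (dist_le_pi_dist _ _ i)
    simp only [hpi]
    have hρ : (c / 2) * dist x y ≤ Level_rho δ ε x y := by
      refine le_csInf (Level_nonempty δ ε x y) ?_
      rintro r ⟨z, k, hz, hk, rfl⟩
      exact hsc x y hmem h1 h2 z k hz hk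
    have hρx : Level_rho δ ε p x ≤ c * a / 16 := by
      refine (Level_rho_le_step hε p x).trans ((Level_step_le hε1 p x).trans ?_)
      rw [dist_comm]
      exact hxp.le
    have hρy : (c / 2) * dist x y - c * a / 16 ≤ Level_rho δ ε p y := by
      have h3 := Level_prepend (δ := δ) hε x p y
      have h4 := Level_step_le (δ := δ) hε1 x p
      linarith
    have hpos : 0 < dist x y := lt_of_lt_of_le ha h1
    have hca : c * a ≤ c * dist x y := mul_le_mul_of_nonneg_left h1 hc.le
    have hcd : c * dist x y ≤ dist x y := by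
      have := mul_le_mul_of_nonneg_right hc1 hpos.le
      linarith
    have hmx : min (Level_rho δ ε p x) b ≤ c * a / 16 := (min_le_left _ _).trans hρx
    have hmy : (c / 2) * dist x y - c * a / 16 ≤ min (Level_rho δ ε p y) b := by
      refine le_min hρy ?_
      have : 0 < c * a := mul_pos hc ha
      linarith
    rw [Real.dist_eq, abs_sub_comm]
    refine le_trans ?_ (le_abs_self _)
    linarith

end Pool.Agent.TSR
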