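import Pool.Agent.TSR.Defs

/-!
# Real Lipschitz functions with an image of positive measure (module TSR_Rect)

PROOF. Extend `φ|K` to a 1-Lipschitz `ψ : ℝ → ℝ` (`LipschitzOnWith.extend_real`). `ψ` is
differentiable almost everywhere (`LipschitzWith.ae_differentiableAt_real` or Rademacher). The image
of a null set under `ψ` is null and the image of `{x | HasDerivAt ψ 0 x}` is null
(`MeasureTheory.addHaar_image_eq_zero_of_det_fderiv_eq_zero`). So
`A = {x ∈ K | DifferentiableAt ℝ ψ x ∧ deriv ψ x ≠ 0}` has `volume A ≠ 0` (`A` is measurable).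
`exists_closed_cover_approximatesLinearOn_of_hasFDerivWithinAt` (Mathlib, Jacobian file), applied to
`A`, `f' = fderiv ψ` and `r L = ‖L 1‖₊ / 2` (or `1` if it is zero), gives countably many closed sets
`t n` covering `A` on which `ψ` is approximated by a linear map `B n = (fun x => b n * x)` up to
`|b n| / 2`; one of the sets `A ∩ t n` has positive measure (and its `b n` is not zero, because the
approximating map can be taken to be `f' y` for some `y ∈ A`); choose a compact `K'` of positive
measure inside `A ∩ t n` (`MeasurableSet.exists_isCompact_...` / inner regularity); there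
`|ψ s - ψ t| ≥ |b n| |s - t| - |b n| / 2 * |s - t|`.
-/

set_option autoImplicit false

namespace Pool.Agent.TSR

open MeasureTheory Filter Topology

private theorem rect_null_image {ψ : ℝ → ℝ} (hψ : LipschitzWith 1 ψ) {s : Set ℝ}
    (hs : volume s = 0) : volume (ψ '' s) = 0 := by
  have h := hψ.hausdorffMeasure_image_le (zero_le_one : (0 : ℝ) ≤ 1) s
  rw [hausdorffMeasure_real] at h
  simpa [hs] using h

private theorem rect_crit_image (ψ : ℝ → ℝ) :
    volume (ψ '' {x | HasDerivAt ψ 0 x}) = 0 := by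
  refine addHaar_image_eq_zero_of_det_fderivWithin_eq_zero volume
    (s := {x | HasDerivAt ψ 0 x}) (f := ψ)
    (f' := fun _ => (0 : ℝ →L[ℝ] ℝ)) ?_ ?_
  · intro x hx
    have h1 : HasDerivAt ψ 0 x := hx
    have h2 : HasFDerivAt ψ (0 : ℝ →L[ℝ] ℝ) x := by
      have := h1.hasFDerivAt
      simpa using this
    exact h2.hasFDerivWithinAt
  · intro x _
    simp

theorem exists_bilip_piece (φ : ℝ → ℝ) (K : Set ℝ) (hK : IsCompact K)
    (hφ : ∀ s ∈ K, ∀ t ∈ K, dist (φ s) (φ t) ≤ dist s t) (h : volume (φ '' K) ≠ 0) :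
    ∃ K' : Set ℝ, K' ⊆ K ∧ IsCompact K' ∧ volume K' ≠ 0 ∧
      ∃ c : ℝ, 0 < c ∧ ∀ s ∈ K', ∀ t ∈ K', c * dist s t ≤ dist (φ s) (φ t) := by
  classical
  have hL : LipschitzOnWith 1 φ K := by
    refine LipschitzOnWith.of_dist_le_mul ?_
    intro s hs t ht
    simpa using hφ s hs t ht
  obtain ⟨ψ, hψ, hEq⟩ := hL.extend_real
  have hdiff : ∀ᵐ x : ℝ, DifferentiableAt ℝ ψ x := hψ.ae_differentiableAt_real
  have hDn : volume {x | ¬ DifferentiableAt ℝ ψ x} = 0 := by
    simpa [ae_iff] using hdiff
  obtain ⟨A, hAdef⟩ : ∃ A : Set ℝ, A = K ∩ ({x | DifferentiableAt ℝ ψ x} ∩ (deriv ψ ⁻¹' {0}ᶜ)) :=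
    ⟨_, rfl⟩
  have hAmeas : MeasurableSet A := by
    rw [hAdef]
    exact hK.measurableSet.inter ((measurableSet_of_differentiableAt ℝ ψ).inter
      (measurable_deriv ψ (measurableSet_singleton 0).compl))
  have hApos : volume A ≠ 0 := by
    intro h0
    apply h
    have hsub : φ '' K ⊆ ψ '' A ∪ (ψ '' {x | ¬ DifferentiableAt ℝ ψ x} ∪
        ψ '' {x | HasDerivAt ψ 0 x}) := by
      rintro _ ⟨x, hx, rfl⟩
      rw [hEq hx]
      by_cases hd : DifferentiableAt ℝ ψ x
      · by_cases hz : deriv ψ x = 0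
        · right; right
          refine ⟨x, ?_, rfl⟩
          have := hd.hasDerivAt
          rw [hz] at this
          exact this
        · left
          refine ⟨x, ?_, rfl⟩
          rw [hAdef]
          exact ⟨hx, hd, hz⟩
      · right; left
        exact ⟨x, hd, rfl⟩
    refine measure_mono_null hsub ?_
    exact measure_union_null (rect_null_image hψ h0)
      (measure_union_null (rect_null_image hψ hDn) (rect_crit_image ψ))
  have hAne : A.Nonempty := by
    rcases A.eq_empty_or_nonempty with h0 | h0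
    · exact absurd (by rw [h0]; simp) hApos
    · exact h0
  obtain ⟨t, B, htc, htcov, happ, hB⟩ :=
    exists_closed_cover_approximatesLinearOn_of_hasFDerivWithinAt ψ A (fun x => fderiv ℝ ψ x)
      (fun x hx => by
        have hx' : DifferentiableAt ℝ ψ x := by
          rw [hAdef] at hx
          exact hx.2.1
        exact hx'.hasFDerivAt.hasFDerivWithinAt)
      (fun L => if L 1 = 0 then 1 else ‖L 1‖₊ / 2)
      (fun L => by
        by_cases hz : L 1 = 0
        · simp [hz]
        · simp [hz])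
  have hex : ∃ n, volume (A ∩ t n) ≠ 0 := by
    by_contra hcon
    push Not at hcon
    apply hApos
    have hsub : A ⊆ ⋃ n, A ∩ t n := by
      intro x hx
      obtain ⟨n, hn⟩ := Set.mem_iUnion.1 (htcov hx)
      exact Set.mem_iUnion.2 ⟨n, hx, hn⟩
    exact measure_mono_null hsub (measure_iUnion_null hcon)
  obtain ⟨n, hn⟩ := hex
  obtain ⟨K', hK'sub, hK'c, hK'pos⟩ :=
    (hAmeas.inter (htc n).measurableSet).exists_lt_isCompact (μ := volume)
      (pos_iff_ne_zero.2 hn)
  obtain ⟨y, hyA, hBy⟩ := hB hAne n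
  have hb : B n 1 ≠ 0 := by
    rw [hBy]
    have hy : deriv ψ y ≠ 0 := by
      rw [hAdef] at hyA
      exact hyA.2.2
    simpa using hy
  refine ⟨K', ?_, hK'c, hK'pos.ne', ‖B n 1‖ / 2, by positivity, ?_⟩
  · intro x hx
    have := (hK'sub hx).1
    rw [hAdef] at this
    exact this.1
  · intro s hs u hu
    have hsK : s ∈ K := by
      have := (hK'sub hs).1
      rw [hAdef] at this
      exact this.1
    have huK : u ∈ K := by
      have := (hK'sub hu).1
      rw [hAdef] at this
      exact this.1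
    rw [hEq hsK, hEq huK]
    have h1 := (happ n) s (hK'sub hs) u (hK'sub hu)
    simp only [hb, if_false] at h1
    have h2 : B n (s - u) = (s - u) * B n 1 := by
      have := (B n).map_smul (s - u) 1
      simpa [smul_eq_mul] using this
    rw [h2] at h1
    rw [Real.dist_eq, Real.dist_eq]
    have h3 : ‖(s - u) * B n 1‖ = |s - u| * ‖B n 1‖ := by
      rw [norm_mul, Real.norm_eq_abs]
    have h4 : ‖(s - u) * B n 1‖ ≤ ‖ψ s - ψ u‖ + ‖ψ s - ψ u - (s - u) * B n 1‖ := by
      have := norm_sub_le (ψ s - ψ u) (ψ s - ψ u - (s - u) * B n 1)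
      simpa using this
    have h5 : (((‖B n 1‖₊ / 2 : NNReal)) : ℝ) = ‖B n 1‖ / 2 := by
      push_cast
      simp
    rw [h5] at h1
    rw [Real.norm_eq_abs (s - u)] at h1
    rw [← Real.norm_eq_abs (ψ s - ψ u)]
    nlinarith [h1, h3, h4]

end Pool.Agent.TSR
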