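import Pool.Agent.TSR.Level

/-!
# The sequence of scales (module TSR_Scales)

PROOF. For `l` let `A l > 0` be given by `H`. For `l` let
`P l = {(x, y) | dist (u x) (u y) ≤ (c/2) * dist x y ∧ ∀ n, ∑ i ∈ Ico l n, |f x i - f y i| ≤ (c/2) * dist x y}`,
a closed set (`x ↦ f x i` is continuous since `|f x i - f y i| ≤ dist x y`).
If `(x, y) ∈ P l` and `0 < dist x y ≤ A l`, the first two alternatives of `H` are impossible, so the
third one holds.
TAILS: for `η > 0` there is `N` with `∑ i ∈ Ico N n, |f x i - f y i| ≤ η` for all `x y n`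
(for one pair the partial sums are bounded; finite `η/8`-net of `M` and `hf`; finitely many pairs of
net points).
RECURSION on `j`, state `(a j, a (j+1), l j, l (j+1))` with `a j ≤ A (l j)`, `a (j+1) ≤ A (l (j+1))`,
`0 < 4 * a (j+1) ≤ a j`. Start: `l 0 = l 1 = 0`, `a 0 = A 0`, `a 1 = A 0 / 4`. Step: choose `N j ≥ l (j+1)` with tails
beyond `N j` at most `(c/4) * a (j+1)`; `level` for `P (l j)` with `ε = (1/2)^(j+1)`, `a := a (j+1)`,
`b := a j` gives `δ j` and a map `g j : M → Fin (m j) → ℝ`; put `l (j+2) := N j` and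
`a (j+2) := min (δ j / 2) (min (a (j+1) / 4) (A (l (j+2))))`.
The windows `Ico (l j) (N j)` and `Ico (l i) (N i)` are disjoint if `j + 2 ≤ i` (as
`l i ≥ l (j+2) = N j`; `l` is monotone), so with `q j x y := ∑ i ∈ Ico (l j) (N j), |f x i - f y i|` the
even `j` and the odd `j` contribute at most `dist x y` each: (the sum over `j < J` of `q j x y`) `≤ 2 * dist x y`.
`h j x` := the finitely many functions `g j x` together with the functions
`x ↦ ∑ i ∈ Ico (l j) (N j), θ i * f x i` for all sign patterns `θ` on the window (re-index the finite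
type by `Fin (n j)`; if `M` is empty everything is trivial). For the sign functions the sup of the
differences is exactly `q j x y ≤ dist x y`.
Last property: if `dist (u x) (u y) < (c/4) * dist x y` then either `(x, y) ∈ P (l j)` (use `level`) or
some `∑ i ∈ Ico (l j) n, |f x i - f y i| > (c/2) * dist x y`, and cutting at `N j` loses at most
`(c/4) * a (j+1) ≤ (c/4) * dist x y`.
-/

set_option autoImplicit false

namespace Pool.Agent.TSR

open MeasureTheory Filter Topology Finset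

theorem coord_le {M : Type} [MetricSpace M] (f : M → ℕ → ℝ)
    (hf : ∀ x y n, ∑ i ∈ range n, |f x i - f y i| ≤ dist x y) (x y : M) (i : ℕ) :
    |f x i - f y i| ≤ dist x y :=
  (Finset.single_le_sum (f := fun i => |f x i - f y i|) (fun _ _ => abs_nonneg _)
    (Finset.mem_range.2 (Nat.lt_succ_self i))).trans (hf x y (i + 1))

theorem window_le {M : Type} [MetricSpace M] (f : M → ℕ → ℝ)
    (hf : ∀ x y n, ∑ i ∈ range n, |f x i - f y i| ≤ dist x y) (x y : M) (l n : ℕ) :
    ∑ i ∈ Ico l n, |f x i - f y i| ≤ dist x y := by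
  refine (Finset.sum_le_sum_of_subset_of_nonneg ?_ fun _ _ _ => abs_nonneg _).trans (hf x y n)
  intro i hi
  exact Finset.mem_range.2 (Finset.mem_Ico.1 hi).2

theorem tail_single {M : Type} [MetricSpace M] (f : M → ℕ → ℝ)
    (hf : ∀ x y n, ∑ i ∈ range n, |f x i - f y i| ≤ dist x y) (x y : M) {η : ℝ} (hη : 0 < η) :
    ∃ N, ∀ n, ∑ i ∈ Ico N n, |f x i - f y i| ≤ η := by
  have hb : BddAbove (Set.range fun n => ∑ i ∈ range n, |f x i - f y i|) :=
    ⟨dist x y, by rintro _ ⟨n, rfl⟩; exact hf x y n⟩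
  obtain ⟨N, hN⟩ := exists_lt_of_lt_ciSup
    (show (⨆ n, ∑ i ∈ range n, |f x i - f y i|) - η < ⨆ n, ∑ i ∈ range n, |f x i - f y i| by linarith)
  refine ⟨N, fun n => ?_⟩
  rcases le_total N n with h | h
  · rw [Finset.sum_Ico_eq_sub _ h]
    have h1 := le_ciSup hb n
    linarith
  · rw [Finset.Ico_eq_empty_of_le h, Finset.sum_empty]
    exact hη.le

theorem tail_unif {M : Type} [MetricSpace M] [CompactSpace M] (f : M → ℕ → ℝ)
    (hf : ∀ x y n, ∑ i ∈ range n, |f x i - f y i| ≤ dist x y) {η : ℝ} (hη : 0 < η) :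
    ∃ N, ∀ x y n, ∑ i ∈ Ico N n, |f x i - f y i| ≤ η := by
  have key : ∃ N : ℕ, ∀ z ∈ (Set.univ : Set (M × M)), ∀ n,
      ∑ i ∈ Ico N n, |f z.1 i - f z.2 i| ≤ η := by
    refine isCompact_univ.induction_on (p := fun s : Set (M × M) => ∃ N : ℕ, ∀ z ∈ s, ∀ n,
      ∑ i ∈ Ico N n, |f z.1 i - f z.2 i| ≤ η) ?_ ?_ ?_ ?_
    · exact ⟨0, fun z hz => absurd hz (Set.notMem_empty z)⟩
    · rintro s t hst ⟨N, hN⟩
      exact ⟨N, fun z hz => hN z (hst hz)⟩
    · rintro s t ⟨N, hN⟩ ⟨N', hN'⟩
      refine ⟨max N N', fun z hz n => ?_⟩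
      rcases hz with hz | hz
      · refine (Finset.sum_le_sum_of_subset_of_nonneg ?_ fun _ _ _ => abs_nonneg _).trans (hN z hz n)
        exact Finset.Ico_subset_Ico (le_max_left _ _) le_rfl
      · refine (Finset.sum_le_sum_of_subset_of_nonneg ?_ fun _ _ _ => abs_nonneg _).trans (hN' z hz n)
        exact Finset.Ico_subset_Ico (le_max_right _ _) le_rfl
    · rintro ⟨x, y⟩ -
      obtain ⟨N, hN⟩ := tail_single f hf x y (show (0 : ℝ) < η / 2 by linarith)
      refine ⟨Metric.ball (x, y) (η / 4), mem_nhdsWithin_of_mem_nhds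
        (Metric.ball_mem_nhds _ (by linarith)), N, ?_⟩
      rintro ⟨x', y'⟩ hz n
      have hz' : dist (x', y') (x, y) < η / 4 := Metric.mem_ball.1 hz
      rw [Prod.dist_eq, max_lt_iff] at hz'
      have h1 := window_le f hf x' x N n
      have h2 := window_le f hf y y' N n
      have h3 : ∑ i ∈ Ico N n, |f x' i - f y' i| ≤ ∑ i ∈ Ico N n, |f x' i - f x i| +
          ∑ i ∈ Ico N n, |f x i - f y i| + ∑ i ∈ Ico N n, |f y i - f y' i| := by
        rw [← Finset.sum_add_distrib, ← Finset.sum_add_distrib]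
        refine Finset.sum_le_sum fun i _ => ?_
        have h4 : f x' i - f y' i = (f x' i - f x i) + (f x i - f y i) + (f y i - f y' i) := by ring
        rw [h4]
        exact (abs_add_le _ _).trans (add_le_add (abs_add_le _ _) le_rfl)
      have h5 := hN n
      have h6 : dist x' x < η / 4 := hz'.1
      have h7 : dist y y' < η / 4 := by
        rw [dist_comm]
        exact hz'.2
      show ∑ i ∈ Ico N n, |f x' i - f y' i| ≤ η
      linarith
  obtain ⟨N, hN⟩ := key
  exact ⟨N, fun x y n => hN (x, y) (Set.mem_univ _) n⟩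

theorem reindex {M ι : Type} [Fintype ι] (H : M → ι → ℝ) :
    ∃ (n : ℕ) (h : M → Fin n → ℝ), ∀ x y, dist (h x) (h y) = dist (H x) (H y) := by
  refine ⟨Fintype.card ι, fun x k => H x ((Fintype.equivFin ι).symm k), fun x y => ?_⟩
  refine le_antisymm ((dist_pi_le_iff dist_nonneg).2 fun k => dist_le_pi_dist (H x) (H y) _)
    ((dist_pi_le_iff dist_nonneg).2 fun i => ?_)
  have h1 := dist_le_pi_dist (fun k => H x ((Fintype.equivFin ι).symm k))
    (fun k => H y ((Fintype.equivFin ι).symm k)) (Fintype.equivFin ι i)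
  simpa using h1

theorem window_fun {M : Type} (f : M → ℕ → ℝ) (W : Finset ℕ) {m : ℕ} (g : M → Fin m → ℝ) :
    ∃ (n : ℕ) (h : M → Fin n → ℝ), ∀ x y,
      dist (h x) (h y) = max (dist (g x) (g y)) (∑ i ∈ W, |f x i - f y i|) := by
  classical
  obtain ⟨n, h, hh⟩ := reindex (ι := Fin m ⊕ {T : Finset ℕ // T ∈ W.powerset})
    (fun x : M => Sum.elim (g x) (fun T => ∑ i ∈ W, if i ∈ T.1 then f x i else -f x i))
  refine ⟨n, h, fun x y => ?_⟩
  rw [hh]
  have hnn : 0 ≤ ∑ i ∈ W, |f x i - f y i| := Finset.sum_nonneg fun _ _ => abs_nonneg _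
  apply le_antisymm
  · refine (dist_pi_le_iff (hnn.trans (le_max_right _ _))).2 fun k => ?_
    rcases k with k | T
    · exact (dist_le_pi_dist (g x) (g y) k).trans (le_max_left _ _)
    · refine le_trans ?_ (le_max_right _ _)
      show dist (∑ i ∈ W, if i ∈ T.1 then f x i else -f x i)
        (∑ i ∈ W, if i ∈ T.1 then f y i else -f y i) ≤ _
      rw [Real.dist_eq, ← Finset.sum_sub_distrib]
      refine (Finset.abs_sum_le_sum_abs _ _).trans (Finset.sum_le_sum fun i _ => ?_)
      by_cases hi : i ∈ T.1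
      · rw [if_pos hi, if_pos hi]
      · rw [if_neg hi, if_neg hi, neg_sub_neg, abs_sub_comm]
  · refine max_le ((dist_pi_le_iff dist_nonneg).2 fun k => ?_) ?_
    · exact dist_le_pi_dist (Sum.elim (g x) (fun T : {T : Finset ℕ // T ∈ W.powerset} =>
        ∑ i ∈ W, if i ∈ T.1 then f x i else -f x i)) (Sum.elim (g y)
        (fun T => ∑ i ∈ W, if i ∈ T.1 then f y i else -f y i)) (Sum.inl k)
    · have h1 := dist_le_pi_dist (Sum.elim (g x) (fun T : {T : Finset ℕ // T ∈ W.powerset} =>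
        ∑ i ∈ W, if i ∈ T.1 then f x i else -f x i)) (Sum.elim (g y)
        (fun T => ∑ i ∈ W, if i ∈ T.1 then f y i else -f y i))
        (Sum.inr ⟨W.filter (fun i => f y i ≤ f x i), Finset.mem_powerset.2 (Finset.filter_subset _ _)⟩)
      refine le_trans ?_ h1
      show _ ≤ dist (∑ i ∈ W, if i ∈ W.filter (fun i => f y i ≤ f x i) then f x i else -f x i)
        (∑ i ∈ W, if i ∈ W.filter (fun i => f y i ≤ f x i) then f y i else -f y i)
      rw [Real.dist_eq, ← Finset.sum_sub_distrib]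
      refine le_trans (le_of_eq ?_) (le_abs_self _)
      refine Finset.sum_congr rfl fun i hi => ?_
      by_cases h2 : f y i ≤ f x i
      · rw [if_pos (Finset.mem_filter.2 ⟨hi, h2⟩), if_pos (Finset.mem_filter.2 ⟨hi, h2⟩),
          abs_of_nonneg (sub_nonneg.2 h2)]
      · have h3 : i ∉ W.filter (fun i => f y i ≤ f x i) := fun h3 => h2 (Finset.mem_filter.1 h3).2
        rw [if_neg h3, if_neg h3, abs_of_neg (sub_neg.2 (not_le.1 h2))]
        ring

/-- the closed set of the pairs which are seen neither by `u` nor by the functions beyond `l` -/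
def PSet {M E : Type} [MetricSpace M] [NormedAddCommGroup E] (u : M → E) (f : M → ℕ → ℝ) (c : ℝ)
    (l : ℕ) : Set (M × M) :=
  {p | dist (u p.1) (u p.2) ≤ (c / 2) * dist p.1 p.2 ∧
    ∀ n, ∑ i ∈ Ico l n, |f p.1 i - f p.2 i| ≤ (c / 2) * dist p.1 p.2}

theorem isClosed_PSet {M E : Type} [MetricSpace M] [NormedAddCommGroup E] (u : M → E)
    (hu : ∀ x y, dist (u x) (u y) ≤ dist x y) (f : M → ℕ → ℝ)
    (hf : ∀ x y n, ∑ i ∈ range n, |f x i - f y i| ≤ dist x y) (c : ℝ) (l : ℕ) :
    IsClosed (PSet u f c l) := by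
  have hcu : Continuous u := by
    have : LipschitzWith 1 u := LipschitzWith.of_dist_le_mul fun x y => by
      rw [NNReal.coe_one, one_mul]
      exact hu x y
    exact this.continuous
  have hcf : ∀ i, Continuous fun x => f x i := by
    intro i
    have : LipschitzWith 1 (fun x => f x i) := LipschitzWith.of_dist_le_mul fun x y => by
      rw [NNReal.coe_one, one_mul, Real.dist_eq]
      exact coord_le f hf x y i
    exact this.continuous
  have hd : Continuous fun p : M × M => (c / 2) * dist p.1 p.2 :=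
    continuous_const.mul (continuous_fst.dist continuous_snd)
  have h1 : IsClosed {p : M × M | dist (u p.1) (u p.2) ≤ (c / 2) * dist p.1 p.2} :=
    isClosed_le ((hcu.comp continuous_fst).dist (hcu.comp continuous_snd)) hd
  have h2 : ∀ n, IsClosed {p : M × M | ∑ i ∈ Ico l n, |f p.1 i - f p.2 i| ≤ (c / 2) * dist p.1 p.2} :=
    fun n => isClosed_le (continuous_finsetSum _ fun i _ =>
      (((hcf i).comp continuous_fst).sub ((hcf i).comp continuous_snd)).abs) hd
  have h3 : PSet u f c l = {p : M × M | dist (u p.1) (u p.2) ≤ (c / 2) * dist p.1 p.2} ∩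
      ⋂ n, {p : M × M | ∑ i ∈ Ico l n, |f p.1 i - f p.2 i| ≤ (c / 2) * dist p.1 p.2} := by
    ext p
    simp only [PSet, Set.mem_ofPred_eq, Set.mem_inter_iff, Set.mem_iInter]
  rw [h3]
  exact h1.inter (isClosed_iInter h2)

theorem scales {M E : Type} [MetricSpace M] [CompactSpace M] [NormedAddCommGroup E]
    (u : M → E) (hu : ∀ x y, dist (u x) (u y) ≤ dist x y)
    (f : M → ℕ → ℝ) (hf : ∀ x y n, ∑ i ∈ range n, |f x i - f y i| ≤ dist x y)
    {c : ℝ} (hc : 0 < c) (hc1 : c ≤ 1)
    (H : ∀ l : ℕ, ∃ A : ℝ, 0 < A ∧ ∀ x y : M, dist x y ≤ A →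
      c * dist x y ≤ dist (u x) (u y) ∨ (∃ n, c * dist x y ≤ ∑ i ∈ Ico l n, |f x i - f y i|) ∨
      ∀ r : ℝ, 0 ≤ r → Frag x y r → c * dist x y ≤ r) :
    ∃ (a : ℕ → ℝ) (n : ℕ → ℕ) (h : ∀ j, M → Fin (n j) → ℝ) (q : ℕ → M → M → ℝ),
      (∀ j, 0 < a j) ∧ (∀ j, 4 * a (j + 1) ≤ a j) ∧
      (∀ j x y, 0 ≤ q j x y) ∧ (∀ x y J, ∑ j ∈ range J, q j x y ≤ 2 * dist x y) ∧
      (∀ j x y, dist (h j x) (h j y) ≤ dist x y) ∧
      (∀ j x y, dist (h j x) (h j y) ≤ a j + q j x y) ∧
      (∀ j x y, dist x y ≤ a (j + 2) →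
        dist (h j x) (h j y) ≤ (1 / 2) ^ (j + 1) * dist x y + q j x y) ∧
      (∀ j x y, a (j + 1) ≤ dist x y → dist x y ≤ a j →
        (c / 4) * dist x y ≤ dist (u x) (u y) ∨ (c / 4) * dist x y ≤ dist (h j x) (h j y)) := by
  classical
  choose A hA0 hA using H
  -- the choice at one scale
  have key : ∀ (j : ℕ) (a a' : ℝ) (l l' : ℕ), ∃ (N : ℕ) (δ : ℝ) (m : ℕ) (g : M → Fin m → ℝ),
      l' ≤ N ∧ 0 < δ ∧ (0 < a → 0 < a' → a ≤ A l →
        (∀ x y n, ∑ i ∈ Ico N n, |f x i - f y i| ≤ (c / 4) * a') ∧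
        (∀ x y, dist (g x) (g y) ≤ dist x y) ∧ (∀ x y, dist (g x) (g y) ≤ a) ∧
        (∀ x y, dist x y < δ → dist (g x) (g y) ≤ (1 / 2) ^ (j + 1) * dist x y) ∧
        (∀ x y, (x, y) ∈ PSet u f c l → a' ≤ dist x y → dist x y ≤ a →
          (c / 4) * dist x y ≤ dist (g x) (g y))) := by
    intro j a a' l l'
    by_cases h : 0 < a ∧ 0 < a' ∧ a ≤ A l
    · obtain ⟨h1, h2, h3⟩ := h
      obtain ⟨N, hN⟩ := tail_unif f hf (show (0 : ℝ) < (c / 4) * a' by positivity)
      obtain ⟨δ, hδ, m, g, g1, g2, g3, g4⟩ := level (PSet u f c l) (isClosed_PSet u hu f hf c l)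
        (c := c) (ε := (1 / 2) ^ (j + 1)) (a := a') (b := a) hc hc1 (by positivity)
        (pow_le_one₀ (by norm_num) (by norm_num)) h2 h1 (by
          intro x y hxy h4 h5
          have hd : 0 < dist x y := lt_of_lt_of_le h2 h4
          rcases hA l x y (h5.trans h3) with h6 | ⟨n, h6⟩ | h6
          · exfalso
            have h7 : dist (u x) (u y) ≤ (c / 2) * dist x y := hxy.1
            have h8 : 0 < c * dist x y := by positivity
            linarith
          · exfalso
            have h7 : ∑ i ∈ Ico l n, |f x i - f y i| ≤ (c / 2) * dist x y := hxy.2 n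
            have h8 : 0 < c * dist x y := by positivity
            linarith
          · exact h6)
      refine ⟨max N l', δ, m, g, le_max_right _ _, hδ, fun _ _ _ => ⟨fun x y n => ?_, g1, g2, g3, g4⟩⟩
      refine (Finset.sum_le_sum_of_subset_of_nonneg ?_ fun _ _ _ => abs_nonneg _).trans (hN x y n)
      exact Finset.Ico_subset_Ico (le_max_left _ _) le_rfl
    · exact ⟨l', 1, 0, fun _ _ => 0, le_rfl, one_pos, fun h1 h2 h3 => absurd ⟨h1, h2, h3⟩ h⟩
  choose N δ m g hNl hδ hg using key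
  -- the recursion
  let st : ℕ → ℝ × ℝ × ℕ × ℕ := fun j => Nat.rec (A 0, A 0 / 4, 0, 0)
    (fun j s => (s.2.1, min (δ j s.1 s.2.1 s.2.2.1 s.2.2.2 / 2)
      (min (s.2.1 / 4) (A (N j s.1 s.2.1 s.2.2.1 s.2.2.2))), s.2.2.2, N j s.1 s.2.1 s.2.2.1 s.2.2.2)) j
  have hst0 : st 0 = (A 0, A 0 / 4, 0, 0) := rfl
  have hst : ∀ j, st (j + 1) = ((st j).2.1, min (δ j (st j).1 (st j).2.1 (st j).2.2.1 (st j).2.2.2 / 2)
      (min ((st j).2.1 / 4) (A (N j (st j).1 (st j).2.1 (st j).2.2.1 (st j).2.2.2))), (st j).2.2.2,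
      N j (st j).1 (st j).2.1 (st j).2.2.1 (st j).2.2.2) := fun _ => rfl
  clear_value st
  set a : ℕ → ℝ := fun j => (st j).1 with ha
  set l : ℕ → ℕ := fun j => (st j).2.2.1 with hl
  have ha1 : ∀ j, (st j).2.1 = a (j + 1) := by
    intro j
    show _ = (st (j + 1)).1
    rw [hst]
  have hl1 : ∀ j, (st j).2.2.2 = l (j + 1) := by
    intro j
    show _ = (st (j + 1)).2.2.1
    rw [hst]
  have ha2 : ∀ j, a (j + 2) = min (δ j (a j) (a (j + 1)) (l j) (l (j + 1)) / 2)
      (min (a (j + 1) / 4) (A (N j (a j) (a (j + 1)) (l j) (l (j + 1))))) := by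
    intro j
    rw [← ha1 (j + 1), hst, ha1, hl1]
  have hl2 : ∀ j, l (j + 2) = N j (a j) (a (j + 1)) (l j) (l (j + 1)) := by
    intro j
    rw [← hl1 (j + 1), hst, ha1, hl1]
  have hinv : ∀ j, 0 < a j ∧ 0 < a (j + 1) ∧ a j ≤ A (l j) ∧ a (j + 1) ≤ A (l (j + 1)) ∧
      4 * a (j + 1) ≤ a j := by
    intro j
    induction j with
    | zero =>
      have h0 : a 0 = A 0 := by show (st 0).1 = _; rw [hst0]
      have h1 : a (0 + 1) = A 0 / 4 := by rw [← ha1, hst0]
      have h2 : l 0 = 0 := by show (st 0).2.2.1 = _; rw [hst0]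
      have h3 : l (0 + 1) = 0 := by rw [← hl1, hst0]
      rw [h0, h1, h2, h3]
      have := hA0 0
      refine ⟨this, by linarith, le_rfl, by linarith, by linarith⟩
    | succ j ih =>
      obtain ⟨i1, i2, i3, i4, i5⟩ := ih
      have h1 : a (j + 1 + 1) = a (j + 2) := rfl
      have h2 : l (j + 1 + 1) = l (j + 2) := rfl
      rw [h1, h2, hl2, ha2]
      refine ⟨i2, ?_, i4, ?_, ?_⟩
      · refine lt_min ?_ (lt_min (by linarith) (hA0 _))
        have := hδ j (a j) (a (j + 1)) (l j) (l (j + 1))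
        linarith
      · exact (min_le_right _ _).trans (min_le_right _ _)
      · have h3 : min (δ j (a j) (a (j + 1)) (l j) (l (j + 1)) / 2)
            (min (a (j + 1) / 4) (A (N j (a j) (a (j + 1)) (l j) (l (j + 1))))) ≤ a (j + 1) / 4 :=
          (min_le_right _ _).trans (min_le_left _ _)
        linarith
  have hmono : ∀ j, l j ≤ l (j + 1) := by
    intro j
    rcases j with _ | j
    · have h2 : l 0 = 0 := by show (st 0).2.2.1 = _; rw [hst0]
      rw [h2]
      exact Nat.zero_le _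
    · show l (j + 1) ≤ l (j + 2)
      rw [hl2]
      exact hNl _ _ _ _ _
  have hG := fun j => hg j (a j) (a (j + 1)) (l j) (l (j + 1)) (hinv j).1 (hinv j).2.1 (hinv j).2.2.1
  choose n h hh using fun j => window_fun f (Ico (l j) (l (j + 2)))
    (g j (a j) (a (j + 1)) (l j) (l (j + 1)))
  refine ⟨a, n, h, fun j x y => ∑ i ∈ Ico (l j) (l (j + 2)), |f x i - f y i|, fun j => (hinv j).1,
    fun j => (hinv j).2.2.2.2, fun j x y => Finset.sum_nonneg fun _ _ => abs_nonneg _, ?_, ?_, ?_, ?_, ?_⟩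
  · intro x y J
    have hS : ∀ J, ∑ j ∈ range J, (∑ i ∈ Ico (l j) (l (j + 2)), |f x i - f y i|) =
        (∑ i ∈ range (l J), |f x i - f y i| + ∑ i ∈ range (l (J + 1)), |f x i - f y i|) -
        (∑ i ∈ range (l 0), |f x i - f y i| + ∑ i ∈ range (l 1), |f x i - f y i|) := by
      intro J
      induction J with
      | zero => simp
      | succ J ih =>
        rw [Finset.sum_range_succ, ih, Finset.sum_Ico_eq_sub _ ((hmono J).trans (hmono (J + 1)))]
        have h1 : l (J + 1 + 1) = l (J + 2) := rfl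
        rw [h1]
        ring
    rw [hS]
    have h1 := hf x y (l J)
    have h2 := hf x y (l (J + 1))
    have h3 : 0 ≤ ∑ i ∈ range (l 0), |f x i - f y i| := Finset.sum_nonneg fun _ _ => abs_nonneg _
    have h4 : 0 ≤ ∑ i ∈ range (l 1), |f x i - f y i| := Finset.sum_nonneg fun _ _ => abs_nonneg _
    linarith
  · intro j x y
    rw [hh]
    exact max_le ((hG j).2.1 x y) (window_le f hf x y _ _)
  · intro j x y
    rw [hh]
    have h1 := (hinv j).1
    have h2 : 0 ≤ ∑ i ∈ Ico (l j) (l (j + 2)), |f x i - f y i| :=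
      Finset.sum_nonneg fun _ _ => abs_nonneg _
    refine max_le (((hG j).2.2.1 x y).trans ?_) ?_ <;> linarith
  · intro j x y hxy
    rw [hh]
    have h2 : 0 ≤ ∑ i ∈ Ico (l j) (l (j + 2)), |f x i - f y i| :=
      Finset.sum_nonneg fun _ _ => abs_nonneg _
    have h3 : (0 : ℝ) ≤ (1 / 2) ^ (j + 1) * dist x y := by positivity
    have h4 : dist x y < δ j (a j) (a (j + 1)) (l j) (l (j + 1)) := by
      have h5 : a (j + 2) ≤ δ j (a j) (a (j + 1)) (l j) (l (j + 1)) / 2 := by
        rw [ha2]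
        exact min_le_left _ _
      have h6 := hδ j (a j) (a (j + 1)) (l j) (l (j + 1))
      linarith
    refine max_le (((hG j).2.2.2.1 x y h4).trans ?_) ?_ <;> linarith
  · intro j x y h1 h2
    by_cases h3 : (c / 4) * dist x y ≤ dist (u x) (u y)
    · exact Or.inl h3
    · right
      rw [hh]
      have hd : 0 ≤ dist x y := dist_nonneg
      have hcd : 0 ≤ c * dist x y := by positivity
      by_cases h4 : ∀ n, ∑ i ∈ Ico (l j) n, |f x i - f y i| ≤ (c / 2) * dist x y
      · refine le_trans ?_ (le_max_left _ _)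
        refine (hG j).2.2.2.2 x y ⟨?_, h4⟩ h1 h2
        show dist (u x) (u y) ≤ (c / 2) * dist x y
        have h5 := not_le.1 h3
        linarith
      · push Not at h4
        obtain ⟨n', h4⟩ := h4
        refine le_trans ?_ (le_max_right _ _)
        have h5 := (hG j).1 x y n'
        rw [← hl2] at h5
        have h6 : ∑ i ∈ Ico (l j) n', |f x i - f y i| ≤ ∑ i ∈ Ico (l j) (l (j + 2)), |f x i - f y i| +
            ∑ i ∈ Ico (l (j + 2)) n', |f x i - f y i| := by
          rcases le_total (l (j + 2)) n' with h7 | h7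
          · rw [Finset.sum_Ico_consecutive _ ((hmono j).trans (hmono (j + 1))) h7]
          · have h8 : ∑ i ∈ Ico (l j) n', |f x i - f y i| ≤
                ∑ i ∈ Ico (l j) (l (j + 2)), |f x i - f y i| :=
              Finset.sum_le_sum_of_subset_of_nonneg (Finset.Ico_subset_Ico le_rfl h7)
                fun _ _ _ => abs_nonneg _
            have h9 : 0 ≤ ∑ i ∈ Ico (l (j + 2)) n', |f x i - f y i| :=
              Finset.sum_nonneg fun _ _ => abs_nonneg _
            linarith
        have h7 : (c / 4) * a (j + 1) ≤ (c / 4) * dist x y :=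
          mul_le_mul_of_nonneg_left h1 (by positivity)
        linarith

end Pool.Agent.TSR
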