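import Pool.Agent.TSR.Defs

/-!
# Coordinates in a compact 0-hyperbolic space (module TSR_Tree)

PROOF. Base point `x 0`, dense sequence `x : ℕ → M` starting with the base point. Gromov product
`(p|q) = (dist p x0 + dist q x0 - dist p q) / 2 ≥ 0`, `(p|p) = dist p x0`,
`(p|q) ≤ min (dist p x0) (dist q x0)`, and `FourPoint` says `(p|q) ≥ min (p|z) (z|q)` (ultrametric law: of
`(p|q), (p|z), (q|z)` the two smallest are equal). `m n p := max over k ≤ n of (p|x k)`, `m 0 p = 0`,
nondecreasing in `n`, tends to `dist p x0` (density: `(p|x k) ≥ dist p x0 - dist p (x k)`).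
`f p n := m (n+1) p - m n p ≥ 0` (or `f p 0 = 0`, `f p (n+1) = m (n+1) p - m n p`).
(1) Let `s = (p|q)`. For each `k`: either `(p|x k) = (q|x k) ≤ s`, or one of them is `> s` and the other
one is `= s`. So `min (m n p) s = min (m n q) s`. As long as `m n p ≤ s` and `m n q ≤ s` we have
`m n p = m n q`. Let `n*` be the first `n` with `max (m n p) (m n q) > s` (if there is one; if not,
`dist p x0, dist q x0 ≤ s`, so `p = q`). Say `m n* p > s`; then `m n* q = s` (since `(q|x n*) = s`).
For `n > n*`: if `m n p > m (n-1) p` then `(p|x n) > s`, so `(q|x n) = s ≤ m (n-1) q` and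
`m n q = m (n-1) q`; symmetric. Hence the partial sums of `|f p i - f q i|` are, up to the index `n`,
`(m n p - m n* p) + (m n q - s) + (m n* p - s)` for `n ≥ n*` (and `0` before), which increase to
`dist p x0 + dist q x0 - 2 s = dist p q`.
(2) TWO COORDINATES. Fix `l`. Let `s k := m (k-1) (x k)` (the height of the branching point of the
`k`-th branch), for `k < l`. If `f p` increases at `k` (i.e. `m k p > m (k-1) p`), then
`(p|x k) > m (k-1) p`, so `m (k-1) p = m (k-1) (x k) = s k` (ultrametric law for all `x i`, `i < k`).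
Take `a > 0` smaller than all positive numbers among `|s k - s k'|` and `s k - (x k|x k')`,
`k, k' < l + 1`. Suppose `dist p q < a` and three coordinates `< l` differ. By (1) all of them are
`≥ n*`. Two of the three, `j < k`, belong to the same point or (one is `n*`, the others belong to
different points):
 (i) `n* < j < k` both increases of `p`: `s ≤ m (j-1) p = s j < m j p ≤ m (k-1) p = s k < dist p x0`, so
 `dist p q ≥ dist p x0 - s > s k - s j > 0`, and `s k - s j ≥ a`: contradiction.
 (ii) `n*` (with `m n* p > s`), `k > n*` increase of `p`, `k' > n*` increase of `q`: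
 `s k ≥ m n* p > s`, `s k' ≥ m n* q = s`. If `s k' = s`: `dist p q ≥ dist p x0 - s > s k - s = s k - s k' > 0`,
 contradiction. If `s k' > s`: `(p|x k) > s k > s` gives `(q|x k) = s`, and `(q|x k') > s k' > s` gives
 `(x k|x k') = s`, so `dist p q ≥ dist p x0 - s > s k - (x k|x k') > 0`: contradiction.
 (iii) `n* `, and `j < k` both `> n*` and both increases of the same point, covered by (i).
-/

set_option autoImplicit false

namespace Pool.Agent.TSR

open MeasureTheory Filter Topology Finset

namespace TreeAux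

variable {M : Type} [MetricSpace M]

/-- The Gromov product with base point `e`. -/
noncomputable def gp (e p q : M) : ℝ := (dist p e + dist q e - dist p q) / 2

/-- The maximum of the Gromov products of `p` with `x 0, ..., x n`. -/
noncomputable def mm (x : ℕ → M) (p : M) : ℕ → ℝ
  | 0 => 0
  | n + 1 => max (mm x p n) (gp (x 0) p (x (n + 1)))

/-- The coordinates. -/
noncomputable def ff (x : ℕ → M) (p : M) (n : ℕ) : ℝ := mm x p (n + 1) - mm x p n

theorem gp_comm (e p q : M) : gp e p q = gp e q p := by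
  unfold gp; rw [dist_comm p q]; ring

theorem gp_le_left (e p q : M) : gp e p q ≤ dist p e := by
  unfold gp
  have h := dist_triangle q p e
  rw [dist_comm q p] at h
  linarith

theorem gp_nonneg (e p q : M) : 0 ≤ gp e p q := by
  unfold gp
  have h := dist_triangle p e q
  rw [dist_comm e q] at h
  linarith

theorem gp_ge (e p q : M) : dist p e - dist p q ≤ gp e p q := by
  unfold gp
  have h := dist_triangle p q e
  linarith

theorem gp_min (h4 : FourPoint M) (e p q z : M) : min (gp e p z) (gp e q z) ≤ gp e p q := by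
  have h := h4 p q z e
  unfold gp
  rcases le_total (dist p z + dist q e) (dist p e + dist q z) with h1 | h1
  · rw [max_eq_right h1] at h
    refine (min_le_right _ _).trans ?_
    linarith
  · rw [max_eq_left h1] at h
    refine (min_le_left _ _).trans ?_
    linarith

/-- The ultrametric law. -/
theorem ultra (h4 : FourPoint M) (e p q z : M) :
    (gp e p z = gp e q z ∧ gp e p z ≤ gp e p q) ∨ (gp e p z = gp e p q ∧ gp e p q ≤ gp e q z) ∨
      (gp e q z = gp e p q ∧ gp e p q ≤ gp e p z) := by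
  have h1 := gp_min h4 e p q z
  have h2 := gp_min h4 e q z p
  have h3 := gp_min h4 e p z q
  rw [gp_comm e q p, gp_comm e z p] at h2
  rw [gp_comm e z q] at h3
  rw [min_le_iff] at h1 h2 h3
  rcases h1 with h1 | h1 <;> rcases h2 with h2 | h2 <;> rcases h3 with h3 | h3 <;>
    first
    | (left; constructor <;> linarith)
    | (right; left; constructor <;> linarith)
    | (right; right; constructor <;> linarith)

theorem mm_mono (x : ℕ → M) (p : M) : Monotone (mm x p) :=
  monotone_nat_of_le_succ fun _ => le_max_left _ _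

theorem mm_le (x : ℕ → M) (p : M) (n : ℕ) : mm x p n ≤ dist p (x 0) := by
  induction n with
  | zero => exact dist_nonneg
  | succ n ih => exact max_le ih (gp_le_left _ _ _)

theorem gp_le_mm (x : ℕ → M) (p : M) (n k : ℕ) (hk : k ≤ n) : gp (x 0) p (x k) ≤ mm x p n := by
  induction n with
  | zero =>
    obtain rfl : k = 0 := by omega
    simp [gp, mm]
  | succ n ih =>
    rcases Nat.lt_or_ge n k with h | h
    · obtain rfl : k = n + 1 := by omega
      exact le_max_right _ _
    · exact (ih h).trans (le_max_left _ _)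

theorem ff_nonneg (x : ℕ → M) (p : M) (n : ℕ) : 0 ≤ ff x p n :=
  sub_nonneg.2 (mm_mono x p (Nat.le_succ n))

theorem min_real (P Q a b s : ℝ) (ih : min P s = min Q s)
    (hu : (a = b ∧ a ≤ s) ∨ (a = s ∧ s ≤ b) ∨ (b = s ∧ s ≤ a)) :
    min (max P a) s = min (max Q b) s := by
  have h : min a s = min b s := by
    rcases hu with ⟨h1, -⟩ | ⟨h1, h2⟩ | ⟨h1, h2⟩
    · rw [h1]
    · rw [h1, min_self, min_eq_right h2]
    · rw [h1, min_self, min_eq_right h2]
  rw [min_max_distrib_right, min_max_distrib_right, ih, h]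

theorem abs_real (P Q a b s : ℝ) (ih : min P s = min Q s)
    (hu : (a = b ∧ a ≤ s) ∨ (a = s ∧ s ≤ b) ∨ (b = s ∧ s ≤ a)) :
    |(max P a - P) - (max Q b - Q)| =
      (max P a - P) + (max Q b - Q) - 2 * (min (max P a) s - min P s) := by
  rcases le_total P s with a1 | a1 <;> rcases le_total Q s with a2 | a2 <;>
    rcases le_total P a with a3 | a3 <;> rcases le_total Q b with a4 | a4 <;>
    simp only [a1, a2, a3, a4, min_eq_left, min_eq_right, max_eq_left, max_eq_right] at ih ⊢ <;>
    rcases le_total a s with a5 | a5 <;>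
    (try simp only [a5, min_eq_left, min_eq_right]) <;>
    rcases hu with ⟨h1, h2⟩ | ⟨h1, h2⟩ | ⟨h1, h2⟩ <;>
    first
    | (rw [abs_of_nonneg (by linarith)]; linarith)
    | (rw [abs_of_nonpos (by linarith)]; linarith)

theorem min_mm (h4 : FourPoint M) (x : ℕ → M) (p q : M) (n : ℕ) :
    min (mm x p n) (gp (x 0) p q) = min (mm x q n) (gp (x 0) p q) := by
  induction n with
  | zero => rfl
  | succ n ih => exact min_real _ _ _ _ _ ih (ultra h4 (x 0) p q (x (n + 1)))

theorem sum_ff (h4 : FourPoint M) (x : ℕ → M) (p q : M) (n : ℕ) :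
    ∑ i ∈ range n, |ff x p i - ff x q i| =
      mm x p n + mm x q n - 2 * min (mm x p n) (gp (x 0) p q) := by
  induction n with
  | zero => simp [mm, gp_nonneg]
  | succ n ih =>
    rw [sum_range_succ, ih]
    have h := abs_real (mm x p n) (mm x q n) (gp (x 0) p (x (n + 1))) (gp (x 0) q (x (n + 1)))
      (gp (x 0) p q) (min_mm h4 x p q n) (ultra h4 (x 0) p q (x (n + 1)))
    simp only [ff, mm] at h ⊢
    rw [h]
    ring

theorem tendsto_mm (x : ℕ → M) (hx : DenseRange x) (p : M) :
    Tendsto (mm x p) atTop (𝓝 (dist p (x 0))) := by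
  rw [Metric.tendsto_atTop]
  intro ε hε
  obtain ⟨k, hk⟩ := hx.exists_dist_lt p hε
  refine ⟨k, fun n hn => ?_⟩
  rw [Real.dist_eq, abs_sub_comm, abs_of_nonneg (sub_nonneg.2 (mm_le x p n))]
  have h1 := gp_le_mm x p n k hn
  have h2 := gp_ge (x 0) p (x k)
  linarith

theorem tendsto_sum (h4 : FourPoint M) (x : ℕ → M) (hx : DenseRange x) (p q : M) :
    Tendsto (fun n => ∑ i ∈ range n, |ff x p i - ff x q i|) atTop (𝓝 (dist p q)) := by
  have h1 := tendsto_mm x hx p
  have h2 := tendsto_mm x hx q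
  have h3 := (h1.add h2).sub ((h1.min (tendsto_const_nhds (x := gp (x 0) p q))).const_mul 2)
  have h4' : dist p (x 0) + dist q (x 0) - 2 * min (dist p (x 0)) (gp (x 0) p q) = dist p q := by
    rw [min_eq_right (gp_le_left _ _ _)]
    unfold gp
    ring
  rw [h4'] at h3
  refine h3.congr fun n => ?_
  rw [sum_ff h4]

/-- The branching heights. -/
theorem height (h4 : FourPoint M) (x : ℕ → M) (p : M) (j : ℕ) (hj : 0 < ff x p j) :
    mm x p j = mm x (x (j + 1)) j := by
  have h0 : mm x p j < gp (x 0) p (x (j + 1)) := by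
    by_contra hc
    rw [not_lt] at hc
    simp only [ff, mm, max_eq_left hc, sub_self, lt_irrefl] at hj
  have h1 : ∀ k, k ≤ j → mm x p k = mm x (x (j + 1)) k := by
    intro k
    induction k with
    | zero => intro _; rfl
    | succ k ih =>
      intro hk
      have h2 := (gp_le_mm x p j (k + 1) hk).trans_lt h0
      simp only [mm]
      rw [ih (by omega)]
      congr 1
      rcases ultra h4 (x 0) p (x (j + 1)) (x (k + 1)) with ⟨h3, -⟩ | ⟨h3, -⟩ | ⟨h3, h5⟩
      · exact h3
      · linarith
      · linarith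
  exact h1 j le_rfl

theorem exists_low (T : Finset ℝ) : ∃ a : ℝ, 0 < a ∧ ∀ v ∈ T, ∀ w ∈ T, w < v → a ≤ v - w := by
  classical
  have h : ∀ S : Finset ℝ, ∃ a : ℝ, 0 < a ∧ ∀ v ∈ S, 0 < v → a ≤ v := by
    intro S
    induction S using Finset.induction_on with
    | empty => exact ⟨1, one_pos, by simp⟩
    | insert b S hb ih =>
      obtain ⟨a, ha, h⟩ := ih
      rcases lt_or_ge 0 b with hb0 | hb0
      · refine ⟨min a b, lt_min ha hb0, fun v hv hv0 => ?_⟩
        rcases Finset.mem_insert.1 hv with rfl | hv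
        · exact min_le_right _ _
        · exact (min_le_left _ _).trans (h v hv hv0)
      · refine ⟨a, ha, fun v hv hv0 => ?_⟩
        rcases Finset.mem_insert.1 hv with rfl | hv
        · linarith
        · exact h v hv hv0
  obtain ⟨a, ha, h⟩ := h ((T ×ˢ T).image fun z => z.1 - z.2)
  refine ⟨a, ha, fun v hv w hw hvw => h _ ?_ (sub_pos.2 hvw)⟩
  exact Finset.mem_image.2 ⟨(v, w), Finset.mem_product.2 ⟨hv, hw⟩, rfl⟩

theorem overs (h4 : FourPoint M) (x : ℕ → M) (p q : M) (i : ℕ) (hi : ff x p i ≠ ff x q i) :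
    gp (x 0) p q ≤ mm x p (i + 1) ∧ gp (x 0) p q ≤ mm x q (i + 1) ∧
      (gp (x 0) p q < mm x p (i + 1) ∨ gp (x 0) p q < mm x q (i + 1)) := by
  have h1 := min_mm h4 x p q (i + 1)
  have h0 := min_mm h4 x p q i
  rcases lt_or_ge (gp (x 0) p q) (mm x p (i + 1)) with a1 | a1
  · rw [min_eq_right a1.le] at h1
    exact ⟨a1.le, h1 ▸ min_le_left _ _, Or.inl a1⟩
  · rcases lt_or_ge (gp (x 0) p q) (mm x q (i + 1)) with a2 | a2
    · rw [min_eq_right a2.le] at h1
      exact ⟨h1 ▸ min_le_left _ _, a2.le, Or.inr a2⟩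
    · exfalso
      apply hi
      have b1 := (mm_mono x p (Nat.le_succ i)).trans a1
      have b2 := (mm_mono x q (Nat.le_succ i)).trans a2
      rw [min_eq_left a1, min_eq_left a2] at h1
      rw [min_eq_left b1, min_eq_left b2] at h0
      simp only [ff, h1, h0]

/-- The same point rises at `j` and at `k`. -/
theorem case_same (h4 : FourPoint M) (x : ℕ → M) (p q : M) (j k : ℕ) (hjk : j < k) (T : Finset ℝ)
    (a : ℝ) (hT : ∀ v ∈ T, ∀ w ∈ T, w < v → a ≤ v - w) (hd : dist p q ≤ a)
    (h1 : mm x (x (j + 1)) j ∈ T) (h2 : mm x (x (k + 1)) k ∈ T)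
    (hs : gp (x 0) p q ≤ mm x p j) (hj : 0 < ff x p j) (hk : 0 < ff x p k) : False := by
  rw [← height h4 x p j hj] at h1
  rw [← height h4 x p k hk] at h2
  have b1 : mm x p j < mm x p (j + 1) := sub_pos.1 hj
  have b2 : mm x p k < mm x p (k + 1) := sub_pos.1 hk
  have b3 : mm x p (j + 1) ≤ mm x p k := mm_mono x p hjk
  have b4 := hT _ h2 _ h1 (b1.trans_le b3)
  have b5 := mm_le x p (k + 1)
  have b6 := gp_ge (x 0) p q
  linarith

/-- The point `p` rises at `j` and `q` rises at `k`; `p` is already beyond the branching point. -/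
theorem case_diff (h4 : FourPoint M) (x : ℕ → M) (p q : M) (j k : ℕ) (T : Finset ℝ)
    (a : ℝ) (hT : ∀ v ∈ T, ∀ w ∈ T, w < v → a ≤ v - w) (hd : dist p q ≤ a)
    (h1 : mm x (x (j + 1)) j ∈ T) (h2 : mm x (x (k + 1)) k ∈ T)
    (h3 : gp (x 0) (x (j + 1)) (x (k + 1)) ∈ T)
    (hs : gp (x 0) p q < mm x p j) (hs' : gp (x 0) p q ≤ mm x q k)
    (hj : 0 < ff x p j) (hk : 0 < ff x q k) : False := by
  rw [← height h4 x p j hj] at h1
  rw [← height h4 x q k hk] at h2
  have b1 : mm x p j < mm x p (j + 1) := sub_pos.1 hj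
  have b2 : mm x q k < mm x q (k + 1) := sub_pos.1 hk
  have b5 := mm_le x p (j + 1)
  have b6 := gp_ge (x 0) p q
  rcases hs'.eq_or_lt with hs' | hs'
  · have b4 := hT _ h1 _ h2 (by linarith)
    linarith
  · have c1 : mm x p j < gp (x 0) p (x (j + 1)) := by
      by_contra hc
      rw [not_lt] at hc
      simp only [ff, mm, max_eq_left hc, sub_self, lt_irrefl] at hj
    have c2 : mm x q k < gp (x 0) q (x (k + 1)) := by
      by_contra hc
      rw [not_lt] at hc
      simp only [ff, mm, max_eq_left hc, sub_self, lt_irrefl] at hk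
    have c3 : gp (x 0) q (x (j + 1)) = gp (x 0) p q := by
      rcases ultra h4 (x 0) p q (x (j + 1)) with ⟨-, d2⟩ | ⟨d1, d2⟩ | ⟨d1, d2⟩
      · linarith
      · linarith
      · exact d1
    have c4 : gp (x 0) (x (j + 1)) (x (k + 1)) = gp (x 0) p q := by
      have d := ultra h4 (x 0) (x (j + 1)) (x (k + 1)) q
      rw [gp_comm _ (x (j + 1)) q, gp_comm _ (x (k + 1)) q, c3] at d
      rcases d with ⟨d1, d2⟩ | ⟨d1, d2⟩ | ⟨d1, d2⟩
      · linarith
      · exact d1.symm
      · linarith
    have b4 := hT _ h1 _ h3 (by linarith)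
    linarith

end TreeAux

open TreeAux in
theorem tree_coords {M : Type} [MetricSpace M] [CompactSpace M] (h4 : FourPoint M) :
    ∃ f : M → ℕ → ℝ, (∀ x y n, ∑ i ∈ range n, |f x i - f y i| ≤ dist x y) ∧
      (∀ x y, HasSum (fun i => |f x i - f y i|) (dist x y)) ∧
      (∀ l : ℕ, ∃ a : ℝ, 0 < a ∧ ∀ x y, dist x y ≤ a →
        (Finset.filter (fun i => f x i ≠ f y i) (range l)).card ≤ 2) := by
  classical
  rcases isEmpty_or_nonempty M with hM | hM
  · exact ⟨fun _ _ => 0, fun x => (hM.false x).elim, fun x => (hM.false x).elim,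
      fun l => ⟨1, one_pos, fun x => (hM.false x).elim⟩⟩
  obtain ⟨x, hx⟩ := TopologicalSpace.exists_dense_seq M
  have hsum : ∀ p q, HasSum (fun i => |ff x p i - ff x q i|) (dist p q) := fun p q =>
    (hasSum_iff_tendsto_nat_of_nonneg (fun i => abs_nonneg _) _).2 (tendsto_sum h4 x hx p q)
  refine ⟨ff x, fun p q n => sum_le_hasSum _ (fun i _ => abs_nonneg _) (hsum p q), hsum,
    fun l => ?_⟩
  obtain ⟨a, ha, hT⟩ := exists_low (((range l).image fun j => mm x (x (j + 1)) j) ∪
    ((range l ×ˢ range l).image fun z => gp (x 0) (x (z.1 + 1)) (x (z.2 + 1))))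
  refine ⟨a, ha, fun p q hd => ?_⟩
  have m1 : ∀ j, j < l → mm x (x (j + 1)) j ∈ (((range l).image fun j => mm x (x (j + 1)) j) ∪
      ((range l ×ˢ range l).image fun z => gp (x 0) (x (z.1 + 1)) (x (z.2 + 1)))) := fun j hj =>
    mem_union_left _ (mem_image.2 ⟨j, mem_range.2 hj, rfl⟩)
  have m2 : ∀ j k, j < l → k < l → gp (x 0) (x (j + 1)) (x (k + 1)) ∈
      (((range l).image fun j => mm x (x (j + 1)) j) ∪
      ((range l ×ˢ range l).image fun z => gp (x 0) (x (z.1 + 1)) (x (z.2 + 1)))) :=
    fun j k hj hk => mem_union_right _ (mem_image.2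
      ⟨(j, k), mem_product.2 ⟨mem_range.2 hj, mem_range.2 hk⟩, rfl⟩)
  generalize (((range l).image fun j => mm x (x (j + 1)) j) ∪
    ((range l ×ˢ range l).image fun z => gp (x 0) (x (z.1 + 1)) (x (z.2 + 1)))) = T at hT m1 m2
  have key : ∀ i j k, i < j → j < k → k < l → ff x p i ≠ ff x q i → ff x p j ≠ ff x q j →
      ff x p k ≠ ff x q k → False := by
    intro i j k hij hjk hkl hi hj hk
    obtain ⟨o1, o2, o3⟩ := overs h4 x p q i hi
    have n1 : mm x p (i + 1) ≤ mm x p j := mm_mono x p hij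
    have n2 : mm x q (i + 1) ≤ mm x q j := mm_mono x q hij
    have n3 : mm x p j ≤ mm x p k := mm_mono x p hjk.le
    have n4 : mm x q j ≤ mm x q k := mm_mono x q hjk.le
    have hd' : dist q p ≤ a := by rwa [dist_comm]
    have rise : ∀ t, ff x p t ≠ ff x q t → 0 < ff x p t ∨ 0 < ff x q t := by
      intro t ht
      rcases (ff_nonneg x p t).eq_or_lt with h | h
      · rcases (ff_nonneg x q t).eq_or_lt with h' | h'
        · exact absurd (h.symm.trans h') ht
        · exact Or.inr h'
      · exact Or.inl h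
    have hjl : j < l := hjk.trans hkl
    rcases rise j hj with r1 | r1 <;> rcases rise k hk with r2 | r2
    · exact case_same h4 x p q j k hjk T a hT hd (m1 j hjl) (m1 k hkl) (o1.trans n1) r1 r2
    · rcases o3 with o3 | o3
      · exact case_diff h4 x p q j k T a hT hd (m1 j hjl) (m1 k hkl) (m2 j k hjl hkl)
          (o3.trans_le n1) (o2.trans (n2.trans n4)) r1 r2
      · refine case_diff h4 x q p k j T a hT hd' (m1 k hkl) (m1 j hjl) (m2 k j hkl hjl)
          ?_ ?_ r2 r1
        · rw [gp_comm]; exact o3.trans_le (n2.trans n4)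
        · rw [gp_comm]; exact o1.trans n1
    · rcases o3 with o3 | o3
      · exact case_diff h4 x p q k j T a hT hd (m1 k hkl) (m1 j hjl) (m2 k j hkl hjl)
          (o3.trans_le (n1.trans n3)) (o2.trans n2) r2 r1
      · refine case_diff h4 x q p j k T a hT hd' (m1 j hjl) (m1 k hkl) (m2 j k hjl hkl)
          ?_ ?_ r1 r2
        · rw [gp_comm]; exact o3.trans_le n2
        · rw [gp_comm]; exact o1.trans (n1.trans n3)
    · refine case_same h4 x q p j k hjk T a hT hd' (m1 j hjl) (m1 k hkl) ?_ r1 r2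
      rw [gp_comm]; exact o2.trans n2
  by_contra hc
  rw [not_le, Finset.two_lt_card] at hc
  obtain ⟨i, hi, j, hj, k, hk, hij, hik, hjk⟩ := hc
  simp only [mem_filter, mem_range] at hi hj hk
  obtain ⟨hi, hi'⟩ := hi
  obtain ⟨hj, hj'⟩ := hj
  obtain ⟨hk, hk'⟩ := hk
  rcases lt_or_gt_of_ne hij with h1 | h1 <;> rcases lt_or_gt_of_ne hik with h2 | h2 <;>
    rcases lt_or_gt_of_ne hjk with h3 | h3
  · exact key i j k h1 h3 hk hi' hj' hk'
  · exact key i k j h2 h3 hj hi' hk' hj'
  · omega
  · exact key k i j h2 h1 hj hk' hi' hj'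
  · exact key j i k h1 h2 hk hj' hi' hk'
  · omega
  · exact key j k i h3 h2 hi hj' hk' hi'
  · exact key k j i h3 h1 hi hk' hj' hi'

end Pool.Agent.TSR
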